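import Pool.Agent.LMT.V5

/-!
Holomorphic Riemannian metrics in coordinates: Christoffel symbols, curvature.
-/

set_option autoImplicit false

namespace Pool.Agent.LMT

open Set Filter Topology

variable {n : ℕ}

/-- The Christoffel symbol `Γ^l_{ij}` of the metric `g` at `z`. -/
noncomputable def Chr (g : (Fin n → ℂ) → Matrix (Fin n) (Fin n) ℂ) (l i j : Fin n)
    (z : Fin n → ℂ) : ℂ :=
  (1 / 2) * ∑ p, (g z)⁻¹ l p * (pd i (fun w => g w j p) z + pd j (fun w => g w i p) z -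
    pd p (fun w => g w i j) z)

/-- The curvature tensor `R^l_{kij}` of the metric `g` at `z`:
`R(∂_i, ∂_j) ∂_k = ∑_l R^l_{kij} ∂_l`. -/
noncomputable def Riem (g : (Fin n → ℂ) → Matrix (Fin n) (Fin n) ℂ) (l k i j : Fin n)
    (z : Fin n → ℂ) : ℂ :=
  pd i (Chr g l j k) z - pd j (Chr g l i k) z +
    ∑ p, (Chr g l i p z * Chr g p j k z - Chr g l j p z * Chr g p i k z)

/-- `g` is a holomorphic Riemannian metric on the open set `U`. -/
structure Met (g : (Fin n → ℂ) → Matrix (Fin n) (Fin n) ℂ) (U : Set (Fin n → ℂ)) : Prop where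
  isOpen : IsOpen U
  an : ∀ z ∈ U, ∀ i j, AnalyticAt ℂ (fun w => g w i j) z
  symm : ∀ z ∈ U, ∀ i j, g z i j = g z j i
  nd : ∀ z ∈ U, (g z).det ≠ 0

/-- The curvature tensor is that of a metric of constant curvature `κ`. -/
def CurvAt (g : (Fin n → ℂ) → Matrix (Fin n) (Fin n) ℂ) (κ : ℂ) (z : Fin n → ℂ) : Prop :=
  ∀ l k i j, Riem g l k i j z =
    κ * ((if l = i then g z j k else 0) - (if l = j then g z i k else 0))

theorem pd_congr {f f' : (Fin n → ℂ) → ℂ} {z : Fin n → ℂ} (h : f =ᶠ[𝓝 z] f') (i : Fin n) :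
    pd i f z = pd i f' z := by
  unfold pd
  rw [h.fderiv_eq]

theorem pd_add {f f' : (Fin n → ℂ) → ℂ} {z : Fin n → ℂ} (h : DifferentiableAt ℂ f z)
    (h' : DifferentiableAt ℂ f' z) (i : Fin n) :
    pd i (fun w => f w + f' w) z = pd i f z + pd i f' z := by
  unfold pd
  rw [fderiv_fun_add h h']
  rfl

theorem pd_sub {f f' : (Fin n → ℂ) → ℂ} {z : Fin n → ℂ} (h : DifferentiableAt ℂ f z)
    (h' : DifferentiableAt ℂ f' z) (i : Fin n) :
    pd i (fun w => f w - f' w) z = pd i f z - pd i f' z := by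
  unfold pd
  rw [fderiv_fun_sub h h']
  rfl

theorem pd_mul {f f' : (Fin n → ℂ) → ℂ} {z : Fin n → ℂ} (h : DifferentiableAt ℂ f z)
    (h' : DifferentiableAt ℂ f' z) (i : Fin n) :
    pd i (fun w => f w * f' w) z = pd i f z * f' z + f z * pd i f' z := by
  unfold pd
  rw [fderiv_fun_mul h h']
  simp only [_root_.add_apply, _root_.smul_apply, smul_eq_mul]
  ring

theorem pd_const_mul {f : (Fin n → ℂ) → ℂ} {z : Fin n → ℂ} (h : DifferentiableAt ℂ f z)
    (c : ℂ) (i : Fin n) : pd i (fun w => c * f w) z = c * pd i f z := by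
  unfold pd
  rw [fderiv_const_mul h]
  rfl

theorem pd_const (c : ℂ) (i : Fin n) (z : Fin n → ℂ) : pd i (fun _ => c) z = 0 := by
  unfold pd
  simp

theorem pd_sum {ι : Type*} (s : Finset ι) {f : ι → (Fin n → ℂ) → ℂ} {z : Fin n → ℂ}
    (h : ∀ k ∈ s, DifferentiableAt ℂ (f k) z) (i : Fin n) :
    pd i (fun w => ∑ k ∈ s, f k w) z = ∑ k ∈ s, pd i (f k) z := by
  unfold pd
  rw [fderiv_fun_sum h]
  simp only [_root_.sum_apply]

theorem analyticAt_pd {f : (Fin n → ℂ) → ℂ} {z : Fin n → ℂ} (h : AnalyticAt ℂ f z) (i : Fin n) :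
    AnalyticAt ℂ (pd i f) z := by
  have h1 := h.fderiv
  exact AnalyticAt.comp (f := fderiv ℂ f)
    ((ContinuousLinearMap.apply ℂ ℂ (Pi.single i (1:ℂ) : Fin n → ℂ)).analyticAt _) h1

/-- mixed derivatives commute. -/
theorem pd_comm {f : (Fin n → ℂ) → ℂ} {z : Fin n → ℂ} (h : AnalyticAt ℂ f z) (i j : Fin n) :
    pd i (pd j f) z = pd j (pd i f) z := by
  have key : ∀ i j : Fin n, pd i (pd j f) z =
      fderiv ℂ (fderiv ℂ f) z (Pi.single i 1) (Pi.single j 1) := by
    intro i j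
    have h2 : HasFDerivAt (fderiv ℂ f) (fderiv ℂ (fderiv ℂ f) z) z :=
      h.fderiv.differentiableAt.hasFDerivAt
    have h1 : HasFDerivAt (pd j f)
        ((ContinuousLinearMap.apply ℂ ℂ (Pi.single j (1:ℂ) : Fin n → ℂ)).comp
          (fderiv ℂ (fderiv ℂ f) z)) z :=
      (ContinuousLinearMap.apply ℂ ℂ (Pi.single j (1:ℂ) : Fin n → ℂ)).hasFDerivAt.comp z h2
    unfold pd at h1 ⊢
    rw [h1.fderiv]
    rfl
  rw [key, key]
  have h1 : ContDiffAt ℂ 2 f z := h.contDiffAt
  exact (h1.isSymmSndFDerivAt (by simp)).eq _ _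

theorem analyticAt_det {N : ℕ} {M : (Fin n → ℂ) → Matrix (Fin N) (Fin N) ℂ} {z : Fin n → ℂ}
    (h : ∀ i j, AnalyticAt ℂ (fun w => M w i j) z) : AnalyticAt ℂ (fun w => (M w).det) z := by
  simp_rw [Matrix.det_apply]
  refine Finset.analyticAt_fun_sum _ (fun σ _ => ?_)
  have h1 : AnalyticAt ℂ (fun w => ∏ i, M w (σ i) i) z :=
    Finset.analyticAt_fun_prod _ (fun i _ => h _ _)
  have h2 : (fun w => Equiv.Perm.sign σ • ∏ i, M w (σ i) i) =
      fun w => ((Equiv.Perm.sign σ : ℤ) : ℂ) * ∏ i, M w (σ i) i := by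
    funext w
    rw [Units.smul_def, zsmul_eq_mul]
  rw [h2]
  exact analyticAt_const.fun_mul h1

theorem analyticAt_inv {N : ℕ} {M : (Fin n → ℂ) → Matrix (Fin N) (Fin N) ℂ} {z : Fin n → ℂ}
    (h : ∀ i j, AnalyticAt ℂ (fun w => M w i j) z) (hd : (M z).det ≠ 0) (i j : Fin N) :
    AnalyticAt ℂ (fun w => (M w)⁻¹ i j) z := by
  have h1 : (fun w => (M w)⁻¹ i j) = fun w => ((M w).det)⁻¹ * (M w).adjugate i j := by
    funext w
    rw [Matrix.inv_def, Matrix.smul_apply, smul_eq_mul, Ring.inverse_eq_inv']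
  rw [h1]
  refine ((analyticAt_det h).fun_inv hd).fun_mul ?_
  simp_rw [Matrix.adjugate_apply]
  apply analyticAt_det
  intro a b
  by_cases hab : a = j
  · subst hab
    simp only [Matrix.updateRow_self]
    exact analyticAt_const
  · simp only [Matrix.updateRow_ne hab]
    exact h a b

section Facts

variable {g : (Fin n → ℂ) → Matrix (Fin n) (Fin n) ℂ} {U : Set (Fin n → ℂ)} (hg : Met g U)
include hg

theorem Met.analyticAt_Chr {z : Fin n → ℂ} (hz : z ∈ U) (l i j : Fin n) :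
    AnalyticAt ℂ (Chr g l i j) z := by
  refine analyticAt_const.fun_mul (Finset.analyticAt_fun_sum _ (fun p _ => ?_))
  refine (analyticAt_inv (hg.an z hz) (hg.nd z hz) l p).fun_mul ?_
  exact ((analyticAt_pd (hg.an z hz j p) i).fun_add (analyticAt_pd (hg.an z hz i p) j)).fun_sub
    (analyticAt_pd (hg.an z hz i j) p)

theorem Met.pd_symm {z : Fin n → ℂ} (hz : z ∈ U) (i j l : Fin n) :
    pd i (fun w => g w j l) z = pd i (fun w => g w l j) z := by
  apply pd_congr
  filter_upwards [hg.isOpen.mem_nhds hz] with w hw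
  exact hg.symm w hw j l

theorem Met.Chr_symm {z : Fin n → ℂ} (hz : z ∈ U) (l i j : Fin n) :
    Chr g l i j z = Chr g l j i z := by
  unfold Chr
  congr 1
  refine Finset.sum_congr rfl (fun p _ => ?_)
  rw [hg.pd_symm hz p i j]
  ring

/-- Christoffel symbols of the first kind. -/
theorem Met.first {z : Fin n → ℂ} (hz : z ∈ U) (l i j : Fin n) :
    ∑ p, g z l p * Chr g p i j z = (1 / 2) * (pd i (fun w => g w j l) z +
      pd j (fun w => g w i l) z - pd l (fun w => g w i j) z) := by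
  unfold Chr
  have h1 : g z * (g z)⁻¹ = 1 := Matrix.mul_nonsing_inv _ (isUnit_iff_ne_zero.mpr (hg.nd z hz))
  have h2 : ∀ q, ∑ p, g z l p * (g z)⁻¹ p q = if l = q then 1 else 0 := by
    intro q
    rw [← Matrix.mul_apply, h1, Matrix.one_apply]
  calc ∑ p, g z l p * (1 / 2 * ∑ q, (g z)⁻¹ p q * (pd i (fun w => g w j q) z +
        pd j (fun w => g w i q) z - pd q (fun w => g w i j) z))
      = 1 / 2 * ∑ q, (∑ p, g z l p * (g z)⁻¹ p q) * (pd i (fun w => g w j q) z +
        pd j (fun w => g w i q) z - pd q (fun w => g w i j) z) := by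
        simp_rw [Finset.mul_sum, Finset.sum_mul, Finset.mul_sum]
        rw [Finset.sum_comm]
        refine Finset.sum_congr rfl (fun q _ => Finset.sum_congr rfl (fun p _ => ?_))
        ring
    _ = _ := by
        simp_rw [h2]
        simp

/-- The connection is compatible with the metric. -/
theorem Met.compat {z : Fin n → ℂ} (hz : z ∈ U) (i j l : Fin n) :
    pd i (fun w => g w j l) z = ∑ p, g z l p * Chr g p i j z + ∑ p, g z j p * Chr g p i l z := by
  rw [hg.first hz, hg.first hz, hg.pd_symm hz i l j]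
  ring

end Facts

end Pool.Agent.LMT
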