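import Pool.Agent.LMT.M1

/-!
The linear system of a metric of constant curvature.
-/

set_option autoImplicit false

namespace Pool.Agent.LMT

open Set Filter Topology Matrix

variable {n : ℕ}

/-- entrywise coordinate derivative of a matrix valued function. -/
noncomputable def pdM {a b : ℕ} (i : Fin n) (M : (Fin n → ℂ) → Matrix (Fin a) (Fin b) ℂ)
    (z : Fin n → ℂ) : Matrix (Fin a) (Fin b) ℂ :=
  Matrix.of fun c d => pd i (fun w => M w c d) z

/-- entrywise differentiability. -/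
def DiffM {a b : ℕ} (M : (Fin n → ℂ) → Matrix (Fin a) (Fin b) ℂ) (z : Fin n → ℂ) : Prop :=
  ∀ c d, DifferentiableAt ℂ (fun w => M w c d) z

/-- entrywise analyticity. -/
def AnM {a b : ℕ} (M : (Fin n → ℂ) → Matrix (Fin a) (Fin b) ℂ) (z : Fin n → ℂ) : Prop :=
  ∀ c d, AnalyticAt ℂ (fun w => M w c d) z

theorem AnM.diff {a b : ℕ} {M : (Fin n → ℂ) → Matrix (Fin a) (Fin b) ℂ} {z : Fin n → ℂ}
    (h : AnM M z) : DiffM M z := fun c d => (h c d).differentiableAt

theorem AnM.eventually {a b : ℕ} {M : (Fin n → ℂ) → Matrix (Fin a) (Fin b) ℂ} {z : Fin n → ℂ}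
    (h : AnM M z) : ∀ᶠ w in 𝓝 z, AnM M w := by
  unfold AnM
  rw [eventually_all]; intro c
  rw [eventually_all]; intro d
  exact (h c d).eventually_analyticAt

theorem AnM.mul {a b c : ℕ} {M : (Fin n → ℂ) → Matrix (Fin a) (Fin b) ℂ}
    {N : (Fin n → ℂ) → Matrix (Fin b) (Fin c) ℂ} {z : Fin n → ℂ} (h : AnM M z) (h' : AnM N z) :
    AnM (fun w => M w * N w) z := by
  intro i j
  simp_rw [Matrix.mul_apply]
  exact Finset.analyticAt_fun_sum _ (fun k _ => (h i k).fun_mul (h' k j))

theorem AnM.transpose {a b : ℕ} {M : (Fin n → ℂ) → Matrix (Fin a) (Fin b) ℂ} {z : Fin n → ℂ}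
    (h : AnM M z) : AnM (fun w => (M w)ᵀ) z := fun c d => h d c

theorem AnM.inv {a : ℕ} {M : (Fin n → ℂ) → Matrix (Fin a) (Fin a) ℂ} {z : Fin n → ℂ}
    (h : AnM M z) (hd : (M z).det ≠ 0) : AnM (fun w => (M w)⁻¹) z :=
  fun c d => analyticAt_inv h hd c d

theorem anM_const {a b : ℕ} (C : Matrix (Fin a) (Fin b) ℂ) (z : Fin n → ℂ) :
    AnM (fun _ => C) z := fun _ _ => analyticAt_const

theorem pdM_const {a b : ℕ} (C : Matrix (Fin a) (Fin b) ℂ) (i : Fin n) (z : Fin n → ℂ) :
    pdM i (fun _ => C) z = 0 := by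
  ext c d
  exact pd_const _ _ _

theorem pdM_congr {a b : ℕ} {M N : (Fin n → ℂ) → Matrix (Fin a) (Fin b) ℂ} {z : Fin n → ℂ}
    (h : M =ᶠ[𝓝 z] N) (i : Fin n) : pdM i M z = pdM i N z := by
  ext c d
  apply pd_congr
  filter_upwards [h] with w hw
  rw [hw]

theorem pdM_mul {a b c : ℕ} {M : (Fin n → ℂ) → Matrix (Fin a) (Fin b) ℂ}
    {N : (Fin n → ℂ) → Matrix (Fin b) (Fin c) ℂ} {z : Fin n → ℂ} (h : DiffM M z)
    (h' : DiffM N z) (i : Fin n) :
    pdM i (fun w => M w * N w) z = pdM i M z * N z + M z * pdM i N z := by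
  ext p q
  simp only [pdM, Matrix.of_apply, Matrix.add_apply, Matrix.mul_apply]
  rw [pd_sum _ (fun k _ => (h p k).fun_mul (h' k q)), ← Finset.sum_add_distrib]
  refine Finset.sum_congr rfl (fun k _ => ?_)
  exact pd_mul (h p k) (h' k q) i

theorem pdM_transpose {a b : ℕ} (M : (Fin n → ℂ) → Matrix (Fin a) (Fin b) ℂ) (z : Fin n → ℂ)
    (i : Fin n) : pdM i (fun w => (M w)ᵀ) z = (pdM i M z)ᵀ := rfl

theorem pdM_inv {a : ℕ} {M : (Fin n → ℂ) → Matrix (Fin a) (Fin a) ℂ} {z : Fin n → ℂ}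
    (h : AnM M z) (hd : (M z).det ≠ 0) (i : Fin n) :
    pdM i (fun w => (M w)⁻¹) z = -((M z)⁻¹ * pdM i M z * (M z)⁻¹) := by
  have h1 : ∀ᶠ w in 𝓝 z, (M w)⁻¹ * M w = 1 := by
    have hc : ContinuousAt (fun w => (M w).det) z := (analyticAt_det h).continuousAt
    filter_upwards [hc.eventually_ne hd] with w hw
    exact Matrix.nonsing_inv_mul _ (isUnit_iff_ne_zero.mpr hw)
  have h2 := pdM_mul (h.inv hd).diff h.diff i
  have h3 : pdM i (fun w => (M w)⁻¹ * M w) z = 0 := by
    rw [pdM_congr (N := fun _ => 1) h1 i, pdM_const]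
  rw [h3] at h2
  have h4 : M z * (M z)⁻¹ = 1 := Matrix.mul_nonsing_inv _ (isUnit_iff_ne_zero.mpr hd)
  have h5 := congrArg (fun X => X * (M z)⁻¹) h2
  simp only [zero_mul, add_mul, Matrix.mul_assoc, h4, Matrix.mul_one] at h5
  rw [eq_neg_iff_add_eq_zero, Matrix.mul_assoc]
  exact h5.symm

/-- functions with vanishing derivatives are locally constant. -/
theorem const_of_pd {f : (Fin n → ℂ) → ℂ} {z0 : Fin n → ℂ}
    (h : ∀ᶠ z in 𝓝 z0, DifferentiableAt ℂ f z ∧ ∀ i, pd i f z = 0) :
    ∀ᶠ z in 𝓝 z0, f z = f z0 := by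
  obtain ⟨ε, hε, hball⟩ := Metric.eventually_nhds_iff_ball.mp h
  filter_upwards [Metric.ball_mem_nhds z0 hε] with z hz
  have h0 : ∀ w ∈ Metric.ball z0 ε, fderiv ℂ f w = 0 := by
    intro w hw
    ext u
    rw [fderiv_eq_sum]
    simp [(hball w hw).2]
  exact Metric.isOpen_ball.is_const_of_fderiv_eq_zero (convex_ball z0 ε).isPreconnected
    (fun w hw => (hball w hw).1.differentiableWithinAt) h0 hz (Metric.mem_ball_self hε)

theorem constM_of_pd {a b : ℕ} {M : (Fin n → ℂ) → Matrix (Fin a) (Fin b) ℂ} {z0 : Fin n → ℂ}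
    (h : ∀ᶠ z in 𝓝 z0, DiffM M z ∧ ∀ i, pdM i M z = 0) :
    ∀ᶠ z in 𝓝 z0, M z = M z0 := by
  have h1 : ∀ c d, ∀ᶠ z in 𝓝 z0, M z c d = M z0 c d := by
    intro c d
    apply const_of_pd
    filter_upwards [h] with z hz
    refine ⟨hz.1 c d, fun i => ?_⟩
    have := congrFun (congrFun (hz.2 i) c) d
    exact this
  have h2 : ∀ᶠ z in 𝓝 z0, ∀ c d, M z c d = M z0 c d := by
    rw [eventually_all]; intro c
    rw [eventually_all]; intro d
    exact h1 c d
  filter_upwards [h2] with z hz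
  ext c d
  exact hz c d

/-- The matrices of the linear system. -/
noncomputable def sysA (g : (Fin n → ℂ) → Matrix (Fin n) (Fin n) ℂ) (κ : ℂ) (i : Fin n)
    (z : Fin n → ℂ) : Matrix (Fin (n + 1)) (Fin (n + 1)) ℂ :=
  Matrix.of (Fin.cases (Fin.cases 0 (fun k => if i = k then 1 else 0))
    (fun j => Fin.cases (-κ * g z i j) (fun k => Chr g k i j z)))

/-- The Gram matrix. -/
noncomputable def gram0 (g : (Fin n → ℂ) → Matrix (Fin n) (Fin n) ℂ) (κ : ℂ)
    (z : Fin n → ℂ) : Matrix (Fin (n + 1)) (Fin (n + 1)) ℂ :=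
  Matrix.of (Fin.cases (Fin.cases 1 (fun _ => 0))
    (fun j => Fin.cases 0 (fun k => κ * g z j k)))

section Facts

variable {g : (Fin n → ℂ) → Matrix (Fin n) (Fin n) ℂ} {U : Set (Fin n → ℂ)} (hg : Met g U)
include hg

theorem Met.analyticAt_sysA {z : Fin n → ℂ} (hz : z ∈ U) (κ : ℂ) (i : Fin n) :
    AnM (sysA g κ i) z := by
  intro a b
  refine Fin.cases ?_ (fun j => ?_) a
  · refine Fin.cases ?_ (fun k => ?_) b
    · exact analyticAt_const
    · exact analyticAt_const
  · refine Fin.cases ?_ (fun k => ?_) b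
    · exact analyticAt_const.fun_mul (hg.an z hz i j)
    · exact hg.analyticAt_Chr hz k i j

theorem Met.analyticAt_gram0 {z : Fin n → ℂ} (hz : z ∈ U) (κ : ℂ) :
    AnM (gram0 g κ) z := by
  intro a b
  refine Fin.cases ?_ (fun j => ?_) a
  · refine Fin.cases ?_ (fun k => ?_) b
    · exact analyticAt_const
    · exact analyticAt_const
  · refine Fin.cases ?_ (fun k => ?_) b
    · exact analyticAt_const
    · exact analyticAt_const.fun_mul (hg.an z hz j k)

theorem Met.flat {z : Fin n → ℂ} (hz : z ∈ U) (κ : ℂ) (hc : CurvAt g κ z) (i j : Fin n)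
    (a b : Fin (n + 1)) :
    pd i (fun z => sysA g κ j z a b) z + (sysA g κ j z * sysA g κ i z) a b =
      pd j (fun z => sysA g κ i z a b) z + (sysA g κ i z * sysA g κ j z) a b := by
  rw [Matrix.mul_apply, Matrix.mul_apply, Fin.sum_univ_succ, Fin.sum_univ_succ]
  refine Fin.cases ?_ (fun m => ?_) a
  · refine Fin.cases ?_ (fun l => ?_) b
    · change pd i (fun _ => (0:ℂ)) z + (0 * 0 + ∑ k, (if j = k then (1:ℂ) else 0) * (-κ * g z i k)) =
        pd j (fun _ => (0:ℂ)) z + (0 * 0 + ∑ k, (if i = k then (1:ℂ) else 0) * (-κ * g z j k))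
      rw [pd_const, pd_const]
      simp only [ite_mul, one_mul, zero_mul, Finset.sum_ite_eq, Finset.mem_univ, if_true]
      rw [hg.symm z hz i j]
    · change pd i (fun _ => if j = l then (1:ℂ) else 0) z + (0 * _ +
          ∑ k, (if j = k then (1:ℂ) else 0) * Chr g l i k z) =
        pd j (fun _ => if i = l then (1:ℂ) else 0) z + (0 * _ +
          ∑ k, (if i = k then (1:ℂ) else 0) * Chr g l j k z)
      rw [pd_const, pd_const]
      simp only [ite_mul, one_mul, zero_mul, Finset.sum_ite_eq, Finset.mem_univ, if_true]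
      rw [hg.Chr_symm hz l i j]
  · refine Fin.cases ?_ (fun l => ?_) b
    · change pd i (fun z => -κ * g z j m) z + ((-κ * g z j m) * 0 +
          ∑ k, Chr g k j m z * (-κ * g z i k)) =
        pd j (fun z => -κ * g z i m) z + ((-κ * g z i m) * 0 +
          ∑ k, Chr g k i m z * (-κ * g z j k))
      rw [pd_const_mul (hg.an z hz j m).differentiableAt,
        pd_const_mul (hg.an z hz i m).differentiableAt, hg.compat hz i j m, hg.compat hz j i m]
      have e1 : ∀ i j : Fin n, ∑ k, Chr g k j m z * (-κ * g z i k) =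
          -κ * ∑ p, g z i p * Chr g p j m z := by
        intro i j
        rw [Finset.mul_sum]
        refine Finset.sum_congr rfl (fun k _ => ?_)
        ring
      have e2 : ∑ p, g z m p * Chr g p j i z = ∑ p, g z m p * Chr g p i j z :=
        Finset.sum_congr rfl (fun p _ => by rw [hg.Chr_symm hz p j i])
      rw [e1, e1, e2]
      ring
    · change pd i (Chr g l j m) z + ((-κ * g z j m) * (if i = l then (1:ℂ) else 0) +
          ∑ k, Chr g k j m z * Chr g l i k z) =
        pd j (Chr g l i m) z + ((-κ * g z i m) * (if j = l then (1:ℂ) else 0) +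
          ∑ k, Chr g k i m z * Chr g l j k z)
      have h1 := hc l m i j
      unfold Riem at h1
      rw [Finset.sum_sub_distrib] at h1
      have e1 : ∀ i j : Fin n, ∑ k, Chr g k j m z * Chr g l i k z =
          ∑ p, Chr g l i p z * Chr g p j m z := by
        intro i j
        refine Finset.sum_congr rfl (fun k _ => ?_)
        ring
      rw [e1, e1]
      have e2 : ∀ i : Fin n, (if i = l then (1:ℂ) else 0) = if l = i then 1 else 0 := by
        intro i
        simp only [eq_comm]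
      rw [e2, e2]
      have e3 : ∀ (i : Fin n) (x : ℂ), x * (if l = i then (1:ℂ) else 0) =
          if l = i then x else 0 := by
        intro i x
        split_ifs <;> simp
      rw [e3, e3]
      split_ifs at h1 ⊢ with h2 h3 h3
      · linear_combination h1
      · linear_combination h1
      · linear_combination h1
      · linear_combination h1

theorem Met.gram_eq {z : Fin n → ℂ} (hz : z ∈ U) (κ : ℂ) (i : Fin n) :
    pdM i (gram0 g κ) z = sysA g κ i z * gram0 g κ z + gram0 g κ z * (sysA g κ i z)ᵀ := by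
  ext a b
  rw [Matrix.add_apply, Matrix.mul_apply, Matrix.mul_apply, Fin.sum_univ_succ, Fin.sum_univ_succ]
  simp only [Matrix.transpose_apply]
  refine Fin.cases ?_ (fun j => ?_) a
  · refine Fin.cases ?_ (fun l => ?_) b
    · change pd i (fun _ => (1:ℂ)) z = ((0:ℂ) * 1 + ∑ k, (if i = k then (1:ℂ) else 0) * 0) +
        (1 * 0 + ∑ k : Fin n, (0:ℂ) * (if i = k then (1:ℂ) else 0))
      rw [pd_const]
      simp
    · change pd i (fun _ => (0:ℂ)) z = ((0:ℂ) * 0 + ∑ k, (if i = k then (1:ℂ) else 0) *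
        (κ * g z k l)) + (1 * (-κ * g z i l) + ∑ k : Fin n, (0:ℂ) * Chr g k i l z)
      rw [pd_const]
      simp
  · refine Fin.cases ?_ (fun l => ?_) b
    · change pd i (fun _ => (0:ℂ)) z = ((-κ * g z i j) * 1 + ∑ k, Chr g k i j z * 0) +
        (0 * 0 + ∑ k, (κ * g z j k) * (if i = k then (1:ℂ) else 0))
      rw [pd_const]
      simp only [mul_ite, mul_one, mul_zero, Finset.sum_ite_eq, Finset.mem_univ, if_true,
        Finset.sum_const_zero]
      rw [hg.symm z hz i j]
      ring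
    · change pd i (fun z => κ * g z j l) z = ((-κ * g z i j) * 0 +
          ∑ k, Chr g k i j z * (κ * g z k l)) +
        (0 * (-κ * g z i l) + ∑ k, (κ * g z j k) * Chr g k i l z)
      rw [pd_const_mul (hg.an z hz j l).differentiableAt, hg.compat hz i j l]
      have e1 : ∑ k, Chr g k i j z * (κ * g z k l) = κ * ∑ p, g z l p * Chr g p i j z := by
        rw [Finset.mul_sum]
        refine Finset.sum_congr rfl (fun k _ => ?_)
        rw [hg.symm z hz k l]
        ring
      have e2 : ∑ k, (κ * g z j k) * Chr g k i l z = κ * ∑ p, g z j p * Chr g p i l z := by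
        rw [Finset.mul_sum]
        refine Finset.sum_congr rfl (fun k _ => ?_)
        ring
      rw [e1, e2]
      ring

end Facts

end Pool.Agent.LMT
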