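import Pool.Agent.LMT.M2

/-!
Existence and uniqueness of local isometries into the quadric (`κ ≠ 0`).
-/

set_option autoImplicit false

namespace Pool.Agent.LMT

open Set Filter Topology Matrix

variable {n : ℕ}

/-- A complex symmetric matrix is of the form `C Cᵀ`. -/
theorem exists_sq {N : ℕ} (S : Matrix (Fin N) (Fin N) ℂ) (hs : Sᵀ = S) :
    ∃ C : Matrix (Fin N) (Fin N) ℂ, C * Cᵀ = S := by
  classical
  let B : LinearMap.BilinForm ℂ (Fin N → ℂ) := Matrix.toBilin' S
  have hB : LinearMap.IsSymm B := by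
    refine ⟨fun x y => ?_⟩
    simp only [B, Matrix.toBilin'_apply', RingHom.id_apply]
    rw [Matrix.dotProduct_mulVec, ← Matrix.mulVec_transpose, hs, dotProduct_comm]
  obtain ⟨v, hv⟩ := LinearMap.BilinForm.exists_orthogonal_basis hB
  let v' : Module.Basis (Fin N) ℂ (Fin N → ℂ) := v.reindex (finCongr (Module.finrank_fin_fun ℂ))
  have hv' : ∀ i j, i ≠ j → B (v' i) (v' j) = 0 := by
    intro i j hij
    simp only [v', Module.Basis.reindex_apply]
    apply hv
    intro h
    exact hij ((finCongr (Module.finrank_fin_fun ℂ)).symm.injective h)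
  let P : Matrix (Fin N) (Fin N) ℂ := Matrix.of fun i j => v' j i
  have hP : IsUnit P.det := by
    have h1 := (Pi.basisFun ℂ (Fin N)).isUnit_det v'
    rw [Module.Basis.det_apply] at h1
    have h2 : (Pi.basisFun ℂ (Fin N)).toMatrix v' = P := by
      ext i j
      simp [Module.Basis.toMatrix_apply, P]
    rwa [h2] at h1
  let d : Fin N → ℂ := fun i => B (v' i) (v' i)
  have hD : Pᵀ * S * P = Matrix.diagonal d := by
    ext i j
    have h1 : (Pᵀ * S * P) i j = B (v' i) (v' j) := by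
      simp only [B, Matrix.toBilin'_apply']
      rw [Matrix.mul_assoc, Matrix.mul_apply]
      unfold dotProduct
      refine Finset.sum_congr rfl (fun k _ => ?_)
      rfl
    rw [h1, Matrix.diagonal_apply]
    split_ifs with h
    · subst h
      rfl
    · exact hv' i j h
  choose c hc using fun i => IsAlgClosed.exists_pow_nat_eq (d i) (two_pos)
  have hPi : P * P⁻¹ = 1 := Matrix.mul_nonsing_inv _ hP
  have hPi' : P⁻¹ * P = 1 := Matrix.nonsing_inv_mul _ hP
  have hPt : (P⁻¹)ᵀ * Pᵀ = 1 := by rw [← Matrix.transpose_mul, hPi, Matrix.transpose_one]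
  refine ⟨(P⁻¹)ᵀ * Matrix.diagonal c, ?_⟩
  have h1 : Matrix.diagonal c * Matrix.diagonal c = Matrix.diagonal d := by
    rw [Matrix.diagonal_mul_diagonal]
    congr 1
    funext i
    rw [← hc i, sq]
  calc (P⁻¹)ᵀ * Matrix.diagonal c * ((P⁻¹)ᵀ * Matrix.diagonal c)ᵀ
      = (P⁻¹)ᵀ * (Matrix.diagonal c * Matrix.diagonal c) * P⁻¹ := by
        rw [Matrix.transpose_mul, Matrix.transpose_transpose, Matrix.diagonal_transpose]
        noncomm_ring
    _ = ((P⁻¹)ᵀ * Pᵀ) * S * (P * P⁻¹) := by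
        rw [h1, ← hD]
        noncomm_ring
    _ = S := by rw [hPt, hPi, Matrix.one_mul, Matrix.mul_one]

/-- `f` is an isometric immersion of the metric `κ g` into the quadric, at `z`. -/
structure IsoAt (g : (Fin n → ℂ) → Matrix (Fin n) (Fin n) ℂ) (κ : ℂ)
    (f : (Fin n → ℂ) → (Fin (n + 1) → ℂ)) (z : Fin n → ℂ) : Prop where
  an : ∀ a, AnalyticAt ℂ (fun w => f w a) z
  quad : f z ⬝ᵥ f z = 1
  met : ∀ i j, ∑ a, pd i (fun w => f w a) z * pd j (fun w => f w a) z = κ * g z i j

/-- the frame of an immersion. -/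
noncomputable def frm (f : (Fin n → ℂ) → (Fin (n + 1) → ℂ)) (z : Fin n → ℂ) :
    Matrix (Fin (n + 1)) (Fin (n + 1)) ℂ :=
  Matrix.of (Fin.cases (f z) (fun i a => pd i (fun w => f w a) z))

theorem gram0_det {g : (Fin n → ℂ) → Matrix (Fin n) (Fin n) ℂ} {κ : ℂ} {z : Fin n → ℂ}
    (hκ : κ ≠ 0) (hd : (g z).det ≠ 0) : (gram0 g κ z).det ≠ 0 := by
  have h1 : (gram0 g κ z).det = (κ • g z).det := by
    rw [Matrix.det_succ_row_zero, Fin.sum_univ_succ]
    have h2 : ∀ i : Fin n, gram0 g κ z 0 i.succ = 0 := fun i => rfl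
    have h3 : gram0 g κ z 0 0 = 1 := rfl
    simp only [h2, h3, mul_zero, zero_mul, Finset.sum_const_zero, add_zero]
    have h4 : (gram0 g κ z).submatrix Fin.succ (Fin.succAbove 0) = κ • g z := by
      ext i j
      rfl
    rw [h4]
    simp
  rw [h1, Matrix.det_smul]
  exact mul_ne_zero (pow_ne_zero _ hκ) hd

theorem gram0_symm {g : (Fin n → ℂ) → Matrix (Fin n) (Fin n) ℂ} {κ : ℂ} {z : Fin n → ℂ}
    (hs : ∀ i j, g z i j = g z j i) : (gram0 g κ z)ᵀ = gram0 g κ z := by
  ext a b
  rw [Matrix.transpose_apply]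
  refine Fin.cases ?_ (fun j => ?_) a
  · refine Fin.cases ?_ (fun k => ?_) b
    · rfl
    · rfl
  · refine Fin.cases ?_ (fun k => ?_) b
    · rfl
    · change κ * g z k j = κ * g z j k
      rw [hs]

section Facts

variable {g : (Fin n → ℂ) → Matrix (Fin n) (Fin n) ℂ} {U : Set (Fin n → ℂ)} (hg : Met g U)
include hg

/-- Existence of local isometries. -/
theorem Met.exists_iso {κ : ℂ} (hκ : κ ≠ 0) (hc : ∀ z ∈ U, CurvAt g κ z) {z0 : Fin n → ℂ}
    (hz0 : z0 ∈ U) : ∃ f : (Fin n → ℂ) → (Fin (n + 1) → ℂ), ∀ᶠ z in 𝓝 z0, IsoAt g κ f z := by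
  have hU : ∀ᶠ z in 𝓝 z0, z ∈ U := hg.isOpen.mem_nhds hz0
  obtain ⟨Y, hY0, hYa, hYe⟩ := exists_frame (sysA g κ) z0
    (fun i a b => hg.analyticAt_sysA hz0 κ i a b) (by
      filter_upwards [hU] with z hz i j a b
      exact hg.flat hz κ (hc z hz) i j a b)
  have hYan : AnM Y z0 := hYa
  obtain ⟨C, hC⟩ := exists_sq (gram0 g κ z0) (gram0_symm (hg.symm z0 hz0))
  have hdet : ∀ᶠ z in 𝓝 z0, (Y z).det ≠ 0 := by
    have hc : ContinuousAt (fun w => (Y w).det) z0 := (analyticAt_det hYan).continuousAt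
    apply hc.eventually_ne
    rw [hY0, Matrix.det_one]
    exact one_ne_zero
  -- the transported Gram matrix is constant
  have hP : ∀ᶠ z in 𝓝 z0, (Y z)⁻¹ * gram0 g κ z * ((Y z)⁻¹)ᵀ =
      (Y z0)⁻¹ * gram0 g κ z0 * ((Y z0)⁻¹)ᵀ := by
    apply constM_of_pd (M := fun z => (Y z)⁻¹ * gram0 g κ z * ((Y z)⁻¹)ᵀ)
    filter_upwards [hU, hYan.eventually, hdet, hYe] with z hz hYz hdz hez
    have h1 : AnM (fun z => (Y z)⁻¹) z := hYz.inv hdz
    have h2 : AnM (fun z => (Y z)⁻¹ * gram0 g κ z) z := h1.mul (hg.analyticAt_gram0 hz κ)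
    refine ⟨(h2.mul h1.transpose).diff, fun i => ?_⟩
    rw [pdM_mul h2.diff h1.transpose.diff, pdM_mul h1.diff (hg.analyticAt_gram0 hz κ).diff,
      pdM_transpose, pdM_inv hYz hdz, hg.gram_eq hz]
    have h3 : pdM i Y z = sysA g κ i z * Y z := by
      ext a b
      exact hez i a b
    have h4 : Y z * (Y z)⁻¹ = 1 := Matrix.mul_nonsing_inv _ (isUnit_iff_ne_zero.mpr hdz)
    have h5 : (Y z)⁻¹ * pdM i Y z * (Y z)⁻¹ = (Y z)⁻¹ * sysA g κ i z := by
      rw [h3, Matrix.mul_assoc, Matrix.mul_assoc (sysA g κ i z), h4, Matrix.mul_one]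
    rw [h5, Matrix.transpose_neg, Matrix.transpose_mul]
    noncomm_ring
  refine ⟨fun z => (Y z * C) 0, ?_⟩
  have hF : ∀ᶠ z in 𝓝 z0, (Y z * C) * (Y z * C)ᵀ = gram0 g κ z := by
    filter_upwards [hP, hdet] with z hz hdz
    rw [hY0] at hz
    simp only [inv_one, Matrix.one_mul, Matrix.transpose_one, Matrix.mul_one] at hz
    have h4 : Y z * (Y z)⁻¹ = 1 := Matrix.mul_nonsing_inv _ (isUnit_iff_ne_zero.mpr hdz)
    have h5 : ((Y z)⁻¹)ᵀ * (Y z)ᵀ = 1 := by
      rw [← Matrix.transpose_mul, h4, Matrix.transpose_one]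
    calc (Y z * C) * (Y z * C)ᵀ = Y z * (C * Cᵀ) * (Y z)ᵀ := by
          rw [Matrix.transpose_mul]
          noncomm_ring
      _ = Y z * ((Y z)⁻¹ * gram0 g κ z * ((Y z)⁻¹)ᵀ) * (Y z)ᵀ := by rw [hC, hz]
      _ = (Y z * (Y z)⁻¹) * gram0 g κ z * (((Y z)⁻¹)ᵀ * (Y z)ᵀ) := by noncomm_ring
      _ = gram0 g κ z := by rw [h4, h5, Matrix.one_mul, Matrix.mul_one]
  filter_upwards [hF, hYan.eventually, hYe] with z hz hYz hez
  have hFan : AnM (fun z => Y z * C) z := hYz.mul (anM_const C z)
  have hpd : ∀ i a, pd i (fun w => (Y w * C) 0 a) z = (Y z * C) i.succ a := by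
    intro i a
    have h1 := pdM_mul hYz.diff (anM_const C z).diff i
    rw [pdM_const, Matrix.mul_zero, add_zero] at h1
    have h2 := congrFun (congrFun h1 0) a
    have h3 : pdM i Y z = sysA g κ i z * Y z := by
      ext a b
      exact hez i a b
    rw [h3, Matrix.mul_assoc] at h2
    change pd i (fun w => (Y w * C) 0 a) z = (sysA g κ i z * (Y z * C)) 0 a at h2
    rw [h2, Matrix.mul_apply, Fin.sum_univ_succ]
    change (0:ℂ) * _ + ∑ k, (if i = k then (1:ℂ) else 0) * (Y z * C) k.succ a = _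
    simp
  refine ⟨fun a => hFan 0 a, ?_, fun i j => ?_⟩
  · have h1 := congrFun (congrFun hz 0) 0
    rw [Matrix.mul_apply] at h1
    exact h1
  · have h1 := congrFun (congrFun hz i.succ) j.succ
    rw [Matrix.mul_apply] at h1
    change ∑ a, (Y z * C) i.succ a * (Y z * C) j.succ a = κ * g z i j at h1
    rw [← h1]
    refine Finset.sum_congr rfl (fun a _ => ?_)
    rw [hpd, hpd]

omit hg in
/-- orthogonality of the position vector. -/
theorem iso_orth {κ : ℂ} {f : (Fin n → ℂ) → (Fin (n + 1) → ℂ)} {z : Fin n → ℂ}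
    (h : ∀ᶠ w in 𝓝 z, IsoAt g κ f w) (i : Fin n) :
    ∑ a, f z a * pd i (fun w => f w a) z = 0 := by
  have h1 : pd i (fun w => f w ⬝ᵥ f w) z = 0 := by
    have h2 : (fun w => f w ⬝ᵥ f w) =ᶠ[𝓝 z] fun _ => 1 := by
      filter_upwards [h] with w hw
      exact hw.quad
    rw [pd_congr h2, pd_const]
  have hd : ∀ a, DifferentiableAt ℂ (fun w => f w a) z :=
    fun a => (h.self_of_nhds.an a).differentiableAt
  unfold dotProduct at h1
  rw [pd_sum _ (fun a _ => (hd a).fun_mul (hd a))] at h1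
  have h3 : ∑ a, pd i (fun w => f w a * f w a) z =
      2 * ∑ a, f z a * pd i (fun w => f w a) z := by
    rw [Finset.mul_sum]
    refine Finset.sum_congr rfl (fun a _ => ?_)
    rw [pd_mul (hd a) (hd a)]
    ring
  rw [h3] at h1
  simpa using h1

omit hg in
/-- Gram matrix of a frame. -/
theorem frm_gram {κ : ℂ} {f : (Fin n → ℂ) → (Fin (n + 1) → ℂ)} {z : Fin n → ℂ}
    (h : ∀ᶠ w in 𝓝 z, IsoAt g κ f w) : frm f z * (frm f z)ᵀ = gram0 g κ z := by
  have h0 := iso_orth h
  ext a b
  rw [Matrix.mul_apply]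
  refine Fin.cases ?_ (fun i => ?_) a
  · refine Fin.cases ?_ (fun j => ?_) b
    · exact h.self_of_nhds.quad
    · exact h0 j
  · refine Fin.cases ?_ (fun j => ?_) b
    · change ∑ a, pd i (fun w => f w a) z * f z a = 0
      rw [← h0 i]
      refine Finset.sum_congr rfl (fun a _ => mul_comm _ _)
    · exact h.self_of_nhds.met i j

/-- A frame solves the linear system. -/
theorem Met.frm_sys {κ : ℂ} (hκ : κ ≠ 0) {f : (Fin n → ℂ) → (Fin (n + 1) → ℂ)} {z : Fin n → ℂ}
    (hz : z ∈ U) (h : ∀ᶠ w in 𝓝 z, IsoAt g κ f w) (i : Fin n) :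
    pdM i (frm f) z = sysA g κ i z * frm f z := by
  have hev : ∀ᶠ w in 𝓝 z, ∀ᶠ w' in 𝓝 w, IsoAt g κ f w' := h.eventually_nhds
  have hev2 : ∀ᶠ w in 𝓝 z, w ∈ U := hg.isOpen.mem_nhds hz
  have han : ∀ a, AnalyticAt ℂ (fun w => f w a) z := h.self_of_nhds.an
  have hd : ∀ a, DifferentiableAt ℂ (fun w => f w a) z := fun a => (han a).differentiableAt
  have hpd : ∀ i a, DifferentiableAt ℂ (pd i (fun w => f w a)) z :=
    fun i a => (analyticAt_pd (han a) i).differentiableAt
  -- second derivatives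
  let T : Fin n → Fin n → Fin n → ℂ := fun i j l =>
    ∑ a, pd i (pd j (fun w => f w a)) z * pd l (fun w => f w a) z
  have hT1 : ∀ i j l, T i j l = T j i l := by
    intro i j l
    refine Finset.sum_congr rfl (fun a _ => ?_)
    rw [pd_comm (han a)]
  have hT2 : ∀ i j l, T i j l + T i l j = κ * pd i (fun w => g w j l) z := by
    intro i j l
    have h1 : (fun w => ∑ a, pd j (fun w => f w a) w * pd l (fun w => f w a) w) =ᶠ[𝓝 z]
        fun w => κ * g w j l := by
      filter_upwards [h] with w hw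
      exact hw.met j l
    have h2 := pd_congr h1 i
    rw [pd_sum _ (fun a _ => (hpd j a).fun_mul (hpd l a)),
      pd_const_mul (hg.an z hz j l).differentiableAt] at h2
    rw [← h2, ← Finset.sum_add_distrib]
    refine Finset.sum_congr rfl (fun a _ => ?_)
    rw [pd_mul (hpd j a) (hpd l a)]
    ring
  have hT3 : ∀ i j l, T i j l = κ * ∑ p, g z l p * Chr g p i j z := by
    intro i j l
    rw [hg.first hz]
    have e1 := hT2 i j l
    have e2 := hT2 j i l
    have e3 := hT2 l i j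
    have e4 := hT1 i j l
    have e5 := hT1 i l j
    have e6 := hT1 j l i
    linear_combination (1/2) * e1 + (1/2) * e2 - (1/2) * e3 + (1/2) * e4 + (-1/2) * e5 -
      (1/2) * e6
  have hS : ∀ j, ∑ a, f z a * pd i (pd j (fun w => f w a)) z = -κ * g z i j := by
    intro j
    have h1 : (fun w => ∑ a, f w a * pd j (fun w => f w a) w) =ᶠ[𝓝 z] fun _ => 0 := by
      filter_upwards [hev] with w hw
      exact iso_orth hw j
    have h2 := pd_congr h1 i
    rw [pd_sum _ (fun a _ => (hd a).fun_mul (hpd j a)), pd_const] at h2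
    have h3 : ∑ a, pd i (fun w => f w a * pd j (fun w => f w a) w) z =
        (∑ a, pd i (fun w => f w a) z * pd j (fun w => f w a) z) +
          ∑ a, f z a * pd i (pd j (fun w => f w a)) z := by
      rw [← Finset.sum_add_distrib]
      refine Finset.sum_congr rfl (fun a _ => ?_)
      rw [pd_mul (hd a) (hpd j a)]
    rw [h3, h.self_of_nhds.met i j] at h2
    linear_combination h2
  have horth := iso_orth h
  have hgram := frm_gram h
  have hdet : (frm f z).det ≠ 0 := by
    intro h0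
    have h1 := congrArg Matrix.det hgram
    rw [Matrix.det_mul, h0, zero_mul] at h1
    exact gram0_det hκ (hg.nd z hz) h1.symm
  ext a b
  rw [Matrix.mul_apply, Fin.sum_univ_succ]
  refine Fin.cases ?_ (fun j => ?_) a
  · change pd i (fun w => f w b) z = (0:ℂ) * f z b +
      ∑ k, (if i = k then (1:ℂ) else 0) * pd k (fun w => f w b) z
    simp
  · -- the defect vector
    let w : Fin (n + 1) → ℂ := fun b => pd i (pd j (fun w => f w b)) z -
      ∑ k, Chr g k i j z * pd k (fun w => f w b) z + κ * g z i j * f z b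
    have hw : frm f z *ᵥ w = 0 := by
      funext c
      refine Fin.cases ?_ (fun l => ?_) c
      · change ∑ b, f z b * (pd i (pd j (fun w => f w b)) z -
          ∑ k, Chr g k i j z * pd k (fun w => f w b) z + κ * g z i j * f z b) = 0
        have e1 : ∑ b, f z b * (pd i (pd j (fun w => f w b)) z -
            ∑ k, Chr g k i j z * pd k (fun w => f w b) z + κ * g z i j * f z b) =
            (∑ b, f z b * pd i (pd j (fun w => f w b)) z) -
            (∑ k, Chr g k i j z * ∑ b, f z b * pd k (fun w => f w b) z) +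
            κ * g z i j * ∑ b, f z b * f z b := by
          simp_rw [Finset.mul_sum]
          rw [Finset.sum_comm (f := fun k b => Chr g k i j z * (f z b * pd k (fun w => f w b) z)),
            ← Finset.sum_sub_distrib, ← Finset.sum_add_distrib]
          refine Finset.sum_congr rfl (fun b _ => ?_)
          rw [mul_add, mul_sub, Finset.mul_sum]
          congr 1
          · congr 1
            refine Finset.sum_congr rfl (fun k _ => ?_)
            ring
          · ring
        have e2 : ∑ b, f z b * f z b = 1 := h.self_of_nhds.quad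
        rw [e1, hS j, e2]
        simp only [horth, mul_zero, Finset.sum_const_zero]
        ring
      · change ∑ b, pd l (fun w => f w b) z * (pd i (pd j (fun w => f w b)) z -
          ∑ k, Chr g k i j z * pd k (fun w => f w b) z + κ * g z i j * f z b) = 0
        have e1 : ∑ b, pd l (fun w => f w b) z * (pd i (pd j (fun w => f w b)) z -
            ∑ k, Chr g k i j z * pd k (fun w => f w b) z + κ * g z i j * f z b) =
            T i j l -
            (∑ k, Chr g k i j z * ∑ b, pd l (fun w => f w b) z * pd k (fun w => f w b) z) +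
            κ * g z i j * ∑ b, f z b * pd l (fun w => f w b) z := by
          simp only [T]
          simp_rw [Finset.mul_sum]
          rw [Finset.sum_comm (f := fun k b => Chr g k i j z *
              (pd l (fun w => f w b) z * pd k (fun w => f w b) z)),
            ← Finset.sum_sub_distrib, ← Finset.sum_add_distrib]
          refine Finset.sum_congr rfl (fun b _ => ?_)
          rw [mul_add, mul_sub, Finset.mul_sum]
          congr 1
          · congr 1
            · ring
            · refine Finset.sum_congr rfl (fun k _ => ?_)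
              ring
          · ring
        have e2 : ∀ k, ∑ b, pd l (fun w => f w b) z * pd k (fun w => f w b) z = κ * g z l k :=
          fun k => h.self_of_nhds.met l k
        rw [e1, hT3, horth]
        simp_rw [e2]
        rw [mul_zero, add_zero, sub_eq_zero, Finset.mul_sum]
        refine Finset.sum_congr rfl (fun k _ => ?_)
        ring
    have hw0 : w = 0 := by
      have h1 := congrArg (fun v => (frm f z)⁻¹ *ᵥ v) hw
      simp only [Matrix.mulVec_mulVec, Matrix.mulVec_zero] at h1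
      rwa [Matrix.nonsing_inv_mul _ (isUnit_iff_ne_zero.mpr hdet), Matrix.one_mulVec] at h1
    have h1 := congrFun hw0 b
    change pd i (pd j (fun w => f w b)) z -
      ∑ k, Chr g k i j z * pd k (fun w => f w b) z + κ * g z i j * f z b = 0 at h1
    change pd i (pd j (fun w => f w b)) z = (-κ * g z i j) * f z b +
      ∑ k, Chr g k i j z * pd k (fun w => f w b) z
    linear_combination h1

/-- Uniqueness of local isometries. -/
theorem Met.iso_unique {κ : ℂ} (hκ : κ ≠ 0) {f f' : (Fin n → ℂ) → (Fin (n + 1) → ℂ)}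
    {z0 : Fin n → ℂ} (hz0 : z0 ∈ U) (h : ∀ᶠ w in 𝓝 z0, IsoAt g κ f w)
    (h' : ∀ᶠ w in 𝓝 z0, IsoAt g κ f' w) :
    ∃ A : Matrix (Fin (n + 1)) (Fin (n + 1)) ℂ, Aᵀ * A = 1 ∧ ∀ᶠ z in 𝓝 z0, f' z = A *ᵥ f z := by
  have han : ∀ (f : (Fin n → ℂ) → (Fin (n + 1) → ℂ)) (z : Fin n → ℂ), IsoAt g κ f z →
      AnM (frm f) z := by
    intro f z h a b
    refine Fin.cases ?_ (fun j => ?_) a
    · exact h.an b
    · exact analyticAt_pd (h.an b) j
  have hU : ∀ᶠ z in 𝓝 z0, z ∈ U := hg.isOpen.mem_nhds hz0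
  have hdet : ∀ (f : (Fin n → ℂ) → (Fin (n + 1) → ℂ)) (z : Fin n → ℂ), z ∈ U →
      (∀ᶠ w in 𝓝 z, IsoAt g κ f w) → (frm f z).det ≠ 0 := by
    intro f z hz h h0
    have h1 := congrArg Matrix.det (frm_gram h)
    rw [Matrix.det_mul, h0, zero_mul] at h1
    exact gram0_det hκ (hg.nd z hz) h1.symm
  have hconst := constM_of_pd (M := fun z => (frm f z)⁻¹ * frm f' z) (z0 := z0) (by
    filter_upwards [hU, h.eventually_nhds, h'.eventually_nhds] with z hz hf hf'
    have h1 : AnM (frm f) z := han f z hf.self_of_nhds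
    have h2 : AnM (frm f') z := han f' z hf'.self_of_nhds
    have h3 := hdet f z hz hf
    have h4 : frm f z * (frm f z)⁻¹ = 1 := Matrix.mul_nonsing_inv _ (isUnit_iff_ne_zero.mpr h3)
    refine ⟨((h1.inv h3).mul h2).diff, fun i => ?_⟩
    rw [pdM_mul (h1.inv h3).diff h2.diff, pdM_inv h1 h3, hg.frm_sys hκ hz hf, hg.frm_sys hκ hz hf']
    have h5 : (frm f z)⁻¹ * (sysA g κ i z * frm f z) * (frm f z)⁻¹ =
        (frm f z)⁻¹ * sysA g κ i z := by
      rw [Matrix.mul_assoc, Matrix.mul_assoc (sysA g κ i z), h4, Matrix.mul_one]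
    rw [h5]
    noncomm_ring)
  set O := (frm f z0)⁻¹ * frm f' z0 with hO
  have hd0 := hdet f z0 hz0 h
  have hF0 : frm f' z0 = frm f z0 * O := by
    rw [hO, ← Matrix.mul_assoc, Matrix.mul_nonsing_inv _ (isUnit_iff_ne_zero.mpr hd0),
      Matrix.one_mul]
  have hOO : O * Oᵀ = 1 := by
    have h1 := frm_gram h'
    rw [hF0, Matrix.transpose_mul, ← frm_gram h] at h1
    have h2 := congrArg (fun X => (frm f z0)⁻¹ * X * ((frm f z0)⁻¹)ᵀ) h1
    have h3 : (frm f z0)⁻¹ * frm f z0 = 1 := Matrix.nonsing_inv_mul _ (isUnit_iff_ne_zero.mpr hd0)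
    have h4 : (frm f z0)ᵀ * ((frm f z0)⁻¹)ᵀ = 1 := by
      rw [← Matrix.transpose_mul, h3, Matrix.transpose_one]
    have h5 : (frm f z0)⁻¹ * (frm f z0 * O * (Oᵀ * (frm f z0)ᵀ)) * ((frm f z0)⁻¹)ᵀ =
        ((frm f z0)⁻¹ * frm f z0) * (O * Oᵀ) * ((frm f z0)ᵀ * ((frm f z0)⁻¹)ᵀ) := by
      noncomm_ring
    have h6 : (frm f z0)⁻¹ * (frm f z0 * (frm f z0)ᵀ) * ((frm f z0)⁻¹)ᵀ =
        ((frm f z0)⁻¹ * frm f z0) * ((frm f z0)ᵀ * ((frm f z0)⁻¹)ᵀ) := by
      noncomm_ring
    simp only [h5, h6, h3, h4, Matrix.one_mul, Matrix.mul_one] at h2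
    exact h2
  refine ⟨Oᵀ, ?_, ?_⟩
  · rw [Matrix.transpose_transpose]
    exact hOO
  · filter_upwards [hconst, hU, h.eventually_nhds] with z hz hzU hf
    have hdz := hdet f z hzU hf
    have h1 : frm f' z = frm f z * O := by
      rw [← hz, ← Matrix.mul_assoc, Matrix.mul_nonsing_inv _ (isUnit_iff_ne_zero.mpr hdz),
        Matrix.one_mul]
    funext a
    have h2 := congrFun (congrFun h1 0) a
    change f' z a = (frm f z * O) 0 a at h2
    rw [h2, Matrix.mul_apply]
    unfold Matrix.mulVec dotProduct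
    refine Finset.sum_congr rfl (fun b _ => ?_)
    change frm f z 0 b * O b a = O b a * frm f z 0 b
    ring

end Facts

end Pool.Agent.LMT
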