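import Pool.Agent.LMT.M3

/-!
A local isometry into the quadric is a local homeomorphism.
-/

set_option autoImplicit false

namespace Pool.Agent.LMT

open Set Filter Topology Matrix

variable {n : ℕ}

/-- The quadric `z · z = 1` in `ℂ^(n+1)`. -/
abbrev Qd (n : ℕ) := {z : Fin (n + 1) → ℂ // z ⬝ᵥ z = 1}

section Facts

variable {g : (Fin n → ℂ) → Matrix (Fin n) (Fin n) ℂ} {U : Set (Fin n → ℂ)} (hg : Met g U)
include hg

theorem Met.frm_det {κ : ℂ} (hκ : κ ≠ 0) {f : (Fin n → ℂ) → (Fin (n + 1) → ℂ)} {z : Fin n → ℂ}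
    (hz : z ∈ U) (h : ∀ᶠ w in 𝓝 z, IsoAt g κ f w) : (frm f z).det ≠ 0 := by
  intro h0
  have h1 := congrArg Matrix.det (frm_gram h)
  rw [Matrix.det_mul, h0, zero_mul] at h1
  exact gram0_det hκ (hg.nd z hz) h1.symm

/-- The suspended immersion is a local homeomorphism. -/
theorem Met.exists_susp {κ : ℂ} (hκ : κ ≠ 0) {f : (Fin n → ℂ) → (Fin (n + 1) → ℂ)}
    {z0 : Fin n → ℂ} (hz0 : z0 ∈ U) (h : ∀ᶠ w in 𝓝 z0, IsoAt g κ f w) :
    ∃ θ : OpenPartialHomeomorph ((Fin n → ℂ) × ℂ) (Fin (n + 1) → ℂ),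
      (z0, 0) ∈ θ.source ∧ ∀ p, θ p = (1 + p.2) • f p.1 := by
  have hf : AnalyticAt ℂ f z0 := by
    rw [analyticAt_pi_iff]
    exact h.self_of_nhds.an
  have hΦ : AnalyticAt ℂ (fun p : (Fin n → ℂ) × ℂ => (1 + p.2) • f p.1) (z0, 0) := by
    have h1 : AnalyticAt ℂ (fun p : (Fin n → ℂ) × ℂ => f p.1) (z0, 0) :=
      AnalyticAt.comp (f := fun p : (Fin n → ℂ) × ℂ => p.1) hf analyticAt_fst
    have h2 : AnalyticAt ℂ (fun p : (Fin n → ℂ) × ℂ => 1 + p.2) (z0, 0) :=
      analyticAt_const.fun_add analyticAt_snd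
    exact h2.fun_smul h1
  -- the derivative
  let L : ((Fin n → ℂ) × ℂ) →L[ℂ] (Fin (n + 1) → ℂ) :=
    (fderiv ℂ f z0).comp (ContinuousLinearMap.fst ℂ (Fin n → ℂ) ℂ) +
      (ContinuousLinearMap.snd ℂ (Fin n → ℂ) ℂ).smulRight (f z0)
  have hL : HasStrictFDerivAt (fun p : (Fin n → ℂ) × ℂ => (1 + p.2) • f p.1) L (z0, 0) := by
    have h1 := hΦ.hasStrictFDerivAt
    have h2 : HasFDerivAt (fun p : (Fin n → ℂ) × ℂ => (1 + p.2) • f p.1) L (z0, 0) := by
      have e1 : HasFDerivAt (fun p : (Fin n → ℂ) × ℂ => f p.1)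
          ((fderiv ℂ f z0).comp (ContinuousLinearMap.fst ℂ (Fin n → ℂ) ℂ)) (z0, 0) :=
        hf.differentiableAt.hasFDerivAt.comp (z0, (0:ℂ)) hasFDerivAt_fst
      have e2 : HasFDerivAt (fun p : (Fin n → ℂ) × ℂ => 1 + p.2)
          (ContinuousLinearMap.snd ℂ (Fin n → ℂ) ℂ) (z0, 0) := hasFDerivAt_snd.const_add 1
      have e3 := e2.fun_smul e1
      have e4 : L = (1 + (z0, (0:ℂ)).2) • ((fderiv ℂ f z0).comp
          (ContinuousLinearMap.fst ℂ (Fin n → ℂ) ℂ)) +
          (ContinuousLinearMap.snd ℂ (Fin n → ℂ) ℂ).smulRight (f (z0, (0:ℂ)).1) := by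
        simp [L]
      rw [e4]
      exact e3
    rw [h2.fderiv] at h1
    exact h1
  have hinj : Function.Injective L := by
    rw [injective_iff_map_eq_zero]
    rintro ⟨u, s⟩ hus
    have hd := hg.frm_det hκ hz0 h
    let c : Fin (n + 1) → ℂ := Fin.cases s u
    have h1 : (frm f z0)ᵀ *ᵥ c = 0 := by
      funext a
      unfold Matrix.mulVec dotProduct
      rw [Fin.sum_univ_succ]
      have h2 := congrFun hus a
      change (fderiv ℂ f z0 u + s • f z0) a = 0 at h2
      rw [Pi.add_apply, Pi.smul_apply, smul_eq_mul] at h2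
      have h3 : fderiv ℂ f z0 u a = ∑ j, u j * pd j (fun w => f w a) z0 := by
        rw [← fderiv_eq_sum]
        have h4 : HasFDerivAt (fun w => f w a)
            ((ContinuousLinearMap.proj (R := ℂ) (φ := fun _ : Fin (n + 1) => ℂ) a).comp
              (fderiv ℂ f z0)) z0 :=
          (ContinuousLinearMap.proj (R := ℂ) (φ := fun _ : Fin (n + 1) => ℂ) a).hasFDerivAt.comp
            z0 hf.differentiableAt.hasFDerivAt
        rw [h4.fderiv]
        rfl
      rw [h3] at h2
      change f z0 a * s + ∑ j : Fin n, pd j (fun w => f w a) z0 * u j = 0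
      rw [← h2, add_comm]
      congr 1
      · refine Finset.sum_congr rfl (fun j _ => mul_comm _ _)
      · ring
    have h2 := congrArg (fun v => ((frm f z0)ᵀ)⁻¹ *ᵥ v) h1
    simp only [Matrix.mulVec_mulVec, Matrix.mulVec_zero] at h2
    rw [Matrix.nonsing_inv_mul _ (isUnit_iff_ne_zero.mpr (by rw [Matrix.det_transpose]; exact hd)),
      Matrix.one_mulVec] at h2
    have h3 : s = 0 := congrFun h2 0
    have h4 : u = 0 := by
      funext j
      exact congrFun h2 j.succ
    rw [h3, h4]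
    rfl
  have hdim : Module.finrank ℂ ((Fin n → ℂ) × ℂ) = Module.finrank ℂ (Fin (n + 1) → ℂ) := by
    simp
  let e : ((Fin n → ℂ) × ℂ) ≃ₗ[ℂ] (Fin (n + 1) → ℂ) :=
    LinearMap.linearEquivOfInjective (L : ((Fin n → ℂ) × ℂ) →ₗ[ℂ] (Fin (n + 1) → ℂ))
      hinj hdim
  let E : ((Fin n → ℂ) × ℂ) ≃L[ℂ] (Fin (n + 1) → ℂ) := e.toContinuousLinearEquiv
  have hE : (E : ((Fin n → ℂ) × ℂ) →L[ℂ] (Fin (n + 1) → ℂ)) = L := by
    ext x
    · rfl
    · rfl
  rw [← hE] at hL
  exact ⟨hL.toOpenPartialHomeomorph _, hL.mem_toOpenPartialHomeomorph_source, fun p => rfl⟩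

/-- A local isometry into the quadric is a local homeomorphism. -/
theorem Met.exists_chart {κ : ℂ} (hκ : κ ≠ 0) {f : (Fin n → ℂ) → (Fin (n + 1) → ℂ)}
    {z0 : Fin n → ℂ} (hz0 : z0 ∈ U) (h : ∀ᶠ w in 𝓝 z0, IsoAt g κ f w) :
    ∃ e : OpenPartialHomeomorph (Fin n → ℂ) (Qd n), z0 ∈ e.source ∧ e.source ⊆ U ∧
      ∀ z ∈ e.source, IsoAt g κ f z ∧ (e z : Fin (n + 1) → ℂ) = f z := by
  classical
  obtain ⟨θ, hθ0, hθ⟩ := hg.exists_susp hκ hz0 h
  obtain ⟨N, hN, hNo, hzN⟩ := eventually_nhds_iff.mp h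
  let S : Set ((Fin n → ℂ) × ℂ) := (N ∩ U) ×ˢ Metric.ball 0 1
  have hSo : IsOpen S := (hNo.inter hg.isOpen).prod Metric.isOpen_ball
  let θ' := θ.restrOpen S hSo
  have hsrc : θ'.source = θ.source ∩ S := rfl
  have hθ' : ∀ p, θ' p = (1 + p.2) • f p.1 := hθ
  let q0 : Qd n := ⟨Pi.single 0 1, by simp⟩
  let F : (Fin n → ℂ) → Qd n := fun z => if hz : f z ⬝ᵥ f z = 1 then ⟨f z, hz⟩ else q0
  have hF : ∀ z ∈ N, (F z : Fin (n + 1) → ℂ) = f z := by
    intro z hz
    have := (hN z hz).quad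
    simp only [F, dif_pos this]
  -- the inverse lies in the slice
  have hinv : ∀ w : Qd n, (w : Fin (n + 1) → ℂ) ∈ θ'.target →
      (θ'.symm w).2 = 0 ∧ ((θ'.symm w).1, (0:ℂ)) ∈ θ'.source ∧
        f (θ'.symm w).1 = w := by
    intro w hw
    have h1 : θ'.symm w ∈ θ'.source := θ'.map_target hw
    have h2 : θ' (θ'.symm w) = w := θ'.right_inv hw
    rw [hθ'] at h2
    set p := θ'.symm (w : Fin (n + 1) → ℂ) with hp
    have h3 : p.1 ∈ N := h1.2.1.1
    have h4 : p.2 ∈ Metric.ball (0:ℂ) 1 := h1.2.2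
    have h5 := w.2
    rw [← h2, smul_dotProduct, dotProduct_smul, (hN _ h3).quad, smul_eq_mul, smul_eq_mul,
      mul_one] at h5
    have h6 : p.2 * (p.2 + 2) = 0 := by linear_combination h5
    have h7 : p.2 + 2 ≠ 0 := by
      intro h8
      have h9 : p.2 = -2 := by linear_combination h8
      rw [h9, mem_ball_zero_iff] at h4
      norm_num at h4
    have h8 : p.2 = 0 := (mul_eq_zero.mp h6).resolve_right h7
    refine ⟨h8, ?_, ?_⟩
    · have h9 : (p.1, (0:ℂ)) = p := by rw [← h8]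
      rw [h9]
      exact h1
    · rw [h8, add_zero, one_smul] at h2
      exact h2
  let e : OpenPartialHomeomorph (Fin n → ℂ) (Qd n) :=
    { toFun := F
      invFun := fun w => (θ'.symm w).1
      source := {z | (z, (0:ℂ)) ∈ θ'.source}
      target := {w | (w : Fin (n + 1) → ℂ) ∈ θ'.target}
      map_source' := by
        intro z hz
        have hz' : (z, (0:ℂ)) ∈ θ'.source := hz
        have hzN : z ∈ N := hz'.2.1.1
        have h1 := θ'.map_source hz'
        rw [hθ'] at h1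
        simp only [add_zero, one_smul] at h1
        change (F z : Fin (n + 1) → ℂ) ∈ θ'.target
        rw [hF z hzN]
        exact h1
      map_target' := by
        intro w hw
        exact (hinv w hw).2.1
      left_inv' := by
        intro z hz
        have hz' : (z, (0:ℂ)) ∈ θ'.source := hz
        have hzN : z ∈ N := hz'.2.1.1
        have h1 := θ'.left_inv hz'
        rw [hθ'] at h1
        simp only [add_zero, one_smul] at h1
        change (θ'.symm (F z : Fin (n + 1) → ℂ)).1 = z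
        rw [hF z hzN, h1]
      right_inv' := by
        intro w hw
        apply Subtype.ext
        have h1 := hinv w hw
        rw [hF _ h1.2.1.2.1.1]
        exact h1.2.2
      open_source := by
        exact θ'.open_source.preimage (by fun_prop : Continuous fun z : Fin n → ℂ => (z, (0:ℂ)))
      open_target := θ'.open_target.preimage continuous_subtype_val
      continuousOn_toFun := by
        refine (Topology.IsInducing.continuousOn_iff (g := ((↑) : Qd n → Fin (n + 1) → ℂ))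
          Topology.IsInducing.subtypeVal).mpr ?_
        have h1 : ContinuousOn f {z | (z, (0:ℂ)) ∈ θ'.source} := by
          intro z hz
          have hz' : (z, (0:ℂ)) ∈ θ'.source := hz
          have hzN : z ∈ N := hz'.2.1.1
          have h2 : AnalyticAt ℂ f z := by
            rw [analyticAt_pi_iff]
            exact (hN z hzN).an
          exact h2.continuousAt.continuousWithinAt
        refine h1.congr (fun z hz => ?_)
        have hz' : (z, (0:ℂ)) ∈ θ'.source := hz
        exact hF z hz'.2.1.1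
      continuousOn_invFun := by
        have h1 : ContinuousOn (fun w : Qd n => θ'.symm (w : Fin (n + 1) → ℂ))
            {w | (w : Fin (n + 1) → ℂ) ∈ θ'.target} :=
          θ'.continuousOn_symm.comp continuous_subtype_val.continuousOn (fun w hw => hw)
        exact continuous_fst.comp_continuousOn h1 }
  refine ⟨e, ?_, ?_, ?_⟩
  · exact ⟨hθ0, ⟨hzN, hz0⟩, Metric.mem_ball_self one_pos⟩
  · intro z hz
    have hz' : (z, (0:ℂ)) ∈ θ'.source := hz
    exact hz'.2.1.2
  · intro z hz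
    have hz' : (z, (0:ℂ)) ∈ θ'.source := hz
    exact ⟨hN z hz'.2.1.1, hF z hz'.2.1.1⟩

end Facts

end Pool.Agent.LMT
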