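import Pool.Agent.LMT.M3

/-!
Local flat coordinates of a metric with vanishing curvature.
-/

set_option autoImplicit false

namespace Pool.Agent.LMT

open Set Filter Topology Matrix

variable {n : ℕ}

/-- `f` is a local isometry of the metric `g` into flat space, at `z`. -/
structure IsoF (g : (Fin n → ℂ) → Matrix (Fin n) (Fin n) ℂ)
    (f : (Fin n → ℂ) → (Fin n → ℂ)) (z : Fin n → ℂ) : Prop where
  an : ∀ a, AnalyticAt ℂ (fun w => f w a) z
  met : ∀ i j, ∑ a, pd i (fun w => f w a) z * pd j (fun w => f w a) z = g z i j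

/-- closed forms have local primitives. -/
theorem exists_primitive (F : Fin n → (Fin n → ℂ) → ℂ) (z0 : Fin n → ℂ)
    (hF : ∀ i, AnalyticAt ℂ (F i) z0) (hc : ∀ᶠ z in 𝓝 z0, ∀ i j, pd i (F j) z = pd j (F i) z) :
    ∃ f : (Fin n → ℂ) → ℂ, AnalyticAt ℂ f z0 ∧ ∀ᶠ z in 𝓝 z0, ∀ i, pd i f z = F i z := by
  obtain ⟨Y, hY0, hYa, hYe⟩ := exists_frame (N := 2)
    (fun i z => !![0, F i z; 0, 0]) z0
    (by
      intro i a b
      fin_cases a <;> fin_cases b
      · exact analyticAt_const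
      · exact hF i
      · exact analyticAt_const
      · exact analyticAt_const)
    (by
      filter_upwards [hc] with z hz i j a b
      have h1 : ∀ i j : Fin n, (!![0, F j z; 0, 0] * !![0, F i z; 0, 0] :
          Matrix (Fin 2) (Fin 2) ℂ) = 0 := by
        intro i j
        ext a b
        fin_cases a <;> fin_cases b <;> simp [Matrix.mul_apply, Fin.sum_univ_two]
      rw [h1, h1]
      congr 1
      fin_cases a <;> fin_cases b
      · change pd i (fun _ => (0:ℂ)) z = pd j (fun _ => (0:ℂ)) z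
        rw [pd_const, pd_const]
      · exact hz i j
      · change pd i (fun _ => (0:ℂ)) z = pd j (fun _ => (0:ℂ)) z
        rw [pd_const, pd_const]
      · change pd i (fun _ => (0:ℂ)) z = pd j (fun _ => (0:ℂ)) z
        rw [pd_const, pd_const])
  have hone : ∀ᶠ z in 𝓝 z0, Y z 1 1 = 1 := by
    have h1 : ∀ᶠ z in 𝓝 z0, Y z 1 1 = Y z0 1 1 := by
      apply const_of_pd
      filter_upwards [(hYa 1 1).eventually_analyticAt, hYe] with z hz hez
      refine ⟨hz.differentiableAt, fun i => ?_⟩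
      rw [hez i 1 1]
      simp [Matrix.mul_apply, Fin.sum_univ_two]
    rw [hY0] at h1
    exact h1
  refine ⟨fun z => Y z 0 1, hYa 0 1, ?_⟩
  filter_upwards [hone, hYe] with z hz hez i
  rw [hez i 0 1]
  simp [Matrix.mul_apply, Fin.sum_univ_two, hz]

/-- the matrices of the connection. -/
noncomputable def conA (g : (Fin n → ℂ) → Matrix (Fin n) (Fin n) ℂ) (i : Fin n)
    (z : Fin n → ℂ) : Matrix (Fin n) (Fin n) ℂ := Matrix.of fun j k => Chr g k i j z

/-- the Jacobian frame -/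
noncomputable def jac (f : (Fin n → ℂ) → (Fin n → ℂ)) (z : Fin n → ℂ) :
    Matrix (Fin n) (Fin n) ℂ :=
  Matrix.of fun i a => pd i (fun w => f w a) z

section Facts

variable {g : (Fin n → ℂ) → Matrix (Fin n) (Fin n) ℂ} {U : Set (Fin n → ℂ)} (hg : Met g U)
include hg

theorem Met.analyticAt_conA {z : Fin n → ℂ} (hz : z ∈ U) (i : Fin n) : AnM (conA g i) z :=
  fun j k => hg.analyticAt_Chr hz k i j

theorem Met.flat0 {z : Fin n → ℂ} (hz : z ∈ U) (hc : CurvAt g 0 z) (i j : Fin n)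
    (m l : Fin n) :
    pd i (fun z => conA g j z m l) z + (conA g j z * conA g i z) m l =
      pd j (fun z => conA g i z m l) z + (conA g i z * conA g j z) m l := by
  rw [Matrix.mul_apply, Matrix.mul_apply]
  change pd i (Chr g l j m) z + ∑ k, Chr g k j m z * Chr g l i k z =
    pd j (Chr g l i m) z + ∑ k, Chr g k i m z * Chr g l j k z
  have h1 := hc l m i j
  unfold Riem at h1
  rw [Finset.sum_sub_distrib, zero_mul] at h1
  have e1 : ∀ i j : Fin n, ∑ k, Chr g k j m z * Chr g l i k z =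
      ∑ p, Chr g l i p z * Chr g p j m z := by
    intro i j
    refine Finset.sum_congr rfl (fun k _ => ?_)
    ring
  rw [e1, e1]
  linear_combination h1

theorem Met.met_eq {z : Fin n → ℂ} (hz : z ∈ U) (i : Fin n) :
    pdM i g z = conA g i z * g z + g z * (conA g i z)ᵀ := by
  ext j l
  rw [Matrix.add_apply, Matrix.mul_apply, Matrix.mul_apply]
  change pd i (fun z => g z j l) z = ∑ k, Chr g k i j z * g z k l + ∑ k, g z j k * Chr g k i l z
  rw [hg.compat hz i j l]
  congr 1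
  refine Finset.sum_congr rfl (fun k _ => ?_)
  rw [hg.symm z hz k l]
  ring

theorem Met.exists_isoF (hc : ∀ z ∈ U, CurvAt g 0 z) {z0 : Fin n → ℂ} (hz0 : z0 ∈ U) :
    ∃ f : (Fin n → ℂ) → (Fin n → ℂ), ∀ᶠ z in 𝓝 z0, IsoF g f z := by
  have hU : ∀ᶠ z in 𝓝 z0, z ∈ U := hg.isOpen.mem_nhds hz0
  have hgan : ∀ z ∈ U, AnM g z := fun z hz i j => hg.an z hz i j
  obtain ⟨Y, hY0, hYa, hYe⟩ := exists_frame (conA g) z0
    (fun i a b => hg.analyticAt_conA hz0 i a b) (by
      filter_upwards [hU] with z hz i j a b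
      exact hg.flat0 hz (hc z hz) i j a b)
  have hYan : AnM Y z0 := hYa
  have hgs : (g z0)ᵀ = g z0 := by
    ext i j
    exact hg.symm z0 hz0 j i
  obtain ⟨C, hC⟩ := exists_sq (g z0) hgs
  have hdet : ∀ᶠ z in 𝓝 z0, (Y z).det ≠ 0 := by
    have hc : ContinuousAt (fun w => (Y w).det) z0 := (analyticAt_det hYan).continuousAt
    apply hc.eventually_ne
    rw [hY0, Matrix.det_one]
    exact one_ne_zero
  have hP : ∀ᶠ z in 𝓝 z0, (Y z)⁻¹ * g z * ((Y z)⁻¹)ᵀ =
      (Y z0)⁻¹ * g z0 * ((Y z0)⁻¹)ᵀ := by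
    apply constM_of_pd (M := fun z => (Y z)⁻¹ * g z * ((Y z)⁻¹)ᵀ)
    filter_upwards [hU, hYan.eventually, hdet, hYe] with z hz hYz hdz hez
    have h1 : AnM (fun z => (Y z)⁻¹) z := hYz.inv hdz
    have h2 : AnM (fun z => (Y z)⁻¹ * g z) z := h1.mul (hgan z hz)
    refine ⟨(h2.mul h1.transpose).diff, fun i => ?_⟩
    rw [pdM_mul h2.diff h1.transpose.diff, pdM_mul h1.diff (hgan z hz).diff,
      pdM_transpose, pdM_inv hYz hdz, hg.met_eq hz]
    have h3 : pdM i Y z = conA g i z * Y z := by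
      ext a b
      exact hez i a b
    have h4 : Y z * (Y z)⁻¹ = 1 := Matrix.mul_nonsing_inv _ (isUnit_iff_ne_zero.mpr hdz)
    have h5 : (Y z)⁻¹ * pdM i Y z * (Y z)⁻¹ = (Y z)⁻¹ * conA g i z := by
      rw [h3, Matrix.mul_assoc, Matrix.mul_assoc (conA g i z), h4, Matrix.mul_one]
    rw [h5, Matrix.transpose_neg, Matrix.transpose_mul]
    noncomm_ring
  have hF : ∀ᶠ z in 𝓝 z0, (Y z * C) * (Y z * C)ᵀ = g z := by
    filter_upwards [hP, hdet] with z hz hdz
    rw [hY0] at hz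
    simp only [inv_one, Matrix.one_mul, Matrix.transpose_one, Matrix.mul_one] at hz
    have h4 : Y z * (Y z)⁻¹ = 1 := Matrix.mul_nonsing_inv _ (isUnit_iff_ne_zero.mpr hdz)
    have h5 : ((Y z)⁻¹)ᵀ * (Y z)ᵀ = 1 := by
      rw [← Matrix.transpose_mul, h4, Matrix.transpose_one]
    calc (Y z * C) * (Y z * C)ᵀ = Y z * (C * Cᵀ) * (Y z)ᵀ := by
          rw [Matrix.transpose_mul]
          noncomm_ring
      _ = Y z * ((Y z)⁻¹ * g z * ((Y z)⁻¹)ᵀ) * (Y z)ᵀ := by rw [hC, hz]
      _ = (Y z * (Y z)⁻¹) * g z * (((Y z)⁻¹)ᵀ * (Y z)ᵀ) := by noncomm_ring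
      _ = g z := by rw [h4, h5, Matrix.one_mul, Matrix.mul_one]
  have hFan : AnM (fun z => Y z * C) z0 := hYan.mul (anM_const C z0)
  have hpd : ∀ᶠ z in 𝓝 z0, ∀ i j a, pd i (fun w => (Y w * C) j a) z =
      ∑ k, Chr g k i j z * (Y z * C) k a := by
    filter_upwards [hYan.eventually, hYe] with z hYz hez i j a
    have h1 := pdM_mul hYz.diff (anM_const C z).diff i
    rw [pdM_const, Matrix.mul_zero, add_zero] at h1
    have h2 := congrFun (congrFun h1 j) a
    have h3 : pdM i Y z = conA g i z * Y z := by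
      ext a b
      exact hez i a b
    rw [h3, Matrix.mul_assoc] at h2
    change pd i (fun w => (Y w * C) j a) z = (conA g i z * (Y z * C)) j a at h2
    rw [h2, Matrix.mul_apply]
    rfl
  have hprim : ∀ a, ∃ f : (Fin n → ℂ) → ℂ, AnalyticAt ℂ f z0 ∧
      ∀ᶠ z in 𝓝 z0, ∀ i, pd i f z = (Y z * C) i a := by
    intro a
    apply exists_primitive (fun i z => (Y z * C) i a) z0 (fun i => hFan i a)
    filter_upwards [hpd, hU] with z hz hzU i j
    rw [hz i j a, hz j i a]
    refine Finset.sum_congr rfl (fun k _ => ?_)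
    rw [hg.Chr_symm hzU k i j]
  choose f hfa hfe using hprim
  refine ⟨fun z a => f a z, ?_⟩
  have h1 : ∀ᶠ z in 𝓝 z0, ∀ a, AnalyticAt ℂ (f a) z := by
    rw [eventually_all]
    exact fun a => (hfa a).eventually_analyticAt
  have h2 : ∀ᶠ z in 𝓝 z0, ∀ a i, pd i (f a) z = (Y z * C) i a := by
    rw [eventually_all]
    exact hfe
  filter_upwards [h1, h2, hF] with z hz1 hz2 hz3
  refine ⟨hz1, fun i j => ?_⟩
  have h4 := congrFun (congrFun hz3 i) j
  rw [Matrix.mul_apply] at h4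
  rw [← h4]
  refine Finset.sum_congr rfl (fun a _ => ?_)
  change pd i (f a) z * pd j (f a) z = (Y z * C) i a * (Y z * C) j a
  rw [hz2, hz2]

omit hg in
theorem jac_gram {f : (Fin n → ℂ) → (Fin n → ℂ)} {z : Fin n → ℂ} (h : IsoF g f z) :
    jac f z * (jac f z)ᵀ = g z := by
  ext i j
  rw [Matrix.mul_apply]
  exact h.met i j

theorem Met.jac_det {f : (Fin n → ℂ) → (Fin n → ℂ)} {z : Fin n → ℂ} (hz : z ∈ U)
    (h : IsoF g f z) : (jac f z).det ≠ 0 := by
  intro h0
  have h1 := congrArg Matrix.det (jac_gram h)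
  rw [Matrix.det_mul, h0, zero_mul] at h1
  exact hg.nd z hz h1.symm

/-- The Jacobian of a local isometry solves the linear system. -/
theorem Met.jac_sys {f : (Fin n → ℂ) → (Fin n → ℂ)} {z : Fin n → ℂ}
    (hz : z ∈ U) (h : ∀ᶠ w in 𝓝 z, IsoF g f w) (i : Fin n) :
    pdM i (jac f) z = conA g i z * jac f z := by
  have han : ∀ a, AnalyticAt ℂ (fun w => f w a) z := h.self_of_nhds.an
  have hpd : ∀ i a, DifferentiableAt ℂ (pd i (fun w => f w a)) z :=
    fun i a => (analyticAt_pd (han a) i).differentiableAt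
  let T : Fin n → Fin n → Fin n → ℂ := fun i j l =>
    ∑ a, pd i (pd j (fun w => f w a)) z * pd l (fun w => f w a) z
  have hT1 : ∀ i j l, T i j l = T j i l := by
    intro i j l
    refine Finset.sum_congr rfl (fun a _ => ?_)
    rw [pd_comm (han a)]
  have hT2 : ∀ i j l, T i j l + T i l j = pd i (fun w => g w j l) z := by
    intro i j l
    have h1 : (fun w => ∑ a, pd j (fun w => f w a) w * pd l (fun w => f w a) w) =ᶠ[𝓝 z]
        fun w => g w j l := by
      filter_upwards [h] with w hw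
      exact hw.met j l
    have h2 := pd_congr h1 i
    rw [pd_sum _ (fun a _ => (hpd j a).fun_mul (hpd l a))] at h2
    rw [← h2, ← Finset.sum_add_distrib]
    refine Finset.sum_congr rfl (fun a _ => ?_)
    rw [pd_mul (hpd j a) (hpd l a)]
    ring
  have hT3 : ∀ i j l, T i j l = ∑ p, g z l p * Chr g p i j z := by
    intro i j l
    rw [hg.first hz]
    have e1 := hT2 i j l
    have e2 := hT2 j i l
    have e3 := hT2 l i j
    have e4 := hT1 i j l
    have e5 := hT1 i l j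
    have e6 := hT1 j l i
    linear_combination (1/2) * e1 + (1/2) * e2 - (1/2) * e3 + (1/2) * e4 + (-1/2) * e5 -
      (1/2) * e6
  have hdet := hg.jac_det hz h.self_of_nhds
  ext j b
  rw [Matrix.mul_apply]
  let w : Fin n → ℂ := fun b => pd i (pd j (fun w => f w b)) z -
    ∑ k, Chr g k i j z * pd k (fun w => f w b) z
  have hw : jac f z *ᵥ w = 0 := by
    funext l
    change ∑ b, pd l (fun w => f w b) z * (pd i (pd j (fun w => f w b)) z -
        ∑ k, Chr g k i j z * pd k (fun w => f w b) z) = 0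
    have e1 : ∑ b, pd l (fun w => f w b) z * (pd i (pd j (fun w => f w b)) z -
        ∑ k, Chr g k i j z * pd k (fun w => f w b) z) =
        T i j l -
        (∑ k, Chr g k i j z * ∑ b, pd l (fun w => f w b) z * pd k (fun w => f w b) z) := by
      simp only [T]
      simp_rw [Finset.mul_sum]
      rw [Finset.sum_comm (f := fun k b => Chr g k i j z *
          (pd l (fun w => f w b) z * pd k (fun w => f w b) z)), ← Finset.sum_sub_distrib]
      refine Finset.sum_congr rfl (fun b _ => ?_)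
      rw [mul_sub, Finset.mul_sum]
      congr 1
      · ring
      · refine Finset.sum_congr rfl (fun k _ => ?_)
        ring
    have e2 : ∀ k, ∑ b, pd l (fun w => f w b) z * pd k (fun w => f w b) z = g z l k :=
      fun k => h.self_of_nhds.met l k
    rw [e1, hT3]
    simp_rw [e2]
    rw [sub_eq_zero]
    refine Finset.sum_congr rfl (fun k _ => ?_)
    ring
  have hw0 : w = 0 := by
    have h1 := congrArg (fun v => (jac f z)⁻¹ *ᵥ v) hw
    simp only [Matrix.mulVec_mulVec, Matrix.mulVec_zero] at h1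
    rwa [Matrix.nonsing_inv_mul _ (isUnit_iff_ne_zero.mpr hdet), Matrix.one_mulVec] at h1
  have h1 := congrFun hw0 b
  change pd i (pd j (fun w => f w b)) z -
    ∑ k, Chr g k i j z * pd k (fun w => f w b) z = 0 at h1
  change pd i (pd j (fun w => f w b)) z = ∑ k, Chr g k i j z * pd k (fun w => f w b) z
  linear_combination h1

/-- Uniqueness of local isometries into flat space. -/
theorem Met.isoF_unique {f f' : (Fin n → ℂ) → (Fin n → ℂ)}
    {z0 : Fin n → ℂ} (hz0 : z0 ∈ U) (h : ∀ᶠ w in 𝓝 z0, IsoF g f w)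
    (h' : ∀ᶠ w in 𝓝 z0, IsoF g f' w) :
    ∃ (A : Matrix (Fin n) (Fin n) ℂ) (b : Fin n → ℂ), Aᵀ * A = 1 ∧
      ∀ᶠ z in 𝓝 z0, f' z = A *ᵥ f z + b := by
  have han : ∀ (f : (Fin n → ℂ) → (Fin n → ℂ)) (z : Fin n → ℂ), IsoF g f z →
      AnM (jac f) z := fun f z h i a => analyticAt_pd (h.an a) i
  have hU : ∀ᶠ z in 𝓝 z0, z ∈ U := hg.isOpen.mem_nhds hz0
  have hconst := constM_of_pd (M := fun z => (jac f z)⁻¹ * jac f' z) (z0 := z0) (by
    filter_upwards [hU, h.eventually_nhds, h'.eventually_nhds] with z hz hf hf'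
    have h1 : AnM (jac f) z := han f z hf.self_of_nhds
    have h2 : AnM (jac f') z := han f' z hf'.self_of_nhds
    have h3 := hg.jac_det hz hf.self_of_nhds
    have h4 : jac f z * (jac f z)⁻¹ = 1 := Matrix.mul_nonsing_inv _ (isUnit_iff_ne_zero.mpr h3)
    refine ⟨((h1.inv h3).mul h2).diff, fun i => ?_⟩
    rw [pdM_mul (h1.inv h3).diff h2.diff, pdM_inv h1 h3, hg.jac_sys hz hf, hg.jac_sys hz hf']
    have h5 : (jac f z)⁻¹ * (conA g i z * jac f z) * (jac f z)⁻¹ =
        (jac f z)⁻¹ * conA g i z := by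
      rw [Matrix.mul_assoc, Matrix.mul_assoc (conA g i z), h4, Matrix.mul_one]
    rw [h5]
    noncomm_ring)
  set O := (jac f z0)⁻¹ * jac f' z0 with hO
  have hd0 := hg.jac_det hz0 h.self_of_nhds
  have hF0 : jac f' z0 = jac f z0 * O := by
    rw [hO, ← Matrix.mul_assoc, Matrix.mul_nonsing_inv _ (isUnit_iff_ne_zero.mpr hd0),
      Matrix.one_mul]
  have hOO : O * Oᵀ = 1 := by
    have h1 := jac_gram h'.self_of_nhds
    rw [hF0, Matrix.transpose_mul, ← jac_gram h.self_of_nhds] at h1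
    have h2 := congrArg (fun X => (jac f z0)⁻¹ * X * ((jac f z0)⁻¹)ᵀ) h1
    have h3 : (jac f z0)⁻¹ * jac f z0 = 1 := Matrix.nonsing_inv_mul _ (isUnit_iff_ne_zero.mpr hd0)
    have h4 : (jac f z0)ᵀ * ((jac f z0)⁻¹)ᵀ = 1 := by
      rw [← Matrix.transpose_mul, h3, Matrix.transpose_one]
    have h5 : (jac f z0)⁻¹ * (jac f z0 * O * (Oᵀ * (jac f z0)ᵀ)) * ((jac f z0)⁻¹)ᵀ =
        ((jac f z0)⁻¹ * jac f z0) * (O * Oᵀ) * ((jac f z0)ᵀ * ((jac f z0)⁻¹)ᵀ) := by
      noncomm_ring
    have h6 : (jac f z0)⁻¹ * (jac f z0 * (jac f z0)ᵀ) * ((jac f z0)⁻¹)ᵀ =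
        ((jac f z0)⁻¹ * jac f z0) * ((jac f z0)ᵀ * ((jac f z0)⁻¹)ᵀ) := by
      noncomm_ring
    simp only [h5, h6, h3, h4, Matrix.one_mul, Matrix.mul_one] at h2
    exact h2
  have hJ : ∀ᶠ z in 𝓝 z0, jac f' z = jac f z * O := by
    filter_upwards [hconst, hU, h] with z hz hzU hf
    have hdz := hg.jac_det hzU hf
    rw [← hz, ← Matrix.mul_assoc, Matrix.mul_nonsing_inv _ (isUnit_iff_ne_zero.mpr hdz),
        Matrix.one_mul]
  have hdiff : ∀ᶠ z in 𝓝 z0, ∀ a, f' z a - (Oᵀ *ᵥ f z) a = f' z0 a - (Oᵀ *ᵥ f z0) a := by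
    rw [eventually_all]
    intro a
    apply const_of_pd (f := fun z => f' z a - (Oᵀ *ᵥ f z) a)
    filter_upwards [hJ, h, h'] with z hz hf hf'
    have hd1 : DifferentiableAt ℂ (fun w => f' w a) z := (hf'.an a).differentiableAt
    have hd2 : ∀ b, DifferentiableAt ℂ (fun w => f w b) z := fun b => (hf.an b).differentiableAt
    have hd3 : DifferentiableAt ℂ (fun w => (Oᵀ *ᵥ f w) a) z := by
      unfold Matrix.mulVec dotProduct
      exact DifferentiableAt.fun_sum (fun b _ => (differentiableAt_const _).fun_mul (hd2 b))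
    refine ⟨hd1.fun_sub hd3, fun i => ?_⟩
    rw [pd_sub hd1 hd3]
    have h1 : pd i (fun w => (Oᵀ *ᵥ f w) a) z = ∑ b, O b a * pd i (fun w => f w b) z := by
      unfold Matrix.mulVec dotProduct
      rw [pd_sum _ (fun b _ => (differentiableAt_const _).fun_mul (hd2 b))]
      refine Finset.sum_congr rfl (fun b _ => ?_)
      rw [pd_const_mul (hd2 b)]
      rfl
    have h2 := congrFun (congrFun hz i) a
    rw [Matrix.mul_apply] at h2
    change pd i (fun w => f' w a) z = ∑ b, pd i (fun w => f w b) z * O b a at h2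
    rw [h1, h2, ← Finset.sum_sub_distrib]
    apply Finset.sum_eq_zero
    intro b _
    ring
  refine ⟨Oᵀ, f' z0 - Oᵀ *ᵥ f z0, ?_, ?_⟩
  · rw [Matrix.transpose_transpose]
    exact hOO
  · filter_upwards [hdiff] with z hz
    funext a
    have h1 := hz a
    rw [Pi.add_apply, Pi.sub_apply]
    linear_combination h1

/-- A local isometry into flat space is a local homeomorphism. -/
theorem Met.exists_chartF {f : (Fin n → ℂ) → (Fin n → ℂ)}
    {z0 : Fin n → ℂ} (hz0 : z0 ∈ U) (h : ∀ᶠ w in 𝓝 z0, IsoF g f w) :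
    ∃ e : OpenPartialHomeomorph (Fin n → ℂ) (Fin n → ℂ), z0 ∈ e.source ∧ e.source ⊆ U ∧
      ∀ z ∈ e.source, IsoF g f z ∧ e z = f z := by
  obtain ⟨N, hN, hNo, hzN⟩ := eventually_nhds_iff.mp h
  have hf : AnalyticAt ℂ f z0 := by
    rw [analyticAt_pi_iff]
    exact h.self_of_nhds.an
  have hL := hf.hasStrictFDerivAt
  have hinj : Function.Injective (fderiv ℂ f z0) := by
    rw [injective_iff_map_eq_zero]
    intro u hu
    have hd := hg.jac_det hz0 h.self_of_nhds
    have h1 : (jac f z0)ᵀ *ᵥ u = 0 := by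
      funext a
      unfold Matrix.mulVec dotProduct
      have h2 := congrFun hu a
      have h3 : fderiv ℂ f z0 u a = ∑ j, u j * pd j (fun w => f w a) z0 := by
        rw [← fderiv_eq_sum]
        have h4 : HasFDerivAt (fun w => f w a)
            ((ContinuousLinearMap.proj (R := ℂ) (φ := fun _ : Fin n => ℂ) a).comp
              (fderiv ℂ f z0)) z0 :=
          (ContinuousLinearMap.proj (R := ℂ) (φ := fun _ : Fin n => ℂ) a).hasFDerivAt.comp
            z0 hf.differentiableAt.hasFDerivAt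
        rw [h4.fderiv]
        rfl
      rw [h3] at h2
      change ∑ j : Fin n, pd j (fun w => f w a) z0 * u j = 0
      rw [← show ∑ j, u j * pd j (fun w => f w a) z0 = 0 from h2]
      refine Finset.sum_congr rfl (fun j _ => mul_comm _ _)
    have h2 := congrArg (fun v => ((jac f z0)ᵀ)⁻¹ *ᵥ v) h1
    simp only [Matrix.mulVec_mulVec, Matrix.mulVec_zero] at h2
    rwa [Matrix.nonsing_inv_mul _ (isUnit_iff_ne_zero.mpr (by rw [Matrix.det_transpose]; exact hd)),
      Matrix.one_mulVec] at h2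
  let e : (Fin n → ℂ) ≃ₗ[ℂ] (Fin n → ℂ) :=
    LinearMap.linearEquivOfInjective (fderiv ℂ f z0 : (Fin n → ℂ) →ₗ[ℂ] (Fin n → ℂ)) hinj rfl
  let E : (Fin n → ℂ) ≃L[ℂ] (Fin n → ℂ) := e.toContinuousLinearEquiv
  have hE : (E : (Fin n → ℂ) →L[ℂ] (Fin n → ℂ)) = fderiv ℂ f z0 := by
    ext x
    rfl
  rw [← hE] at hL
  let θ := (hL.toOpenPartialHomeomorph f).restrOpen (N ∩ U) (hNo.inter hg.isOpen)
  refine ⟨θ, ⟨hL.mem_toOpenPartialHomeomorph_source, hzN, hz0⟩, fun z hz => hz.2.2, ?_⟩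
  intro z hz
  exact ⟨hN z hz.2.1, rfl⟩

end Facts

end Pool.Agent.LMT
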