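import Pool.Agent.LMT.M3

/-!
Constant sectional curvature determines the curvature tensor.
-/

set_option autoImplicit false

namespace Pool.Agent.LMT

open Set Filter Topology Matrix

variable {n : ℕ}

section Algebra

/-- the multilinear form with coefficients `D`. -/
noncomputable def MF (D : Fin n → Fin n → Fin n → Fin n → ℂ) (X Y Z W : Fin n → ℂ) : ℂ :=
  ∑ p, ∑ k, ∑ i, ∑ j, D p k i j * X p * Y k * Z i * W j

variable (D : Fin n → Fin n → Fin n → Fin n → ℂ)

theorem MF_add1 (X X' Y Z W : Fin n → ℂ) :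
    MF D (X + X') Y Z W = MF D X Y Z W + MF D X' Y Z W := by
  simp only [MF, Pi.add_apply, mul_add, add_mul, Finset.sum_add_distrib]

theorem MF_add2 (X Y Y' Z W : Fin n → ℂ) :
    MF D X (Y + Y') Z W = MF D X Y Z W + MF D X Y' Z W := by
  simp only [MF, Pi.add_apply, mul_add, add_mul, Finset.sum_add_distrib]

theorem MF_add3 (X Y Z Z' W : Fin n → ℂ) :
    MF D X Y (Z + Z') W = MF D X Y Z W + MF D X Y Z' W := by
  simp only [MF, Pi.add_apply, mul_add, add_mul, Finset.sum_add_distrib]

theorem MF_add4 (X Y Z W W' : Fin n → ℂ) :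
    MF D X Y Z (W + W') = MF D X Y Z W + MF D X Y Z W' := by
  simp only [MF, Pi.add_apply, mul_add, Finset.sum_add_distrib]

theorem MF_smul1 (c : ℂ) (X Y Z W : Fin n → ℂ) : MF D (c • X) Y Z W = c * MF D X Y Z W := by
  simp only [MF, Pi.smul_apply, smul_eq_mul, Finset.mul_sum]
  refine Finset.sum_congr rfl (fun p _ => Finset.sum_congr rfl (fun k _ =>
    Finset.sum_congr rfl (fun i _ => Finset.sum_congr rfl (fun j _ => ?_))))
  ring

theorem MF_smul2 (c : ℂ) (X Y Z W : Fin n → ℂ) : MF D X (c • Y) Z W = c * MF D X Y Z W := by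
  simp only [MF, Pi.smul_apply, smul_eq_mul, Finset.mul_sum]
  refine Finset.sum_congr rfl (fun p _ => Finset.sum_congr rfl (fun k _ =>
    Finset.sum_congr rfl (fun i _ => Finset.sum_congr rfl (fun j _ => ?_))))
  ring

theorem MF_smul3 (c : ℂ) (X Y Z W : Fin n → ℂ) : MF D X Y (c • Z) W = c * MF D X Y Z W := by
  simp only [MF, Pi.smul_apply, smul_eq_mul, Finset.mul_sum]
  refine Finset.sum_congr rfl (fun p _ => Finset.sum_congr rfl (fun k _ =>
    Finset.sum_congr rfl (fun i _ => Finset.sum_congr rfl (fun j _ => ?_))))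
  ring

theorem MF_smul4 (c : ℂ) (X Y Z W : Fin n → ℂ) : MF D X Y Z (c • W) = c * MF D X Y Z W := by
  simp only [MF, Pi.smul_apply, smul_eq_mul, Finset.mul_sum]
  refine Finset.sum_congr rfl (fun p _ => Finset.sum_congr rfl (fun k _ =>
    Finset.sum_congr rfl (fun i _ => Finset.sum_congr rfl (fun j _ => ?_))))
  ring

theorem MF_single (p k i j : Fin n) :
    MF D (Pi.single p 1) (Pi.single k 1) (Pi.single i 1) (Pi.single j 1) = D p k i j := by
  unfold MF
  rw [Finset.sum_eq_single p, Finset.sum_eq_single k, Finset.sum_eq_single i,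
    Finset.sum_eq_single j]
  · simp
  · intro b _ hb; simp [hb]
  · simp
  · intro b _ hb; simp [hb]
  · simp
  · intro b _ hb; simp [hb]
  · simp
  · intro b _ hb; simp [hb]
  · simp

theorem MF_pair (h : ∀ p k i j, D p k i j = D i j p k) (X Y Z W : Fin n → ℂ) :
    MF D X Y Z W = MF D Z W X Y := by
  unfold MF
  calc ∑ p, ∑ k, ∑ i, ∑ j, D p k i j * X p * Y k * Z i * W j
      = ∑ p, ∑ i, ∑ k, ∑ j, D p k i j * X p * Y k * Z i * W j :=
        Finset.sum_congr rfl (fun p _ => Finset.sum_comm)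
    _ = ∑ i, ∑ p, ∑ k, ∑ j, D p k i j * X p * Y k * Z i * W j := Finset.sum_comm
    _ = ∑ i, ∑ p, ∑ j, ∑ k, D p k i j * X p * Y k * Z i * W j :=
        Finset.sum_congr rfl (fun i _ => Finset.sum_congr rfl (fun p _ => Finset.sum_comm))
    _ = ∑ i, ∑ j, ∑ p, ∑ k, D p k i j * X p * Y k * Z i * W j :=
        Finset.sum_congr rfl (fun i _ => Finset.sum_comm)
    _ = _ := by
        refine Finset.sum_congr rfl (fun i _ => Finset.sum_congr rfl (fun j _ =>
          Finset.sum_congr rfl (fun p _ => Finset.sum_congr rfl (fun k _ => ?_))))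
        rw [h p k i j]
        ring

/-- A curvature-like tensor with vanishing sectional curvatures is zero. -/
theorem eq_zero_of_sec (s1 : ∀ p k i j, D p k i j = -D p k j i)
    (s2 : ∀ p k i j, D p k i j + D p i j k + D p j k i = 0)
    (s3 : ∀ p k i j, D p k i j = -D k p i j)
    (h : ∀ X Y : Fin n → ℂ, MF D X Y X Y = 0) (p k i j : Fin n) : D p k i j = 0 := by
  have hpair : ∀ p k i j, D p k i j = D i j p k := by
    intro p k i j
    have E1 := s2 p k i j
    have E2 := s2 k i j p
    have E3 := s2 i j p k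
    have E4 := s2 j p k i
    have a1 := s1 k i j p
    have a2 := s3 k j p i
    have a3 := s3 k p i j
    have a4 := s3 i p k j
    have a5 := s1 p i k j
    have a6 := s3 i k j p
    have a7 := s3 j p k i
    have a8 := s1 j k i p
    have a9 := s3 j i p k
    linear_combination (1/2) * E1 - (1/2) * E2 - (1/2) * E3 + (1/2) * E4 + (1/2) * a1 +
      (1/2) * a2 + (1/2) * a3 + (1/2) * a4 - (1/2) * a5 + (1/2) * a6 - (1/2) * a1 -
      (1/2) * a7 - (1/2) * a8 - (1/2) * a9
  have h1 : ∀ X Y Z : Fin n → ℂ, MF D X Y Z Y = 0 := by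
    intro X Y Z
    have e1 := h (X + Z) Y
    rw [MF_add1, MF_add3, MF_add3, h X Y, h Z Y, MF_pair D hpair Z Y X Y] at e1
    have e2 : 2 * MF D X Y Z Y = 0 := by linear_combination e1
    exact (mul_eq_zero.mp e2).resolve_left two_ne_zero
  have h2 : ∀ p k i j, D p k i j + D p j i k = 0 := by
    intro p k i j
    have e1 := h1 (Pi.single p 1) (Pi.single k 1 + Pi.single j 1) (Pi.single i 1)
    rw [MF_add2, MF_add4, MF_add4, h1, h1, MF_single, MF_single] at e1
    linear_combination e1
  have e1 := h2 p k i j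
  have e2 := s1 p j i k
  have e3 := h2 p j k i
  have e4 := s1 p i k j
  have e5 := s2 p k i j
  have e6 : 3 * D p k i j = 0 := by
    linear_combination e5 + 2 * e1 - 2 * e2 + e3 - e4
  exact (mul_eq_zero.mp e6).resolve_left three_ne_zero

/-- polynomial identities in one variable: the leading coefficient of a polynomial of degree four
which vanishes near `0` is zero. -/
theorem coeff4_zero {c0 c1 c2 c3 c4 : ℂ}
    (h : ∀ᶠ t : ℂ in 𝓝 0, c0 + c1 * t + c2 * t ^ 2 + c3 * t ^ 3 + c4 * t ^ 4 = 0) : c4 = 0 := by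
  let P : Polynomial ℂ := Polynomial.C c0 + Polynomial.C c1 * Polynomial.X +
    Polynomial.C c2 * Polynomial.X ^ 2 + Polynomial.C c3 * Polynomial.X ^ 3 +
    Polynomial.C c4 * Polynomial.X ^ 4
  have hP : P = 0 := by
    apply Polynomial.eq_zero_of_infinite_isRoot
    have h1 : {t : ℂ | c0 + c1 * t + c2 * t ^ 2 + c3 * t ^ 3 + c4 * t ^ 4 = 0} ∈ 𝓝 (0:ℂ) := h
    have h2 := infinite_of_mem_nhds (0:ℂ) h1
    refine h2.mono (fun t ht => ?_)
    change Polynomial.eval t P = 0
    simp only [P, Polynomial.eval_add, Polynomial.eval_mul,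
      Polynomial.eval_C, Polynomial.eval_X, Polynomial.eval_pow]
    exact ht
  have h1 : P.coeff 4 = c4 := by
    simp [P]
  rw [← h1, hP, Polynomial.coeff_zero]

end Algebra

theorem quad1 (a b : Fin n → Fin n → ℂ) : (∑ p, ∑ i, a p i) * (∑ j, ∑ k, b j k) =
    ∑ p, ∑ k, ∑ i, ∑ j, a p i * b j k := by
  rw [Finset.sum_mul]
  refine Finset.sum_congr rfl (fun p _ => ?_)
  rw [Finset.sum_comm (f := fun k i => ∑ j, a p i * b j k), Finset.sum_mul]
  refine Finset.sum_congr rfl (fun i _ => ?_)
  rw [Finset.sum_comm (f := fun k j => a p i * b j k), Finset.mul_sum]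
  refine Finset.sum_congr rfl (fun j _ => ?_)
  rw [Finset.mul_sum]

theorem quad2 (a b : Fin n → Fin n → ℂ) : (∑ p, ∑ j, a p j) * (∑ i, ∑ k, b i k) =
    ∑ p, ∑ k, ∑ i, ∑ j, a p j * b i k := by
  rw [Finset.sum_mul]
  refine Finset.sum_congr rfl (fun p _ => ?_)
  rw [Finset.sum_comm (f := fun k i => ∑ j, a p j * b i k), Finset.mul_sum]
  refine Finset.sum_congr rfl (fun i _ => ?_)
  rw [Finset.mul_sum]
  refine Finset.sum_congr rfl (fun k _ => ?_)
  rw [Finset.sum_mul]

/-- the bilinear form of a matrix -/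
noncomputable def bil (S : Matrix (Fin n) (Fin n) ℂ) (X Y : Fin n → ℂ) : ℂ := X ⬝ᵥ (S *ᵥ Y)

theorem bil_add_smul (S : Matrix (Fin n) (Fin n) ℂ) (X X' Y Y' : Fin n → ℂ) (t : ℂ) :
    bil S (X + t • X') (Y + t • Y') =
      bil S X Y + t * (bil S X Y' + bil S X' Y) + t ^ 2 * bil S X' Y' := by
  simp only [bil, Matrix.mulVec_add, Matrix.mulVec_smul, dotProduct_add, add_dotProduct,
    dotProduct_smul, smul_dotProduct, smul_eq_mul]
  ring

/-- `g` has sectional curvature `κ` at `z` on every nondegenerate plane: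
`g(R(X,Y)Y,X) = κ (g(X,X) g(Y,Y) - g(X,Y)^2)` if the right hand factor is not zero. -/
def SecAt (g : (Fin n → ℂ) → Matrix (Fin n) (Fin n) ℂ) (κ : ℂ) (z : Fin n → ℂ) : Prop :=
  ∀ X Y : Fin n → ℂ, bil (g z) X X * bil (g z) Y Y - bil (g z) X Y ^ 2 ≠ 0 →
    bil (g z) (fun l => ∑ i, ∑ j, ∑ k, Riem g l k i j z * X i * Y j * Y k) X =
      κ * (bil (g z) X X * bil (g z) Y Y - bil (g z) X Y ^ 2)

/-- the lowered curvature tensor -/
noncomputable def Low (g : (Fin n → ℂ) → Matrix (Fin n) (Fin n) ℂ) (z : Fin n → ℂ)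
    (p k i j : Fin n) : ℂ := ∑ l, g z p l * Riem g l k i j z

/-- the defect tensor -/
noncomputable def Dft (g : (Fin n → ℂ) → Matrix (Fin n) (Fin n) ℂ) (κ : ℂ) (z : Fin n → ℂ)
    (p k i j : Fin n) : ℂ := Low g z p k i j - κ * (g z p i * g z j k - g z p j * g z i k)

section Facts

variable {g : (Fin n → ℂ) → Matrix (Fin n) (Fin n) ℂ} {U : Set (Fin n → ℂ)}

theorem Riem_s1 (l k i j : Fin n) (z : Fin n → ℂ) : Riem g l k i j z = -Riem g l k j i z := by
  unfold Riem
  rw [Finset.sum_sub_distrib, Finset.sum_sub_distrib]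
  ring

variable (hg : Met g U)
include hg

theorem Met.Riem_s2 {z : Fin n → ℂ} (hz : z ∈ U) (l k i j : Fin n) :
    Riem g l k i j z + Riem g l i j k z + Riem g l j k i z = 0 := by
  have hs : ∀ a b c d : Fin n, pd a (Chr g b c d) z = pd a (Chr g b d c) z := by
    intro a b c d
    apply pd_congr
    filter_upwards [hg.isOpen.mem_nhds hz] with w hw
    exact hg.Chr_symm hw b c d
  have hc : ∀ b c d : Fin n, Chr g b c d z = Chr g b d c z := fun b c d => hg.Chr_symm hz b c d
  unfold Riem
  rw [Finset.sum_sub_distrib, Finset.sum_sub_distrib, Finset.sum_sub_distrib]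
  have e1 : ∑ p, Chr g l i p z * Chr g p k j z = ∑ p, Chr g l i p z * Chr g p j k z :=
    Finset.sum_congr rfl (fun p _ => by rw [hc p k j])
  have e2 : ∑ p, Chr g l j p z * Chr g p k i z = ∑ p, Chr g l j p z * Chr g p i k z :=
    Finset.sum_congr rfl (fun p _ => by rw [hc p k i])
  have e3 : ∑ p, Chr g l k p z * Chr g p j i z = ∑ p, Chr g l k p z * Chr g p i j z :=
    Finset.sum_congr rfl (fun p _ => by rw [hc p j i])
  rw [e1, e2, e3, hs i l k j, hs j l k i, hs k l j i]
  ring

/-- antisymmetry in the first pair. -/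
theorem Met.Low_s3 {z : Fin n → ℂ} (hz : z ∈ U) (l k i j : Fin n) :
    Low g z l k i j = -Low g z k l i j := by
  have hU : ∀ᶠ w in 𝓝 z, w ∈ U := hg.isOpen.mem_nhds hz
  have hgd : ∀ a b, DifferentiableAt ℂ (fun w => g w a b) z :=
    fun a b => (hg.an z hz a b).differentiableAt
  have hCd : ∀ a b c, DifferentiableAt ℂ (Chr g a b c) z :=
    fun a b c => (hg.analyticAt_Chr hz a b c).differentiableAt
  -- second derivatives of the metric
  have hdd : ∀ i j, pd i (pd j (fun w => g w k l)) z =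
      ∑ m, (pd i (fun w => g w l m) z * Chr g m j k z + g z l m * pd i (Chr g m j k) z) +
      ∑ m, (pd i (fun w => g w k m) z * Chr g m j l z + g z k m * pd i (Chr g m j l) z) := by
    intro i j
    have h1 : pd j (fun w => g w k l) =ᶠ[𝓝 z]
        fun w => ∑ m, g w l m * Chr g m j k w + ∑ m, g w k m * Chr g m j l w := by
      filter_upwards [hU] with w hw
      exact hg.compat hw j k l
    rw [pd_congr h1, pd_add, pd_sum, pd_sum]
    · congr 1
      · refine Finset.sum_congr rfl (fun m _ => ?_)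
        exact pd_mul (hgd l m) (hCd m j k) i
      · refine Finset.sum_congr rfl (fun m _ => ?_)
        exact pd_mul (hgd k m) (hCd m j l) i
    · exact fun m _ => (hgd k m).fun_mul (hCd m j l)
    · exact fun m _ => (hgd l m).fun_mul (hCd m j k)
    · exact DifferentiableAt.fun_sum (fun m _ => (hgd l m).fun_mul (hCd m j k))
    · exact DifferentiableAt.fun_sum (fun m _ => (hgd k m).fun_mul (hCd m j l))
  have hcomm := pd_comm (hg.an z hz k l) i j
  rw [hdd, hdd] at hcomm
  -- the quadratic terms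
  let Q : Fin n → Fin n → Fin n → Fin n → ℂ := fun i l j k =>
    ∑ m, (∑ p, g z m p * Chr g p i l z) * Chr g m j k z
  have hQ : ∀ i l j k, Q i l j k = Q j k i l := by
    intro i l j k
    simp only [Q, Finset.sum_mul]
    rw [Finset.sum_comm]
    refine Finset.sum_congr rfl (fun m _ => Finset.sum_congr rfl (fun p _ => ?_))
    rw [hg.symm z hz p m]
    ring
  have hR : ∀ l k i j : Fin n, ∑ m, pd i (fun w => g w l m) z * Chr g m j k z =
      Q i l j k + ∑ m, g z l m * ∑ p, Chr g m i p z * Chr g p j k z := by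
    intro l k i j
    have h1 : ∀ m, pd i (fun w => g w l m) z * Chr g m j k z =
        (∑ p, g z m p * Chr g p i l z) * Chr g m j k z +
        ∑ p, g z l p * (Chr g p i m z * Chr g m j k z) := by
      intro m
      rw [hg.compat hz i l m, add_mul, Finset.sum_mul (f := fun p => g z l p * Chr g p i m z)]
      congr 1
      refine Finset.sum_congr rfl (fun p _ => ?_)
      ring
    rw [Finset.sum_congr rfl (fun m _ => h1 m), Finset.sum_add_distrib]
    congr 1
    rw [Finset.sum_comm]
    refine Finset.sum_congr rfl (fun m _ => ?_)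
    rw [Finset.mul_sum]
  simp only [Finset.sum_add_distrib] at hcomm
  rw [hR l k i j, hR k l i j, hR l k j i, hR k l j i] at hcomm
  have hL : ∀ l k, Low g z l k i j = ∑ m, g z l m * pd i (Chr g m j k) z -
      ∑ m, g z l m * pd j (Chr g m i k) z +
      (∑ m, g z l m * ∑ p, Chr g m i p z * Chr g p j k z -
        ∑ m, g z l m * ∑ p, Chr g m j p z * Chr g p i k z) := by
    intro l k
    unfold Low Riem
    rw [← Finset.sum_sub_distrib, ← Finset.sum_sub_distrib, ← Finset.sum_add_distrib]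
    refine Finset.sum_congr rfl (fun m _ => ?_)
    rw [Finset.sum_sub_distrib]
    ring
  rw [hL, hL]
  have q1 := hQ i l j k
  have q2 := hQ i k j l
  linear_combination hcomm - q1 - q2

/-- Constant sectional curvature determines the curvature tensor. -/
theorem Met.curvAt (hn : 2 ≤ n) {κ : ℂ} {z : Fin n → ℂ} (hz : z ∈ U) (h : SecAt g κ z) :
    CurvAt g κ z := by
  have hs1 : ∀ p k i j, Dft g κ z p k i j = -Dft g κ z p k j i := by
    intro p k i j
    have h1 : Low g z p k i j = -Low g z p k j i := by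
      unfold Low
      rw [← Finset.sum_neg_distrib]
      refine Finset.sum_congr rfl (fun l _ => ?_)
      rw [Riem_s1]
      ring
    unfold Dft
    rw [h1]
    ring
  have hs2 : ∀ p k i j, Dft g κ z p k i j + Dft g κ z p i j k + Dft g κ z p j k i = 0 := by
    intro p k i j
    have h1 : Low g z p k i j + Low g z p i j k + Low g z p j k i = 0 := by
      unfold Low
      rw [← Finset.sum_add_distrib, ← Finset.sum_add_distrib]
      apply Finset.sum_eq_zero
      intro l _
      have := hg.Riem_s2 hz l k i j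
      linear_combination (g z p l) * this
    unfold Dft
    rw [hg.symm z hz k i, hg.symm z hz i j, hg.symm z hz j k]
    linear_combination h1
  have hs3 : ∀ p k i j, Dft g κ z p k i j = -Dft g κ z k p i j := by
    intro p k i j
    unfold Dft
    rw [hg.Low_s3 hz p k i j, hg.symm z hz j k, hg.symm z hz i k, hg.symm z hz j p,
      hg.symm z hz i p]
    ring
  -- the sectional curvature function
  have hMF : ∀ X Y : Fin n → ℂ, MF (Dft g κ z) X Y X Y =
      bil (g z) (fun l => ∑ i, ∑ j, ∑ k, Riem g l k i j z * X i * Y j * Y k) X -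
        κ * (bil (g z) X X * bil (g z) Y Y - bil (g z) X Y ^ 2) := by
    intro X Y
    have e1 : MF (Dft g κ z) X Y X Y =
        (∑ p, ∑ k, ∑ i, ∑ j, Low g z p k i j * X p * Y k * X i * Y j) -
        κ * ((∑ p, ∑ k, ∑ i, ∑ j, (X p * (g z p i * X i)) * (Y j * (g z j k * Y k))) -
          ∑ p, ∑ k, ∑ i, ∑ j, (X p * (g z p j * Y j)) * (X i * (g z i k * Y k))) := by
      unfold MF Dft
      simp only [Finset.mul_sum, ← Finset.sum_sub_distrib]
      refine Finset.sum_congr rfl (fun p _ => Finset.sum_congr rfl (fun k _ =>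
        Finset.sum_congr rfl (fun i _ => Finset.sum_congr rfl (fun j _ => ?_))))
      ring
    have hb : ∀ X Y : Fin n → ℂ, bil (g z) X Y = ∑ p, ∑ i, X p * (g z p i * Y i) := by
      intro X Y
      simp only [bil, dotProduct, Matrix.mulVec, Finset.mul_sum]
    have e2 : bil (g z) (fun l => ∑ i, ∑ j, ∑ k, Riem g l k i j z * X i * Y j * Y k) X =
        ∑ p, ∑ k, ∑ i, ∑ j, Low g z p k i j * X p * Y k * X i * Y j := by
      rw [hb, Finset.sum_comm]
      refine Finset.sum_congr rfl (fun p _ => ?_)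
      have e3 : ∀ l, (∑ i, ∑ j, ∑ k, Riem g l k i j z * X i * Y j * Y k) * (g z l p * X p) =
          ∑ k, ∑ i, ∑ j, g z p l * Riem g l k i j z * X p * Y k * X i * Y j := by
        intro l
        have e4 : (∑ i, ∑ j, ∑ k, Riem g l k i j z * X i * Y j * Y k) =
            ∑ k, ∑ i, ∑ j, Riem g l k i j z * X i * Y j * Y k := by
          calc (∑ i, ∑ j, ∑ k, Riem g l k i j z * X i * Y j * Y k)
              = ∑ i, ∑ k, ∑ j, Riem g l k i j z * X i * Y j * Y k :=
                Finset.sum_congr rfl (fun i _ => Finset.sum_comm)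
            _ = _ := Finset.sum_comm
        rw [e4]
        simp only [Finset.sum_mul]
        refine Finset.sum_congr rfl (fun k _ => Finset.sum_congr rfl (fun i _ =>
          Finset.sum_congr rfl (fun j _ => ?_)))
        rw [hg.symm z hz p l]
        ring
      rw [Finset.sum_congr rfl (fun l _ => e3 l)]
      unfold Low
      rw [Finset.sum_comm]
      refine Finset.sum_congr rfl (fun k _ => ?_)
      rw [Finset.sum_comm]
      refine Finset.sum_congr rfl (fun i _ => ?_)
      rw [Finset.sum_comm]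
      refine Finset.sum_congr rfl (fun j _ => ?_)
      simp only [Finset.sum_mul]
    rw [e1, e2, ← quad1, ← quad2, ← hb, ← hb, ← hb]
    ring
  have hsec : ∀ X Y : Fin n → ℂ, MF (Dft g κ z) X Y X Y = 0 := by
    intro X Y
    have hgs : (g z)ᵀ = g z := by
      ext i j
      exact hg.symm z hz j i
    obtain ⟨C, hC⟩ := exists_sq (g z) hgs
    have hCd : Cᵀ.det ≠ 0 := by
      intro h0
      have h1 := congrArg Matrix.det hC
      rw [Matrix.det_mul, h0, mul_zero] at h1
      exact hg.nd z hz h1.symm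
    have hCi : Cᵀ * (Cᵀ)⁻¹ = 1 := Matrix.mul_nonsing_inv _ (isUnit_iff_ne_zero.mpr hCd)
    have hbC : ∀ u v : Fin n → ℂ, bil (g z) ((Cᵀ)⁻¹ *ᵥ u) ((Cᵀ)⁻¹ *ᵥ v) = u ⬝ᵥ v := by
      intro u v
      unfold bil
      rw [← hC, ← Matrix.mulVec_mulVec, Matrix.mulVec_mulVec (M := Cᵀ), hCi, Matrix.one_mulVec,
        Matrix.dotProduct_mulVec, ← Matrix.mulVec_transpose, Matrix.mulVec_mulVec, hCi,
        Matrix.one_mulVec]
    let i0 : Fin n := ⟨0, by omega⟩
    let i1 : Fin n := ⟨1, by omega⟩
    have hi : i0 ≠ i1 := by simp [i0, i1, Fin.ext_iff]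
    set X' := (Cᵀ)⁻¹ *ᵥ (Pi.single i0 1 : Fin n → ℂ) with hX'
    set Y' := (Cᵀ)⁻¹ *ᵥ (Pi.single i1 1 : Fin n → ℂ) with hY'
    have b1 : bil (g z) X' X' = 1 := by rw [hX', hbC]; simp
    have b2 : bil (g z) Y' Y' = 1 := by rw [hY', hbC]; simp
    have b3 : bil (g z) X' Y' = 0 := by
      rw [hX', hY', hbC]
      simp [Pi.single_apply, hi, hi.symm]
    have hne : ∀ᶠ t : ℂ in 𝓝 0, bil (g z) (X' + t • X) (X' + t • X) *
        bil (g z) (Y' + t • Y) (Y' + t • Y) - bil (g z) (X' + t • X) (Y' + t • Y) ^ 2 ≠ 0 := by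
      simp only [bil_add_smul]
      have hc : ContinuousAt (fun t : ℂ =>
          (bil (g z) X' X' + t * (bil (g z) X' X + bil (g z) X X') + t ^ 2 * bil (g z) X X) *
          (bil (g z) Y' Y' + t * (bil (g z) Y' Y + bil (g z) Y Y') + t ^ 2 * bil (g z) Y Y) -
          (bil (g z) X' Y' + t * (bil (g z) X' Y + bil (g z) X Y') +
            t ^ 2 * bil (g z) X Y) ^ 2) 0 := by fun_prop
      apply hc.eventually_ne
      rw [b1, b2, b3]
      norm_num
    set D := Dft g κ z with hDdef
    apply coeff4_zero (c0 := MF D X' Y' X' Y')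
      (c1 := MF D X Y' X' Y' + MF D X' Y X' Y' + MF D X' Y' X Y' + MF D X' Y' X' Y)
      (c2 := MF D X Y X' Y' + MF D X Y' X Y' + MF D X Y' X' Y + MF D X' Y X Y' +
        MF D X' Y X' Y + MF D X' Y' X Y)
      (c3 := MF D X Y X Y' + MF D X Y X' Y + MF D X Y' X Y + MF D X' Y X Y)
    filter_upwards [hne] with t ht
    have e1 := hMF (X' + t • X) (Y' + t • Y)
    rw [h _ _ ht, sub_self] at e1
    rw [← e1]
    simp only [MF_add1, MF_add2, MF_add3, MF_add4, MF_smul1, MF_smul2, MF_smul3, MF_smul4]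
    ring
  have hD := eq_zero_of_sec (Dft g κ z) hs1 hs2 hs3 hsec
  -- raise the index
  intro l k i j
  have h1 : (g z)⁻¹ * g z = 1 := Matrix.nonsing_inv_mul _ (isUnit_iff_ne_zero.mpr (hg.nd z hz))
  have h2 : ∀ a b, ∑ p, (g z)⁻¹ a p * g z p b = if a = b then 1 else 0 := by
    intro a b
    rw [← Matrix.mul_apply, h1, Matrix.one_apply]
  have h3 : ∀ p, Low g z p k i j = κ * (g z p i * g z j k - g z p j * g z i k) := by
    intro p
    have := hD p k i j
    unfold Dft at this
    linear_combination this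
  have h4 : ∑ p, (g z)⁻¹ l p * Low g z p k i j = Riem g l k i j z := by
    unfold Low
    simp only [Finset.mul_sum]
    rw [Finset.sum_comm]
    have h5 : ∀ m, ∑ p, (g z)⁻¹ l p * (g z p m * Riem g m k i j z) =
        (if l = m then 1 else 0) * Riem g m k i j z := by
      intro m
      rw [← h2 l m, Finset.sum_mul]
      refine Finset.sum_congr rfl (fun p _ => ?_)
      ring
    rw [Finset.sum_congr rfl (fun m _ => h5 m)]
    simp
  rw [← h4, Finset.sum_congr rfl (fun p _ => by rw [h3 p])]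
  have h6 : ∑ p, (g z)⁻¹ l p * (κ * (g z p i * g z j k - g z p j * g z i k)) =
      κ * ((∑ p, (g z)⁻¹ l p * g z p i) * g z j k - (∑ p, (g z)⁻¹ l p * g z p j) * g z i k) := by
    simp only [Finset.sum_mul, ← Finset.sum_sub_distrib, Finset.mul_sum]
    refine Finset.sum_congr rfl (fun p _ => ?_)
    ring
  rw [h6, h2, h2]
  split_ifs <;> ring

end Facts

end Pool.Agent.LMT
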