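import Pool.Agent.LMT.M4
import Pool.Agent.LMT.M5
import Pool.Agent.LMT.M6

/-!
Pullbacks of metrics and of local isometries.
-/

set_option autoImplicit false

namespace Pool.Agent.LMT

open Set Filter Topology Matrix

variable {n : ℕ}

/-- `g` is the pullback of `g'` under the holomorphic map `τ`, at `z`. -/
structure PB (g g' : (Fin n → ℂ) → Matrix (Fin n) (Fin n) ℂ) (τ : (Fin n → ℂ) → (Fin n → ℂ))
    (z : Fin n → ℂ) : Prop where
  an : AnalyticAt ℂ τ z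
  met : ∀ u v : Fin n → ℂ, u ⬝ᵥ (g z *ᵥ v) =
    (fderiv ℂ τ z u) ⬝ᵥ (g' (τ z) *ᵥ (fderiv ℂ τ z v))

theorem fderiv_apply {m : ℕ} {τ : (Fin n → ℂ) → (Fin m → ℂ)} {z : Fin n → ℂ}
    (h : DifferentiableAt ℂ τ z) (u : Fin n → ℂ) (k : Fin m) :
    fderiv ℂ τ z u k = fderiv ℂ (fun w => τ w k) z u := by
  have h4 : HasFDerivAt (fun w => τ w k)
      ((ContinuousLinearMap.proj (R := ℂ) (φ := fun _ : Fin m => ℂ) k).comp
        (fderiv ℂ τ z)) z :=
    (ContinuousLinearMap.proj (R := ℂ) (φ := fun _ : Fin m => ℂ) k).hasFDerivAt.comp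
      z h.hasFDerivAt
  rw [h4.fderiv]
  rfl

theorem pd_comp {f : (Fin n → ℂ) → ℂ} {τ : (Fin n → ℂ) → (Fin n → ℂ)} {z : Fin n → ℂ}
    (hf : DifferentiableAt ℂ f (τ z)) (hτ : DifferentiableAt ℂ τ z) (i : Fin n) :
    pd i (fun w => f (τ w)) z = ∑ k, pd i (fun w => τ w k) z * pd k f (τ z) := by
  unfold pd
  have h := (hf.hasFDerivAt.comp z hτ.hasFDerivAt).fderiv
  change fderiv ℂ (f ∘ τ) z _ = _
  rw [h]
  rw [ContinuousLinearMap.comp_apply, fderiv_eq_sum]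
  refine Finset.sum_congr rfl (fun k _ => ?_)
  rw [fderiv_apply hτ]
  rfl

theorem PB.coef {g g' : (Fin n → ℂ) → Matrix (Fin n) (Fin n) ℂ} {τ : (Fin n → ℂ) → (Fin n → ℂ)}
    {z : Fin n → ℂ} (h : PB g g' τ z) (i j : Fin n) :
    g z i j = ∑ k, ∑ l, pd i (fun w => τ w k) z * (g' (τ z) k l * pd j (fun w => τ w l) z) := by
  have h1 := h.met (Pi.single i 1) (Pi.single j 1)
  rw [single_dotProduct, one_mul, Matrix.mulVec_single_one] at h1
  rw [Matrix.col_apply] at h1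
  rw [h1]
  unfold Matrix.mulVec dotProduct
  simp only [fderiv_apply h.an.differentiableAt, Finset.mul_sum]
  rfl

theorem quadsum {N : ℕ} (a b : Fin n → ℂ) (c d : Fin n → Fin N → ℂ) :
    ∑ x, (∑ k, a k * c k x) * (∑ l, b l * d l x) =
      ∑ k, ∑ l, a k * ((∑ x, c k x * d l x) * b l) := by
  simp_rw [Finset.sum_mul_sum]
  rw [Finset.sum_comm]
  refine Finset.sum_congr rfl (fun k _ => ?_)
  rw [Finset.sum_comm]
  refine Finset.sum_congr rfl (fun l _ => ?_)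
  rw [Finset.sum_mul, Finset.mul_sum]
  refine Finset.sum_congr rfl (fun x _ => ?_)
  ring

theorem analyticAt_comp' {f : (Fin n → ℂ) → ℂ} {τ : (Fin n → ℂ) → (Fin n → ℂ)} {z : Fin n → ℂ}
    (hf : AnalyticAt ℂ f (τ z)) (hτ : AnalyticAt ℂ τ z) : AnalyticAt ℂ (fun w => f (τ w)) z :=
  hf.comp hτ

theorem IsoAt.pull {g g' : (Fin n → ℂ) → Matrix (Fin n) (Fin n) ℂ}
    {τ : (Fin n → ℂ) → (Fin n → ℂ)} {z : Fin n → ℂ} {κ : ℂ}
    {f : (Fin n → ℂ) → (Fin (n + 1) → ℂ)} (h : IsoAt g' κ f (τ z)) (hp : PB g g' τ z) :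
    IsoAt g κ (fun w => f (τ w)) z := by
  refine ⟨fun a => analyticAt_comp' (h.an a) hp.an, h.quad, fun i j => ?_⟩
  have h1 : ∀ i a, pd i (fun w => f (τ w) a) z =
      ∑ k, pd i (fun w => τ w k) z * pd k (fun w => f w a) (τ z) := fun i a =>
    pd_comp (f := fun w => f w a) (h.an a).differentiableAt hp.an.differentiableAt i
  simp only [h1]
  rw [quadsum, hp.coef i j, Finset.mul_sum]
  refine Finset.sum_congr rfl (fun k _ => ?_)
  rw [Finset.mul_sum]
  refine Finset.sum_congr rfl (fun l _ => ?_)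
  rw [h.met k l]
  ring

theorem IsoF.pull {g g' : (Fin n → ℂ) → Matrix (Fin n) (Fin n) ℂ}
    {τ : (Fin n → ℂ) → (Fin n → ℂ)} {z : Fin n → ℂ}
    {f : (Fin n → ℂ) → (Fin n → ℂ)} (h : IsoF g' f (τ z)) (hp : PB g g' τ z) :
    IsoF g (fun w => f (τ w)) z := by
  refine ⟨fun a => analyticAt_comp' (h.an a) hp.an, fun i j => ?_⟩
  have h1 : ∀ i a, pd i (fun w => f (τ w) a) z =
      ∑ k, pd i (fun w => τ w k) z * pd k (fun w => f w a) (τ z) := fun i a =>
    pd_comp (f := fun w => f w a) (h.an a).differentiableAt hp.an.differentiableAt i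
  simp only [h1]
  rw [quadsum, hp.coef i j]
  refine Finset.sum_congr rfl (fun k _ => ?_)
  refine Finset.sum_congr rfl (fun l _ => ?_)
  rw [h.met k l]

theorem pd_mulVec {N N' : ℕ} {f : (Fin n → ℂ) → (Fin N → ℂ)} {z : Fin n → ℂ}
    (A : Matrix (Fin N') (Fin N) ℂ) (b : Fin N' → ℂ)
    (h : ∀ a, DifferentiableAt ℂ (fun w => f w a) z) (i : Fin n) (a : Fin N') :
    pd i (fun w => (A *ᵥ f w + b) a) z = ∑ c, A a c * pd i (fun w => f w c) z := by
  have h1 : (fun w => (A *ᵥ f w + b) a) = fun w => (∑ c, A a c * f w c) + b a := rfl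
  rw [h1, pd_add (DifferentiableAt.fun_sum fun c _ => (h c).const_mul _)
    (differentiableAt_const _), pd_const, add_zero, pd_sum]
  · exact Finset.sum_congr rfl (fun c _ => pd_const_mul (h c) _ _)
  · intro c _
    exact (h c).const_mul _

theorem orth_sum {N : ℕ} {A : Matrix (Fin N) (Fin N) ℂ} (hA : Aᵀ * A = 1) (u v : Fin N → ℂ) :
    ∑ a, (∑ c, A a c * u c) * (∑ c, A a c * v c) = ∑ a, u a * v a := by
  change (A *ᵥ u) ⬝ᵥ (A *ᵥ v) = u ⬝ᵥ v
  rw [Matrix.dotProduct_mulVec, Matrix.vecMul_mulVec, hA, Matrix.vecMul_one]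

theorem IsoAt.rot {g : (Fin n → ℂ) → Matrix (Fin n) (Fin n) ℂ} {z : Fin n → ℂ} {κ : ℂ}
    {f : (Fin n → ℂ) → (Fin (n + 1) → ℂ)} (h : IsoAt g κ f z)
    {A : Matrix (Fin (n + 1)) (Fin (n + 1)) ℂ} (hA : Aᵀ * A = 1) :
    IsoAt g κ (fun w => A *ᵥ f w) z := by
  refine ⟨fun a => ?_, ?_, fun i j => ?_⟩
  · change AnalyticAt ℂ (fun w => ∑ c, A a c * f w c) z
    exact Finset.analyticAt_fun_sum _ (fun c _ => analyticAt_const.mul (h.an c))
  · have h1 := h.quad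
    rw [← h1]
    exact orth_sum hA _ _
  · have h1 : ∀ i a, pd i (fun w => (A *ᵥ f w) a) z = ∑ c, A a c * pd i (fun w => f w c) z := by
      intro i a
      have h2 := pd_mulVec (N' := n + 1) A 0 (fun a => (h.an a).differentiableAt) i a
      simpa only [add_zero] using h2
    simp only [h1]
    rw [orth_sum hA (fun c => pd i (fun w => f w c) z) (fun c => pd j (fun w => f w c) z)]
    exact h.met i j

theorem IsoF.rot {g : (Fin n → ℂ) → Matrix (Fin n) (Fin n) ℂ} {z : Fin n → ℂ}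
    {f : (Fin n → ℂ) → (Fin n → ℂ)} (h : IsoF g f z)
    {A : Matrix (Fin n) (Fin n) ℂ} (hA : Aᵀ * A = 1) (b : Fin n → ℂ) :
    IsoF g (fun w => A *ᵥ f w + b) z := by
  refine ⟨fun a => ?_, fun i j => ?_⟩
  · change AnalyticAt ℂ (fun w => (∑ c, A a c * f w c) + b a) z
    exact (Finset.analyticAt_fun_sum _ (fun c _ => analyticAt_const.mul (h.an c))).add
      analyticAt_const
  · have h1 : ∀ i a, pd i (fun w => (A *ᵥ f w + b) a) z =
        ∑ c, A a c * pd i (fun w => f w c) z := by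
      intro i a
      exact pd_mulVec A b (fun a => (h.an a).differentiableAt) i a
    simp only [h1]
    rw [orth_sum hA (fun c => pd i (fun w => f w c) z) (fun c => pd j (fun w => f w c) z)]
    exact h.met i j

theorem IsoAt.congr {g : (Fin n → ℂ) → Matrix (Fin n) (Fin n) ℂ} {z : Fin n → ℂ} {κ : ℂ}
    {f f' : (Fin n → ℂ) → (Fin (n + 1) → ℂ)} (h : IsoAt g κ f z) (hf : f =ᶠ[𝓝 z] f') :
    IsoAt g κ f' z := by
  have h0 : ∀ a, (fun w => f w a) =ᶠ[𝓝 z] (fun w => f' w a) := fun a =>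
    hf.mono fun w hw => congrFun hw a
  refine ⟨fun a => (h.an a).congr (h0 a), ?_, fun i j => ?_⟩
  · rw [← hf.self_of_nhds]
    exact h.quad
  · rw [← h.met i j]
    refine Finset.sum_congr rfl (fun a _ => ?_)
    rw [pd_congr (h0 a).symm, pd_congr (h0 a).symm]

end Pool.Agent.LMT
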