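import Pool.Agent.LMT.M7

/-!
New charts on a manifold with a metric of constant nonzero curvature, with values in the quadric.
-/

set_option autoImplicit false

namespace Pool.Agent.LMT

open Set Filter Topology Matrix

universe u

variable {n : ℕ}

/-- metric data on a manifold: coefficients in charts. -/
structure MetM (M : Type u) [TopologicalSpace M] [ChartedSpace (Fin n → ℂ) M]
    (G : OpenPartialHomeomorph M (Fin n → ℂ) → (Fin n → ℂ) → Matrix (Fin n) (Fin n) ℂ) :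
    Prop where
  met : ∀ e ∈ atlas (Fin n → ℂ) M, Met (G e) e.target
  pb : ∀ e ∈ atlas (Fin n → ℂ) M, ∀ e' ∈ atlas (Fin n → ℂ) M, ∀ z ∈ (e.symm.trans e').source,
    PB (G e) (G e') (e.symm.trans e') z

/-- an admissible local chart with values in the quadric -/
structure Adm {M : Type u} [TopologicalSpace M]
    (G : OpenPartialHomeomorph M (Fin n → ℂ) → (Fin n → ℂ) → Matrix (Fin n) (Fin n) ℂ) (κ : ℂ)
    (c : OpenPartialHomeomorph M (Fin n → ℂ)) (ε : OpenPartialHomeomorph (Fin n → ℂ) (Qd n))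
    (f : (Fin n → ℂ) → (Fin (n + 1) → ℂ)) : Prop where
  sub : ε.source ⊆ c.target
  iso : ∀ z ∈ ε.source, IsoAt (G c) κ f z
  eq : ∀ z ∈ ε.source, (ε z : Fin (n + 1) → ℂ) = f z

/-- an admissible local chart with values in flat space -/
structure AdmF {M : Type u} [TopologicalSpace M]
    (G : OpenPartialHomeomorph M (Fin n → ℂ) → (Fin n → ℂ) → Matrix (Fin n) (Fin n) ℂ)
    (c : OpenPartialHomeomorph M (Fin n → ℂ))
    (ε : OpenPartialHomeomorph (Fin n → ℂ) (Fin n → ℂ))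
    (f : (Fin n → ℂ) → (Fin n → ℂ)) : Prop where
  sub : ε.source ⊆ c.target
  iso : ∀ z ∈ ε.source, IsoF (G c) f z
  eq : ∀ z ∈ ε.source, ε z = f z

section

variable {M : Type u} [TopologicalSpace M] [ChartedSpace (Fin n → ℂ) M]
  {G : OpenPartialHomeomorph M (Fin n → ℂ) → (Fin n → ℂ) → Matrix (Fin n) (Fin n) ℂ}

theorem MetM.exists_adm (hM : MetM M G) {κ : ℂ} (hκ : κ ≠ 0)
    (hc : ∀ e ∈ atlas (Fin n → ℂ) M, ∀ z ∈ e.target, CurvAt (G e) κ z) (p : M) :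
    ∃ (ε : OpenPartialHomeomorph (Fin n → ℂ) (Qd n)) (f : (Fin n → ℂ) → (Fin (n + 1) → ℂ)),
      chartAt (Fin n → ℂ) p p ∈ ε.source ∧ Adm G κ (chartAt (Fin n → ℂ) p) ε f := by
  have hm := hM.met _ (chart_mem_atlas (Fin n → ℂ) p)
  have hz0 : chartAt (Fin n → ℂ) p p ∈ (chartAt (Fin n → ℂ) p).target := mem_chart_target _ p
  obtain ⟨f, hf⟩ := hm.exists_iso hκ (hc _ (chart_mem_atlas (Fin n → ℂ) p)) hz0
  obtain ⟨ε, h1, h2, h3⟩ := hm.exists_chart hκ hz0 hf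
  exact ⟨ε, f, h1, h2, fun z hz => (h3 z hz).1, fun z hz => (h3 z hz).2⟩

theorem MetM.exists_admF (hM : MetM M G)
    (hc : ∀ e ∈ atlas (Fin n → ℂ) M, ∀ z ∈ e.target, CurvAt (G e) 0 z) (p : M) :
    ∃ (ε : OpenPartialHomeomorph (Fin n → ℂ) (Fin n → ℂ)) (f : (Fin n → ℂ) → (Fin n → ℂ)),
      chartAt (Fin n → ℂ) p p ∈ ε.source ∧ AdmF G (chartAt (Fin n → ℂ) p) ε f := by
  have hm := hM.met _ (chart_mem_atlas (Fin n → ℂ) p)
  have hz0 : chartAt (Fin n → ℂ) p p ∈ (chartAt (Fin n → ℂ) p).target := mem_chart_target _ p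
  obtain ⟨f, hf⟩ := hm.exists_isoF (hc _ (chart_mem_atlas (Fin n → ℂ) p)) hz0
  obtain ⟨ε, h1, h2, h3⟩ := hm.exists_chartF hz0 hf
  exact ⟨ε, f, h1, h2, fun z hz => (h3 z hz).1, fun z hz => (h3 z hz).2⟩

/-- The transition maps between the new charts are locally in `O(n+1,ℂ)`. -/
theorem MetM.trans_adm (hM : MetM M G) {κ : ℂ} (hκ : κ ≠ 0)
    {c c' : OpenPartialHomeomorph M (Fin n → ℂ)} (hc : c ∈ atlas (Fin n → ℂ) M)
    (hc' : c' ∈ atlas (Fin n → ℂ) M) {ε ε' : OpenPartialHomeomorph (Fin n → ℂ) (Qd n)}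
    {f f' : (Fin n → ℂ) → (Fin (n + 1) → ℂ)} (h : Adm G κ c ε f) (h' : Adm G κ c' ε' f')
    {x : Qd n} (hx : x ∈ ((c.trans ε).symm.trans (c'.trans ε')).source) :
    ∃ A : Matrix (Fin (n + 1)) (Fin (n + 1)) ℂ, Aᵀ * A = 1 ∧
      ∀ᶠ y in 𝓝 x, (((c.trans ε).symm.trans (c'.trans ε') y : Qd n) : Fin (n + 1) → ℂ) =
        A *ᵥ (y : Fin (n + 1) → ℂ) := by
  -- unpack the source
  have hx1 : x ∈ ε.target := by
    have h1 : x ∈ (c.trans ε).target := hx.1
    rw [OpenPartialHomeomorph.trans_target] at h1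
    exact h1.1
  set z1 := ε.symm x with hz1
  have hz1s : z1 ∈ ε.source := ε.map_target hx1
  have hz1t : z1 ∈ c.target := h.sub hz1s
  have hx2 : c.symm z1 ∈ (c'.trans ε').source := hx.2
  rw [OpenPartialHomeomorph.trans_source] at hx2
  have hx3 : c.symm z1 ∈ c'.source := hx2.1
  have hx4 : c' (c.symm z1) ∈ ε'.source := hx2.2
  have hτs : z1 ∈ (c.symm.trans c').source := by
    rw [OpenPartialHomeomorph.trans_source]
    exact ⟨hz1t, hx3⟩
  have hτc : ContinuousAt (c.symm.trans c') z1 :=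
    (c.symm.trans c').continuousAt hτs
  have hev1 : ∀ᶠ z in 𝓝 z1, IsoAt (G c) κ f z := by
    filter_upwards [ε.open_source.mem_nhds hz1s] with z hz
    exact h.iso z hz
  have hev2 : ∀ᶠ z in 𝓝 z1, (c.symm.trans c') z ∈ ε'.source :=
    hτc.eventually_mem (ε'.open_source.mem_nhds hx4)
  have hev3 : ∀ᶠ z in 𝓝 z1, IsoAt (G c) κ (fun w => f' ((c.symm.trans c') w)) z := by
    filter_upwards [hev2, (c.symm.trans c').open_source.mem_nhds hτs] with z hz hzs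
    exact (h'.iso _ hz).pull (hM.pb c hc c' hc' z hzs)
  obtain ⟨A, hA, hAe⟩ := (hM.met c hc).iso_unique hκ hz1t hev1 hev3
  refine ⟨A, hA, ?_⟩
  have hεc : ContinuousAt ε.symm x := ε.symm.continuousAt hx1
  have hεt : Tendsto ε.symm (𝓝 x) (𝓝 z1) := hεc
  filter_upwards [hεt.eventually hAe, hεt.eventually hev2, ε.open_target.mem_nhds hx1] with y h1 h2 h3
  have h4 : (((c.trans ε).symm.trans (c'.trans ε') y : Qd n) : Fin (n + 1) → ℂ) =
      (ε' ((c.symm.trans c') (ε.symm y)) : Fin (n + 1) → ℂ) := rfl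
  rw [h4, h'.eq _ h2, h1, ← h.eq _ (ε.map_target h3), ε.right_inv h3]

/-- The transition maps between the new charts are locally isometries of flat space. -/
theorem MetM.trans_admF (hM : MetM M G)
    {c c' : OpenPartialHomeomorph M (Fin n → ℂ)} (hc : c ∈ atlas (Fin n → ℂ) M)
    (hc' : c' ∈ atlas (Fin n → ℂ) M) {ε ε' : OpenPartialHomeomorph (Fin n → ℂ) (Fin n → ℂ)}
    {f f' : (Fin n → ℂ) → (Fin n → ℂ)} (h : AdmF G c ε f) (h' : AdmF G c' ε' f')
    {x : Fin n → ℂ} (hx : x ∈ ((c.trans ε).symm.trans (c'.trans ε')).source) :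
    ∃ (A : Matrix (Fin n) (Fin n) ℂ) (b : Fin n → ℂ), Aᵀ * A = 1 ∧
      ∀ᶠ y in 𝓝 x, (c.trans ε).symm.trans (c'.trans ε') y = A *ᵥ y + b := by
  have hx1 : x ∈ ε.target := by
    have h1 : x ∈ (c.trans ε).target := hx.1
    rw [OpenPartialHomeomorph.trans_target] at h1
    exact h1.1
  set z1 := ε.symm x with hz1
  have hz1s : z1 ∈ ε.source := ε.map_target hx1
  have hz1t : z1 ∈ c.target := h.sub hz1s
  have hx2 : c.symm z1 ∈ (c'.trans ε').source := hx.2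
  rw [OpenPartialHomeomorph.trans_source] at hx2
  have hx3 : c.symm z1 ∈ c'.source := hx2.1
  have hx4 : c' (c.symm z1) ∈ ε'.source := hx2.2
  have hτs : z1 ∈ (c.symm.trans c').source := by
    rw [OpenPartialHomeomorph.trans_source]
    exact ⟨hz1t, hx3⟩
  have hτc : ContinuousAt (c.symm.trans c') z1 :=
    (c.symm.trans c').continuousAt hτs
  have hev1 : ∀ᶠ z in 𝓝 z1, IsoF (G c) f z := by
    filter_upwards [ε.open_source.mem_nhds hz1s] with z hz
    exact h.iso z hz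
  have hev2 : ∀ᶠ z in 𝓝 z1, (c.symm.trans c') z ∈ ε'.source :=
    hτc.eventually_mem (ε'.open_source.mem_nhds hx4)
  have hev3 : ∀ᶠ z in 𝓝 z1, IsoF (G c) (fun w => f' ((c.symm.trans c') w)) z := by
    filter_upwards [hev2, (c.symm.trans c').open_source.mem_nhds hτs] with z hz hzs
    exact (h'.iso _ hz).pull (hM.pb c hc c' hc' z hzs)
  obtain ⟨A, b, hA, hAe⟩ := (hM.met c hc).isoF_unique hz1t hev1 hev3
  refine ⟨A, b, hA, ?_⟩
  have hεc : ContinuousAt ε.symm x := ε.symm.continuousAt hx1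
  have hεt : Tendsto ε.symm (𝓝 x) (𝓝 z1) := hεc
  filter_upwards [hεt.eventually hAe, hεt.eventually hev2, ε.open_target.mem_nhds hx1] with y h1 h2 h3
  have h4 : (c.trans ε).symm.trans (c'.trans ε') y =
      ε' ((c.symm.trans c') (ε.symm y)) := rfl
  rw [h4, h'.eq _ h2, h1, ← h.eq _ (ε.map_target h3), ε.right_inv h3]

/-- From a chart in `O(n+1,ℂ)` back to the metric language. -/
theorem MetM.back (hM : MetM M G) {κ : ℂ}
    {c c' : OpenPartialHomeomorph M (Fin n → ℂ)} (hc : c ∈ atlas (Fin n → ℂ) M)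
    (hc' : c' ∈ atlas (Fin n → ℂ) M) {ε' : OpenPartialHomeomorph (Fin n → ℂ) (Qd n)}
    {f' : (Fin n → ℂ) → (Fin (n + 1) → ℂ)} (h' : Adm G κ c' ε' f')
    (F : Qd n → M) (z : Qd n) (hF : ContinuousAt F z) (hz : F z ∈ c.source)
    (hz' : F z ∈ (c'.trans ε').source) (A : Matrix (Fin (n + 1)) (Fin (n + 1)) ℂ)
    (hA : Aᵀ * A = 1)
    (h : ∀ᶠ w in 𝓝 z, ((c'.trans ε' (F w) : Qd n) : Fin (n + 1) → ℂ) =
      A *ᵥ (w : Fin (n + 1) → ℂ)) :
    ∃ ψ : (Fin n → ℂ) → (Fin (n + 1) → ℂ), ψ (c (F z)) = z ∧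
      ∀ᶠ y in 𝓝 (c (F z)), IsoAt (G c) κ ψ y ∧
        ∀ w : Qd n, (w : Fin (n + 1) → ℂ) = ψ y → F w = c.symm y := by
  have hA' : A * Aᵀ = 1 := mul_eq_one_comm.mp hA
  have hz2 : F z ∈ c'.source ∧ c' (F z) ∈ ε'.source := by
    rw [OpenPartialHomeomorph.trans_source] at hz'
    exact hz'
  set y0 := c (F z) with hy0
  have hy0t : y0 ∈ c.target := c.map_source hz
  have hcy0 : c.symm y0 = F z := c.left_inv hz
  have hτs : y0 ∈ (c.symm.trans c').source := by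
    rw [OpenPartialHomeomorph.trans_source]
    refine ⟨hy0t, ?_⟩
    change c.symm y0 ∈ c'.source
    rw [hcy0]
    exact hz2.1
  have hτ0 : (c.symm.trans c') y0 = c' (F z) := by
    change c' (c.symm y0) = _
    rw [hcy0]
  have hτc : ContinuousAt (c.symm.trans c') y0 := (c.symm.trans c').continuousAt hτs
  have hev2 : ∀ᶠ y in 𝓝 y0, (c.symm.trans c') y ∈ ε'.source :=
    hτc.eventually_mem (ε'.open_source.mem_nhds (by rw [hτ0]; exact hz2.2))
  have hiso : ∀ᶠ y in 𝓝 y0, IsoAt (G c) κ (fun w => Aᵀ *ᵥ f' ((c.symm.trans c') w)) y := by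
    filter_upwards [hev2, (c.symm.trans c').open_source.mem_nhds hτs] with y hy hys
    exact ((h'.iso _ hy).pull (hM.pb c hc c' hc' y hys)).rot (by
      rw [Matrix.transpose_transpose]; exact hA')
  have hψ0 : Aᵀ *ᵥ f' ((c.symm.trans c') y0) = (z : Fin (n + 1) → ℂ) := by
    have h1 := h.self_of_nhds
    change (ε' (c' (F z)) : Fin (n + 1) → ℂ) = _ at h1
    rw [hτ0, ← h'.eq _ hz2.2, h1, Matrix.mulVec_mulVec, hA, Matrix.one_mulVec]
  refine ⟨fun w => Aᵀ *ᵥ f' ((c.symm.trans c') w), hψ0, ?_⟩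
  -- continuity of ψ at y0
  have hψc : ContinuousAt (fun w => Aᵀ *ᵥ f' ((c.symm.trans c') w)) y0 :=
    continuousAt_pi.mpr fun a => (hiso.self_of_nhds.an a).continuousAt
  -- near z, everything is fine
  have hgood : ∀ᶠ w in 𝓝 z, (((c'.trans ε' (F w) : Qd n) : Fin (n + 1) → ℂ) =
      A *ᵥ (w : Fin (n + 1) → ℂ)) ∧ F w ∈ (c'.trans ε').source :=
    h.and (hF.eventually_mem ((c'.trans ε').open_source.mem_nhds hz'))
  rw [nhds_subtype_eq_comap, eventually_comap] at hgood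
  have hgood2 : ∀ᶠ y in 𝓝 y0, ∀ w : Qd n, (w : Fin (n + 1) → ℂ) =
      Aᵀ *ᵥ f' ((c.symm.trans c') y) → (((c'.trans ε' (F w) : Qd n) : Fin (n + 1) → ℂ) =
      A *ᵥ (w : Fin (n + 1) → ℂ)) ∧ F w ∈ (c'.trans ε').source := by
    have h1 : Tendsto (fun w => Aᵀ *ᵥ f' ((c.symm.trans c') w)) (𝓝 y0)
        (𝓝 (z : Fin (n + 1) → ℂ)) := by
      have := hψc.tendsto
      rwa [hψ0] at this
    exact (h1.eventually hgood).mono fun y hy w hw => hy w hw
  have hsrc : ∀ᶠ y in 𝓝 y0, c.symm y ∈ (c'.trans ε').source := by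
    have h1 : ContinuousAt c.symm y0 := c.symm.continuousAt hy0t
    exact h1.eventually_mem ((c'.trans ε').open_source.mem_nhds (by rw [hcy0]; exact hz'))
  filter_upwards [hiso, hgood2, hsrc, hev2] with y h1 h2 h3 h4
  refine ⟨h1, fun w hw => ?_⟩
  obtain ⟨h5, h6⟩ := h2 w hw
  apply (c'.trans ε').injOn h6 h3
  apply Subtype.ext
  rw [h5, hw, Matrix.mulVec_mulVec, hA', Matrix.one_mulVec, ← h'.eq _ h4]
  rfl

/-- From a chart in `O(n,ℂ) ⋉ ℂⁿ` back to the metric language. -/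
theorem MetM.backF (hM : MetM M G)
    {c c' : OpenPartialHomeomorph M (Fin n → ℂ)} (hc : c ∈ atlas (Fin n → ℂ) M)
    (hc' : c' ∈ atlas (Fin n → ℂ) M) {ε' : OpenPartialHomeomorph (Fin n → ℂ) (Fin n → ℂ)}
    {f' : (Fin n → ℂ) → (Fin n → ℂ)} (h' : AdmF G c' ε' f')
    (F : (Fin n → ℂ) → M) (z : Fin n → ℂ) (hF : ContinuousAt F z) (hz : F z ∈ c.source)
    (hz' : F z ∈ (c'.trans ε').source) (A : Matrix (Fin n) (Fin n) ℂ) (b : Fin n → ℂ)
    (hA : Aᵀ * A = 1)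
    (h : ∀ᶠ w in 𝓝 z, c'.trans ε' (F w) = A *ᵥ w + b) :
    ∃ ψ : (Fin n → ℂ) → (Fin n → ℂ), ψ (c (F z)) = z ∧
      ∀ᶠ y in 𝓝 (c (F z)), IsoF (G c) ψ y ∧ F (ψ y) = c.symm y := by
  have hA' : A * Aᵀ = 1 := mul_eq_one_comm.mp hA
  have hz2 : F z ∈ c'.source ∧ c' (F z) ∈ ε'.source := by
    rw [OpenPartialHomeomorph.trans_source] at hz'
    exact hz'
  set y0 := c (F z) with hy0
  have hy0t : y0 ∈ c.target := c.map_source hz
  have hcy0 : c.symm y0 = F z := c.left_inv hz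
  have hτs : y0 ∈ (c.symm.trans c').source := by
    rw [OpenPartialHomeomorph.trans_source]
    refine ⟨hy0t, ?_⟩
    change c.symm y0 ∈ c'.source
    rw [hcy0]
    exact hz2.1
  have hτ0 : (c.symm.trans c') y0 = c' (F z) := by
    change c' (c.symm y0) = _
    rw [hcy0]
  have hτc : ContinuousAt (c.symm.trans c') y0 := (c.symm.trans c').continuousAt hτs
  have hev2 : ∀ᶠ y in 𝓝 y0, (c.symm.trans c') y ∈ ε'.source :=
    hτc.eventually_mem (ε'.open_source.mem_nhds (by rw [hτ0]; exact hz2.2))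
  have hiso : ∀ᶠ y in 𝓝 y0,
      IsoF (G c) (fun w => Aᵀ *ᵥ f' ((c.symm.trans c') w) + -(Aᵀ *ᵥ b)) y := by
    filter_upwards [hev2, (c.symm.trans c').open_source.mem_nhds hτs] with y hy hys
    exact ((h'.iso _ hy).pull (hM.pb c hc c' hc' y hys)).rot (by
      rw [Matrix.transpose_transpose]; exact hA') _
  have hψ0 : Aᵀ *ᵥ f' ((c.symm.trans c') y0) + -(Aᵀ *ᵥ b) = z := by
    have h1 := h.self_of_nhds
    change ε' (c' (F z)) = _ at h1
    rw [hτ0, ← h'.eq _ hz2.2, h1, Matrix.mulVec_add, Matrix.mulVec_mulVec, hA, Matrix.one_mulVec]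
    abel
  refine ⟨fun w => Aᵀ *ᵥ f' ((c.symm.trans c') w) + -(Aᵀ *ᵥ b), hψ0, ?_⟩
  have hψc : ContinuousAt (fun w => Aᵀ *ᵥ f' ((c.symm.trans c') w) + -(Aᵀ *ᵥ b)) y0 :=
    continuousAt_pi.mpr fun a => (hiso.self_of_nhds.an a).continuousAt
  have hgood : ∀ᶠ w in 𝓝 z, (c'.trans ε' (F w) = A *ᵥ w + b) ∧ F w ∈ (c'.trans ε').source :=
    h.and (hF.eventually_mem ((c'.trans ε').open_source.mem_nhds hz'))
  have hgood2 : ∀ᶠ y in 𝓝 y0, (c'.trans ε'
      (F (Aᵀ *ᵥ f' ((c.symm.trans c') y) + -(Aᵀ *ᵥ b))) =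
      A *ᵥ (Aᵀ *ᵥ f' ((c.symm.trans c') y) + -(Aᵀ *ᵥ b)) + b) ∧
      F (Aᵀ *ᵥ f' ((c.symm.trans c') y) + -(Aᵀ *ᵥ b)) ∈ (c'.trans ε').source := by
    have h1 : Tendsto (fun w => Aᵀ *ᵥ f' ((c.symm.trans c') w) + -(Aᵀ *ᵥ b)) (𝓝 y0)
        (𝓝 z) := by
      have := hψc.tendsto
      rwa [hψ0] at this
    exact h1.eventually hgood
  have hsrc : ∀ᶠ y in 𝓝 y0, c.symm y ∈ (c'.trans ε').source := by
    have h1 : ContinuousAt c.symm y0 := c.symm.continuousAt hy0t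
    exact h1.eventually_mem ((c'.trans ε').open_source.mem_nhds (by rw [hcy0]; exact hz'))
  filter_upwards [hiso, hgood2, hsrc, hev2] with y h1 h2 h3 h4
  refine ⟨h1, ?_⟩
  obtain ⟨h5, h6⟩ := h2
  apply (c'.trans ε').injOn h6 h3
  rw [h5, Matrix.mulVec_add, Matrix.mulVec_neg, Matrix.mulVec_mulVec, Matrix.mulVec_mulVec, hA',
    Matrix.one_mulVec, Matrix.one_mulVec, neg_add_cancel_right, ← h'.eq _ h4]
  rfl

end

/-- the charted space structure given by a family of charts -/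
@[reducible] def mkCS {H : Type*} [TopologicalSpace H] {M : Type u} [TopologicalSpace M]
    (c : M → OpenPartialHomeomorph M H) (hc : ∀ p, p ∈ (c p).source) : ChartedSpace H M where
  atlas := Set.range c
  chartAt := c
  mem_chart_source := hc
  chart_mem_atlas := fun p => ⟨p, rfl⟩

end Pool.Agent.LMT
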