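import Pool.Agent.LMT.M8

/-!
The model atlas of a manifold with a metric of constant curvature.
-/

set_option autoImplicit false

namespace Pool.Agent.LMT

open Set Filter Topology Matrix
open scoped Manifold ContDiff

universe u

variable {n : ℕ}

/-- The atlas with values in the quadric (curvature `κ ≠ 0`). -/
theorem exists_quad_atlas {M : Type u} [TopologicalSpace M] [ChartedSpace (Fin n → ℂ) M]
    {G : OpenPartialHomeomorph M (Fin n → ℂ) → (Fin n → ℂ) → Matrix (Fin n) (Fin n) ℂ}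
    (hM : MetM M G) {κ : ℂ} (hκ : κ ≠ 0)
    (hc : ∀ e ∈ atlas (Fin n → ℂ) M, ∀ z ∈ e.target, CurvAt (G e) κ z) :
    ∃ c : M → OpenPartialHomeomorph M (Qd n), (∀ p, p ∈ (c p).source) ∧
      (∀ p q, ∀ x ∈ ((c p).symm.trans (c q)).source,
        ∃ A : Matrix (Fin (n + 1)) (Fin (n + 1)) ℂ, Aᵀ * A = 1 ∧
          ∀ᶠ y in 𝓝 x, (((c p).symm.trans (c q) y : Qd n) : Fin (n + 1) → ℂ) =
            A *ᵥ (y : Fin (n + 1) → ℂ)) ∧
      ∀ (F : Qd n → M) (z : Qd n), ContinuousAt F z → ∀ p : M, F z ∈ (c p).source →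
        ∀ A : Matrix (Fin (n + 1)) (Fin (n + 1)) ℂ, Aᵀ * A = 1 →
        (∀ᶠ w in 𝓝 z, ((c p (F w) : Qd n) : Fin (n + 1) → ℂ) = A *ᵥ (w : Fin (n + 1) → ℂ)) →
        ∀ e ∈ atlas (Fin n → ℂ) M, F z ∈ e.source →
        ∃ ψ : (Fin n → ℂ) → (Fin (n + 1) → ℂ), ψ (e (F z)) = z ∧
          ∀ᶠ y in 𝓝 (e (F z)), IsoAt (G e) κ ψ y ∧
            ∀ w : Qd n, (w : Fin (n + 1) → ℂ) = ψ y → F w = e.symm y := by
  choose ε f h1 h2 using hM.exists_adm hκ hc
  refine ⟨fun p => (chartAt (Fin n → ℂ) p).trans (ε p), fun p => ?_, fun p q x hx => ?_, ?_⟩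
  · rw [OpenPartialHomeomorph.trans_source]
    exact ⟨mem_chart_source _ p, h1 p⟩
  · exact hM.trans_adm hκ (chart_mem_atlas _ p) (chart_mem_atlas _ q) (h2 p) (h2 q) hx
  · intro F z hF p hz A hA h e he hze
    exact hM.back he (chart_mem_atlas _ p) (h2 p) F z hF hze hz A hA h

/-- The atlas with values in flat space (curvature `0`). -/
theorem exists_flat_atlas {M : Type u} [TopologicalSpace M] [ChartedSpace (Fin n → ℂ) M]
    {G : OpenPartialHomeomorph M (Fin n → ℂ) → (Fin n → ℂ) → Matrix (Fin n) (Fin n) ℂ}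
    (hM : MetM M G)
    (hc : ∀ e ∈ atlas (Fin n → ℂ) M, ∀ z ∈ e.target, CurvAt (G e) 0 z) :
    ∃ c : M → OpenPartialHomeomorph M (Fin n → ℂ), (∀ p, p ∈ (c p).source) ∧
      (∀ p q, ∀ x ∈ ((c p).symm.trans (c q)).source,
        ∃ (A : Matrix (Fin n) (Fin n) ℂ) (b : Fin n → ℂ), Aᵀ * A = 1 ∧
          ∀ᶠ y in 𝓝 x, (c p).symm.trans (c q) y = A *ᵥ y + b) ∧
      ∀ (F : (Fin n → ℂ) → M) (z : Fin n → ℂ), ContinuousAt F z → ∀ p : M,
        F z ∈ (c p).source →
        ∀ (A : Matrix (Fin n) (Fin n) ℂ) (b : Fin n → ℂ), Aᵀ * A = 1 →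
        (∀ᶠ w in 𝓝 z, c p (F w) = A *ᵥ w + b) →
        ∀ e ∈ atlas (Fin n → ℂ) M, F z ∈ e.source →
        ∃ ψ : (Fin n → ℂ) → (Fin n → ℂ), ψ (e (F z)) = z ∧
          ∀ᶠ y in 𝓝 (e (F z)), IsoF (G e) ψ y ∧ F (ψ y) = e.symm y := by
  choose ε f h1 h2 using hM.exists_admF hc
  refine ⟨fun p => (chartAt (Fin n → ℂ) p).trans (ε p), fun p => ?_, fun p q x hx => ?_, ?_⟩
  · rw [OpenPartialHomeomorph.trans_source]
    exact ⟨mem_chart_source _ p, h1 p⟩
  · exact hM.trans_admF (chart_mem_atlas _ p) (chart_mem_atlas _ q) (h2 p) (h2 q) hx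
  · intro F z hF p hz A b hA h e he hze
    exact hM.backF he (chart_mem_atlas _ p) (h2 p) F z hF hze hz A b hA h

theorem analyticAt_affine (A : Matrix (Fin n) (Fin n) ℂ) (b : Fin n → ℂ) (z : Fin n → ℂ) :
    AnalyticAt ℂ (fun w : Fin n → ℂ => A *ᵥ w + b) z := by
  rw [analyticAt_pi_iff]
  intro a
  change AnalyticAt ℂ (fun w : Fin n → ℂ => (∑ c, A a c * w c) + b a) z
  refine (Finset.analyticAt_fun_sum _ (fun c _ => analyticAt_const.mul ?_)).add analyticAt_const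
  exact (ContinuousLinearMap.proj (R := ℂ) (φ := fun _ : Fin n => ℂ) c).analyticAt z

/-- a local affine isometry is analytic and preserves the bilinear form. -/
theorem affine_facts {τ : (Fin n → ℂ) → (Fin n → ℂ)} {z : Fin n → ℂ}
    {A : Matrix (Fin n) (Fin n) ℂ} {b : Fin n → ℂ} (hA : Aᵀ * A = 1)
    (h : ∀ᶠ y in 𝓝 z, τ y = A *ᵥ y + b) :
    AnalyticAt ℂ τ z ∧ ∀ v w : Fin n → ℂ, (fderiv ℂ τ z v) ⬝ᵥ (fderiv ℂ τ z w) = v ⬝ᵥ w := by
  have h0 : (fun y => A *ᵥ y + b) =ᶠ[𝓝 z] τ := h.mono fun y hy => hy.symm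
  have h1 : AnalyticAt ℂ τ z := (analyticAt_affine A b z).congr h0
  refine ⟨h1, fun v w => ?_⟩
  have h2 : ∀ v : Fin n → ℂ, fderiv ℂ τ z v = A *ᵥ v := by
    intro v
    funext a
    rw [fderiv_apply h1.differentiableAt, fderiv_eq_sum]
    have h3 : ∀ j, pd j (fun w => τ w a) z = A a j := by
      intro j
      have h4 : (fun w => τ w a) =ᶠ[𝓝 z] (fun w : Fin n → ℂ => (A *ᵥ w + b) a) :=
        h.mono fun y hy => congrFun hy a
      rw [pd_congr h4, pd_mulVec (f := fun w => w) A b (fun a =>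
        (ContinuousLinearMap.proj (R := ℂ) (φ := fun _ : Fin n => ℂ) a).differentiableAt)]
      have h5 : ∀ c, pd j (fun w : Fin n → ℂ => w c) z = if c = j then 1 else 0 := by
        intro c
        unfold pd
        have h6 := (ContinuousLinearMap.proj (R := ℂ) (φ := fun _ : Fin n => ℂ) c).fderiv (x := z)
        change fderiv ℂ (fun w : Fin n → ℂ => w c) z = _ at h6
        rw [h6]
        change (Pi.single j (1:ℂ) : Fin n → ℂ) c = _
        rw [Pi.single_apply]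
      simp only [h5, mul_ite, mul_one, mul_zero, Finset.sum_ite_eq', Finset.mem_univ, if_true]
    simp only [h3]
    exact Finset.sum_congr rfl (fun j _ => mul_comm _ _)
  rw [h2, h2, Matrix.dotProduct_mulVec, Matrix.vecMul_mulVec, hA, Matrix.vecMul_one]

theorem dot_of_met {N : ℕ} {ψ : (Fin n → ℂ) → (Fin N → ℂ)} {y : Fin n → ℂ}
    (han : ∀ a, AnalyticAt ℂ (fun w => ψ w a) y) {S : Matrix (Fin n) (Fin n) ℂ} {c : ℂ}
    (h : ∀ i j, ∑ a, pd i (fun w => ψ w a) y * pd j (fun w => ψ w a) y = c * S i j)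
    (u v : Fin n → ℂ) :
    (fderiv ℂ ψ y u) ⬝ᵥ (fderiv ℂ ψ y v) = c * bil S u v := by
  have h1 : AnalyticAt ℂ ψ y := analyticAt_pi_iff.mpr han
  have h2 : ∀ (u : Fin n → ℂ) (a : Fin N), fderiv ℂ ψ y u a =
      ∑ j, u j * pd j (fun w => ψ w a) y := by
    intro u a
    rw [fderiv_apply h1.differentiableAt, fderiv_eq_sum]
  unfold bil dotProduct Matrix.mulVec dotProduct
  have h3 : ∀ (v : Fin n → ℂ) (a : Fin N), fderiv ℂ ψ y v a =
      ∑ j, pd j (fun w => ψ w a) y * v j := by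
    intro v a
    rw [h2]
    exact Finset.sum_congr rfl (fun j _ => mul_comm _ _)
  calc ∑ i, fderiv ℂ ψ y u i * fderiv ℂ ψ y v i
      = ∑ i, (∑ k, u k * pd k (fun w => ψ w i) y) * (∑ l, v l * pd l (fun w => ψ w i) y) := by
        refine Finset.sum_congr rfl (fun i _ => ?_)
        rw [h2, h2]
    _ = ∑ k, ∑ l, u k * ((∑ x, pd k (fun w => ψ w x) y * pd l (fun w => ψ w x) y) * v l) :=
        quadsum u v (fun k x => pd k (fun w => ψ w x) y) (fun l x => pd l (fun w => ψ w x) y)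
    _ = c * ∑ i, u i * ∑ j, S i j * v j := by
        rw [Finset.mul_sum]
        refine Finset.sum_congr rfl (fun k _ => ?_)
        rw [Finset.mul_sum, Finset.mul_sum]
        refine Finset.sum_congr rfl (fun l _ => ?_)
        rw [h k l]
        ring

/-- transition maps of a complex manifold are analytic. -/
theorem analyticAt_trans {M : Type u} [TopologicalSpace M] [ChartedSpace (Fin n → ℂ) M]
    [IsManifold 𝓘(ℂ, Fin n → ℂ) ω M] {e e' : OpenPartialHomeomorph M (Fin n → ℂ)}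
    (he : e ∈ atlas (Fin n → ℂ) M) (he' : e' ∈ atlas (Fin n → ℂ) M) {z : Fin n → ℂ}
    (hz : z ∈ (e.symm.trans e').source) : AnalyticAt ℂ (e.symm.trans e') z := by
  have h1 : e.symm.trans e' ∈ contDiffGroupoid ω 𝓘(ℂ, Fin n → ℂ) :=
    HasGroupoid.compatible he he'
  rw [contDiffGroupoid, mem_groupoid_of_pregroupoid] at h1
  have h2 : ContDiffOn ℂ ω (e.symm.trans e') (e.symm.trans e').source := by
    have h3 := h1.1
    unfold contDiffPregroupoid at h3
    simpa using h3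
  have h4 := (h2.contDiffAt ((e.symm.trans e').open_source.mem_nhds hz))
  exact h4.analyticAt

end Pool.Agent.LMT
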