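import Mathlib

/-!
Volterra operators on `C([0,1], 𝔸)`.
-/

set_option autoImplicit false

namespace Pool.Agent.LMT

open Set Filter Topology MeasureTheory unitInterval

section Abs

variable {X : Type*} [NormedAddCommGroup X] [NormedSpace ℂ X] [CompleteSpace X]
  (K : X →L[ℂ] (X →L[ℂ] X)) (x0 : X)

/-- The solution `y` of `y = x0 + K a y` for small `a`. -/
noncomputable def gsol (a : X) : X := Ring.inverse ((1 : X →L[ℂ] X) - K a) x0

theorem gsol_analytic : AnalyticAt ℂ (gsol K x0) 0 := by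
  have h1 : AnalyticAt ℂ (fun a : X => (1 : X →L[ℂ] X) - K a) 0 :=
    AnalyticAt.fun_sub analyticAt_const (K.analyticAt 0)
  have h2 : AnalyticAt ℂ (Ring.inverse : (X →L[ℂ] X) → _)
      ((fun a : X => (1 : X →L[ℂ] X) - K a) 0) := by
    have : (fun a : X => (1 : X →L[ℂ] X) - K a) 0 =
        ((1 : (X →L[ℂ] X)ˣ) : X →L[ℂ] X) := by simp
    rw [this]
    exact analyticAt_inverse _
  have h3 : AnalyticAt ℂ (Ring.inverse ∘ (fun a : X => (1 : X →L[ℂ] X) - K a)) 0 :=
    AnalyticAt.comp (g := Ring.inverse) (f := fun a : X => (1 : X →L[ℂ] X) - K a) h2 h1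
  have h4 : AnalyticAt ℂ ((ContinuousLinearMap.apply ℂ X x0) ∘
      (Ring.inverse ∘ (fun a : X => (1 : X →L[ℂ] X) - K a))) 0 :=
    ((ContinuousLinearMap.apply ℂ X x0).analyticAt _).comp h3
  exact h4

/-- `1 - K a` is invertible. -/
def Inv (a : X) : Prop := IsUnit ((1 : X →L[ℂ] X) - K a)

theorem inv_near : ∀ᶠ a : X in 𝓝 0, Inv K a := by
  have hc : Continuous (fun a : X => (1 : X →L[ℂ] X) - K a) := by fun_prop
  have ho : IsOpen {x : X →L[ℂ] X | IsUnit x} := Units.isOpen
  exact (ho.preimage hc).mem_nhds (x := 0) (by simp)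

omit [CompleteSpace X] in
theorem gsol_eq (a : X) (h : Inv K a) : gsol K x0 a = x0 + K a (gsol K x0 a) := by
  have h1 : ((1 : X →L[ℂ] X) - K a) * Ring.inverse (1 - K a) = 1 :=
    Ring.mul_inverse_cancel _ h
  have h2 := congrArg (fun T : X →L[ℂ] X => T x0) h1
  simp only [mul_apply_eq_comp, _root_.sub_apply, one_apply_eq_self] at h2
  change gsol K x0 a - K a (gsol K x0 a) = x0 at h2
  rw [sub_eq_iff_eq_add] at h2
  exact h2

omit [CompleteSpace X] in
theorem eq_gsol (a y : X) (h : Inv K a) (hy : y = x0 + K a y) : y = gsol K x0 a := by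
  have h1 : Ring.inverse ((1 : X →L[ℂ] X) - K a) * (1 - K a) = 1 :=
    Ring.inverse_mul_cancel _ h
  have h2 := congrArg (fun T : X →L[ℂ] X => T y) h1
  simp only [mul_apply_eq_comp, _root_.sub_apply, one_apply_eq_self] at h2
  have h3 : y - K a y = x0 := by
    rw [sub_eq_iff_eq_add]
    exact hy
  rw [h3] at h2
  exact h2.symm

omit [CompleteSpace X] in
theorem eq_zero_of (a y : X) (h : Inv K a) (hy : y = K a y) : y = 0 := by
  have h1 := eq_gsol K 0 a y h (by rw [zero_add]; exact hy)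
  rw [h1]
  simp [gsol]

end Abs

section Volterra

variable {𝔸 : Type*} [NormedRing 𝔸] [NormedAlgebra ℂ 𝔸]

/-- The extension of a continuous function on `[0,1]` to `ℝ`. -/
noncomputable def ex (f : C(I, 𝔸)) : ℝ → 𝔸 := IccExtend zero_le_one f

omit [NormedAlgebra ℂ 𝔸] in
theorem continuous_ex (f : C(I, 𝔸)) : Continuous (ex f) := f.continuous.Icc_extend'

omit [NormedAlgebra ℂ 𝔸] in
theorem ex_of_mem (f : C(I, 𝔸)) {s : ℝ} (hs : s ∈ Icc (0:ℝ) 1) : ex f s = f ⟨s, hs⟩ :=
  IccExtend_of_mem _ _ hs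

omit [NormedAlgebra ℂ 𝔸] in
theorem norm_ex_le (f : C(I, 𝔸)) (s : ℝ) : ‖ex f s‖ ≤ ‖f‖ := by
  unfold ex IccExtend
  exact f.norm_coe_le_norm _

/-- The integration operator. -/
noncomputable def J : C(I, 𝔸) →L[ℂ] C(I, 𝔸) :=
  LinearMap.mkContinuous
    { toFun := fun f => ⟨fun t => ∫ s in (0:ℝ)..(t:ℝ), ex f s, by
        have h := intervalIntegral.continuous_primitive
          (fun a b => (continuous_ex f).intervalIntegrable (μ := volume) a b) 0
        exact h.comp continuous_subtype_val⟩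
      map_add' := by
        intro f g
        ext t
        have e : ∀ s, ex (f + g) s = ex f s + ex g s := fun s => rfl
        simp only [ContinuousMap.coe_mk, ContinuousMap.add_apply, e]
        exact intervalIntegral.integral_add ((continuous_ex f).intervalIntegrable _ _)
          ((continuous_ex g).intervalIntegrable _ _)
      map_smul' := by
        intro c f
        ext t
        have e : ∀ s, ex (c • f) s = c • ex f s := fun s => rfl
        simp only [ContinuousMap.coe_mk, ContinuousMap.smul_apply, RingHom.id_apply, e]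
        exact intervalIntegral.integral_smul c _ }
    1 (by
      intro f
      rw [one_mul, ContinuousMap.norm_le _ (norm_nonneg f)]
      intro t
      have h := intervalIntegral.norm_integral_le_of_norm_le_const
        (a := (0:ℝ)) (b := (t:ℝ)) (f := ex f) (C := ‖f‖) (fun s _ => norm_ex_le f s)
      refine h.trans ?_
      have h1 : |(t:ℝ) - 0| ≤ 1 := by
        rw [sub_zero, abs_of_nonneg t.2.1]
        exact t.2.2
      nlinarith [norm_nonneg f])

theorem J_apply (f : C(I, 𝔸)) (t : I) : J f t = ∫ s in (0:ℝ)..(t:ℝ), ex f s := rfl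

/-- The Volterra operator `y ↦ ∫ a y`. -/
noncomputable def K : C(I, 𝔸) →L[ℂ] (C(I, 𝔸) →L[ℂ] C(I, 𝔸)) :=
  (ContinuousLinearMap.compL ℂ C(I, 𝔸) C(I, 𝔸) C(I, 𝔸) J).comp
    (ContinuousLinearMap.mul ℂ C(I, 𝔸))

theorem K_apply (a y : C(I, 𝔸)) : K a y = J (a * y) := rfl

theorem K_apply_apply (a y : C(I, 𝔸)) (t : I) :
    K a y t = ∫ s in (0:ℝ)..(t:ℝ), ex a s * ex y s := rfl

end Volterra

end Pool.Agent.LMT
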