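import Mathlib

/-!
`z ↦ (t ↦ A (t z))` is analytic as a map to `C([0,1], W)`.
-/

set_option autoImplicit false

namespace Pool.Agent.LMT

open Set Filter Topology unitInterval
open scoped ENNReal NNReal

section Path

variable {V : Type*} [NormedAddCommGroup V] [NormedSpace ℂ V]
  {W : Type*} [NormedAddCommGroup W] [NormedSpace ℂ W]

/-- `w ↦ (t ↦ t ^ n • w)`. -/
noncomputable def tp (n : ℕ) : W →L[ℂ] C(I, W) :=
  LinearMap.mkContinuous
    { toFun := fun w => ⟨fun t => (((t:ℝ):ℂ) ^ n) • w, by fun_prop⟩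
      map_add' := by
        intro v w
        ext t
        simp
      map_smul' := by
        intro c w
        ext t
        simp [smul_smul, mul_comm] }
    1 (by
      intro w
      rw [one_mul, ContinuousMap.norm_le _ (norm_nonneg w)]
      intro t
      simp only [LinearMap.coe_mk, AddHom.coe_mk, ContinuousMap.coe_mk, norm_smul, norm_pow,
        Complex.norm_real, Real.norm_eq_abs]
      have h1 : |(t:ℝ)| ≤ 1 := by
        rw [abs_of_nonneg t.2.1]
        exact t.2.2
      have h2 : |(t:ℝ)| ^ n ≤ 1 := pow_le_one₀ (abs_nonneg _) h1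
      nlinarith [norm_nonneg w])

theorem tp_apply (n : ℕ) (w : W) (t : I) : tp n w t = (((t:ℝ):ℂ) ^ n) • w := rfl

theorem norm_tp_le (n : ℕ) : ‖(tp n : W →L[ℂ] C(I, W))‖ ≤ 1 :=
  LinearMap.mkContinuous_norm_le _ zero_le_one _

/-- The series of the path map. -/
noncomputable def pser (p : FormalMultilinearSeries ℂ V W) :
    FormalMultilinearSeries ℂ V C(I, W) :=
  fun n => (tp n).compContinuousMultilinearMap (p n)

theorem pser_norm (p : FormalMultilinearSeries ℂ V W) (n : ℕ) : ‖pser p n‖ ≤ ‖p n‖ := by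
  refine (ContinuousLinearMap.norm_compContinuousMultilinearMap_le _ _).trans ?_
  have := norm_tp_le (W := W) n
  nlinarith [norm_nonneg (p n)]

theorem pser_radius (p : FormalMultilinearSeries ℂ V W) : p.radius ≤ (pser p).radius := by
  refine ENNReal.le_of_forall_nnreal_lt (fun r hr => ?_)
  obtain ⟨C, -, h⟩ := p.norm_mul_pow_le_of_lt_radius hr
  refine (pser p).le_radius_of_bound C (fun n => ?_)
  exact (mul_le_mul_of_nonneg_right (pser_norm p n) (by positivity)).trans (h n)

/-- The path map. -/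
theorem exists_path [CompleteSpace W] (A : V → W) (hA : AnalyticAt ℂ A 0) :
    ∃ B : V → C(I, W), AnalyticAt ℂ B 0 ∧
      ∀ᶠ z in 𝓝 (0 : V), ∀ t : I, B z t = A (((t:ℝ):ℂ) • z) := by
  obtain ⟨p, r, hp⟩ := hA
  have hr : 0 < (pser p).radius := lt_of_lt_of_le hp.radius_pos (pser_radius p)
  have hB := (pser p).hasFPowerSeriesOnBall hr
  refine ⟨(pser p).sum, hB.analyticAt, ?_⟩
  have hball : Metric.eball (0 : V) (min r (pser p).radius) ∈ 𝓝 (0 : V) :=
    Metric.eball_mem_nhds _ (lt_min hp.r_pos hr)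
  filter_upwards [hball] with z hz t
  have hz1 : z ∈ Metric.eball (0 : V) (pser p).radius :=
    Metric.eball_subset_eball (min_le_right _ _) hz
  have hz2 : z ∈ Metric.eball (0 : V) r := Metric.eball_subset_eball (min_le_left _ _) hz
  have h1 := hB.hasSum hz1
  rw [zero_add] at h1
  have h2 : HasSum (fun n => (pser p n (fun _ => z)) t) ((pser p).sum z t) :=
    h1.map (ContinuousMap.evalCLM ℂ t).toLinearMap.toAddMonoidHom (ContinuousMap.evalCLM ℂ t).continuous
  have hz3 : (((t:ℝ):ℂ) • z) ∈ Metric.eball (0 : V) r := by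
    rw [Metric.mem_eball, edist_zero_right] at hz2 ⊢
    refine lt_of_le_of_lt ?_ hz2
    rw [enorm_smul]
    have h1 : ‖((t:ℝ):ℂ)‖ₑ ≤ 1 := by
      rw [← ofReal_norm, Complex.norm_real, Real.norm_eq_abs, abs_of_nonneg t.2.1]
      exact ENNReal.ofReal_le_one.mpr t.2.2
    calc ‖((t:ℝ):ℂ)‖ₑ * ‖z‖ₑ ≤ 1 * ‖z‖ₑ := by gcongr
      _ = ‖z‖ₑ := one_mul _
  have h3 := hp.hasSum hz3
  rw [zero_add] at h3
  have h4 : (fun n => (pser p n (fun _ => z)) t) = fun n => p n (fun _ => ((t:ℝ):ℂ) • z) := by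
    funext n
    change (((t:ℝ):ℂ) ^ n) • (p n fun _ => z) = _
    have := (p n).map_smul_univ (fun _ => ((t:ℝ):ℂ)) (fun _ => z)
    simp only [Finset.prod_const, Finset.card_univ, Fintype.card_fin] at this
    exact this.symm
  rw [h4] at h2
  exact h2.unique h3

end Path

end Pool.Agent.LMT
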