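import Pool.Agent.LMT.V1
import Pool.Agent.LMT.V2

/-!
The radial solution of a linear system.
-/

set_option autoImplicit false

namespace Pool.Agent.LMT

open Set Filter Topology MeasureTheory unitInterval

section Radial

variable {V : Type*} [NormedAddCommGroup V] [NormedSpace ℂ V]
  {𝔸 : Type*} [NormedRing 𝔸] [NormedAlgebra ℂ 𝔸] [CompleteSpace 𝔸]

/-- pointwise evaluation. -/
noncomputable def Ev : C(I, V →L[ℂ] 𝔸) →L[ℂ] (V →L[ℂ] C(I, 𝔸)) :=
  LinearMap.mkContinuous₂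
    (LinearMap.mk₂ ℂ (fun (b : C(I, V →L[ℂ] 𝔸)) (z : V) =>
        (⟨fun t => b t z, (ContinuousLinearMap.apply ℂ 𝔸 z).continuous.comp b.continuous⟩ : C(I, 𝔸)))
      (by intro b b' z; ext t; rfl) (by intro c b z; ext t; rfl)
      (by intro b z z'; ext t; exact (b t).map_add z z')
      (by intro c b z; ext t; exact (b t).map_smul c z))
    1 (by
      intro b z
      rw [one_mul, ContinuousMap.norm_le _ (by positivity)]
      intro t
      exact ((b t).le_opNorm z).trans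
        (mul_le_mul_of_nonneg_right (b.norm_coe_le_norm t) (norm_nonneg z)))

omit [CompleteSpace 𝔸] in
theorem Ev_apply (b : C(I, V →L[ℂ] 𝔸)) (z : V) (t : I) : Ev b z t = b t z := rfl

/-- The path of coefficients. -/
theorem exists_coef (A : V → V →L[ℂ] 𝔸) (hA : AnalyticAt ℂ A 0) :
    ∃ a : V → C(I, 𝔸), AnalyticAt ℂ a 0 ∧ a 0 = 0 ∧
      ∀ᶠ z in 𝓝 (0 : V), ∀ t : I, a z t = A (((t:ℝ):ℂ) • z) z := by
  obtain ⟨B, hB, h⟩ := exists_path A hA
  refine ⟨fun z => Ev (B z) z, ?_, ?_, ?_⟩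
  · have h1 : AnalyticAt ℂ (fun z : V => (B z, z)) 0 := AnalyticAt.prod hB analyticAt_id
    have h2 := ((Ev (V := V) (𝔸 := 𝔸)).analyticAt_bilinear (B 0, 0))
    exact AnalyticAt.comp (f := fun z : V => (B z, z)) h2 h1
  · exact map_zero _
  · filter_upwards [h] with z hz t
    rw [Ev_apply, hz t]

/-- The radial solution: the equation along rays, with uniqueness along rays. -/
theorem exists_radial (A : V → V →L[ℂ] 𝔸) (hA : AnalyticAt ℂ A 0) :
    ∃ Y : V → 𝔸, AnalyticAt ℂ Y 0 ∧ Y 0 = 1 ∧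
      (∀ᶠ w in 𝓝 (0 : V), fderiv ℂ Y w w = A w w * Y w) ∧
      (∀ᶠ z in 𝓝 (0 : V), ∀ v : C(I, 𝔸), (∀ t : I, v t =
        ∫ s in (0:ℝ)..(t:ℝ), A ((s:ℂ) • z) z * ex v s) → v = 0) := by
  obtain ⟨a, ha, ha0, hae⟩ := exists_coef A hA
  have hsol : AnalyticAt ℂ (fun z => gsol (K : C(I, 𝔸) →L[ℂ] _) 1 (a z)) 0 := by
    have h1 := gsol_analytic (K : C(I, 𝔸) →L[ℂ] _) 1
    rw [← ha0] at h1
    exact AnalyticAt.comp (f := a) h1 ha
  have hinv : ∀ᶠ z in 𝓝 (0 : V), Inv (K : C(I, 𝔸) →L[ℂ] _) (a z) := by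
    have h1 := inv_near (K : C(I, 𝔸) →L[ℂ] _)
    rw [← ha0] at h1
    exact ha.continuousAt.eventually h1
  -- a ball on which everything holds
  have hY : AnalyticAt ℂ (fun z => gsol (K : C(I, 𝔸) →L[ℂ] _) 1 (a z) 1) 0 := by
    have h1 : AnalyticAt ℂ (ContinuousMap.evalCLM ℂ (1 : I) : C(I, 𝔸) →L[ℂ] 𝔸)
        (gsol (K : C(I, 𝔸) →L[ℂ] _) 1 (a 0)) := ContinuousLinearMap.analyticAt _ _
    exact AnalyticAt.comp (f := fun z => gsol (K : C(I, 𝔸) →L[ℂ] _) 1 (a z)) h1 hsol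
  have hYd : ∀ᶠ z in 𝓝 (0 : V), DifferentiableAt ℂ
      (fun z => gsol (K : C(I, 𝔸) →L[ℂ] _) 1 (a z) 1) z :=
    hY.eventually_analyticAt.mono fun z hz => hz.differentiableAt
  obtain ⟨ε, hε, hball⟩ := Metric.eventually_nhds_iff_ball.mp
    (hae.and (hinv.and hYd))
  have hsc : ∀ (z : V) (t : I), z ∈ Metric.ball (0 : V) ε →
      (((t:ℝ):ℂ) • z) ∈ Metric.ball (0 : V) ε := by
    intro z t hz
    rw [mem_ball_zero_iff] at hz ⊢
    rw [norm_smul, Complex.norm_real, Real.norm_eq_abs, abs_of_nonneg t.2.1]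
    nlinarith [norm_nonneg z, t.2.2, t.2.1]
  have hex : ∀ z ∈ Metric.ball (0 : V) ε, ∀ s ∈ Icc (0:ℝ) 1, ex (a z) s = A ((s:ℂ) • z) z := by
    intro z hz s hs
    rw [ex_of_mem _ hs]
    exact (hball z hz).1 ⟨s, hs⟩
  -- scaling
  have key : ∀ z ∈ Metric.ball (0 : V) ε, ∀ t s : I,
      gsol (K : C(I, 𝔸) →L[ℂ] _) 1 (a (((t:ℝ):ℂ) • z)) s =
        gsol (K : C(I, 𝔸) →L[ℂ] _) 1 (a z) (t * s) := by
    intro z hz t s
    let w : C(I, 𝔸) := ⟨fun s => gsol (K : C(I, 𝔸) →L[ℂ] _) 1 (a z) (t * s), by fun_prop⟩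
    have hw : w = gsol (K : C(I, 𝔸) →L[ℂ] _) 1 (a (((t:ℝ):ℂ) • z)) := by
      apply eq_gsol _ _ _ _ (hball _ (hsc z t hz)).2.1
      ext s
      have h1 := gsol_eq (K : C(I, 𝔸) →L[ℂ] _) 1 (a z) (hball z hz).2.1
      have h2 := congrArg (fun f : C(I, 𝔸) => f (t * s)) h1
      simp only [ContinuousMap.add_apply, ContinuousMap.one_apply] at h2
      rw [ContinuousMap.add_apply, ContinuousMap.one_apply]
      change gsol (K : C(I, 𝔸) →L[ℂ] _) 1 (a z) (t * s) = _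
      rw [h2, K_apply_apply, K_apply_apply]
      congr 1
      have h3 := intervalIntegral.smul_integral_comp_mul_left (a := 0) (b := (s:ℝ))
        (fun x => ex (a z) x * ex (gsol (K : C(I, 𝔸) →L[ℂ] _) 1 (a z)) x) (t:ℝ)
      rw [mul_zero] at h3
      have h4 : ((t * s : I) : ℝ) = (t:ℝ) * (s:ℝ) := rfl
      rw [h4, ← h3, ← intervalIntegral.integral_smul]
      apply intervalIntegral.integral_congr
      intro x hx
      rw [uIcc_of_le s.2.1] at hx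
      have hx1 : x ∈ Icc (0:ℝ) 1 := ⟨hx.1, hx.2.trans s.2.2⟩
      have hx2 : (t:ℝ) * x ∈ Icc (0:ℝ) 1 :=
        ⟨mul_nonneg t.2.1 hx1.1, mul_le_one₀ t.2.2 hx1.1 hx1.2⟩
      change (t:ℝ) • (ex (a z) ((t:ℝ) * x) * ex (gsol (K : C(I, 𝔸) →L[ℂ] _) 1 (a z)) ((t:ℝ) * x)) =
        ex (a (((t:ℝ):ℂ) • z)) x * ex w x
      rw [hex z hz _ hx2, hex _ (hsc z t hz) _ hx1, ex_of_mem _ hx1, ex_of_mem _ hx2]
      change _ = _ * gsol (K : C(I, 𝔸) →L[ℂ] _) 1 (a z) (t * ⟨x, hx1⟩)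
      have e1 : (⟨(t:ℝ) * x, hx2⟩ : I) = t * ⟨x, hx1⟩ := rfl
      rw [e1, map_smul]
      have e2 : (x:ℂ) • ((t:ℝ):ℂ) • z = (((t:ℝ) * x : ℝ) : ℂ) • z := by
        rw [smul_smul]
        congr 1
        push_cast
        ring
      rw [e2, smul_mul_assoc]
      exact (RCLike.real_smul_eq_coe_smul (K := ℂ) (t:ℝ) _)
    rw [← hw]
    rfl
  refine ⟨fun z => gsol (K : C(I, 𝔸) →L[ℂ] _) 1 (a z) 1, hY, ?_, ?_, ?_⟩
  · have h1 : gsol (K : C(I, 𝔸) →L[ℂ] _) 1 (a 0) = 1 := by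
      rw [ha0]
      unfold gsol
      rw [map_zero, sub_zero, Ring.inverse_one]
      rfl
    change gsol (K : C(I, 𝔸) →L[ℂ] _) 1 (a 0) 1 = 1
    rw [h1]
    rfl
  · -- radial equation
    have hhalf : ∀ᶠ w in 𝓝 (0 : V), (2:ℂ) • w ∈ Metric.ball (0 : V) ε := by
      have hc : Continuous (fun w : V => (2:ℂ) • w) := by fun_prop
      have := hc.continuousAt (x := (0 : V))
      unfold ContinuousAt at this
      simp only [smul_zero] at this
      exact this (Metric.ball_mem_nhds _ hε)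
    filter_upwards [hhalf, Metric.ball_mem_nhds (0 : V) hε] with w hw hw'
    set z := (2:ℂ) • w with hz
    set Y : V → 𝔸 := fun z => gsol (K : C(I, 𝔸) →L[ℂ] _) 1 (a z) 1 with hYdef
    have hwz : w = (((1/2:ℝ)):ℂ) • z := by
      rw [hz, smul_smul]
      norm_num
    -- derivative of t ↦ Y (t z)
    have h1 : HasDerivAt (fun t : ℝ => (1:𝔸) + ∫ s in (0:ℝ)..t, ex (a z) s *
        ex (gsol (K : C(I, 𝔸) →L[ℂ] _) 1 (a z)) s)
        (ex (a z) (1/2) * ex (gsol (K : C(I, 𝔸) →L[ℂ] _) 1 (a z)) (1/2)) (1/2) := by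
      apply HasDerivAt.const_add
      have hc : Continuous (fun s => ex (a z) s * ex (gsol (K : C(I, 𝔸) →L[ℂ] _) 1 (a z)) s) :=
        (continuous_ex _).mul (continuous_ex _)
      exact intervalIntegral.integral_hasDerivAt_right (hc.intervalIntegrable _ _)
        (hc.stronglyMeasurableAtFilter _ _) hc.continuousAt
    have h2 : (fun t : ℝ => (1:𝔸) + ∫ s in (0:ℝ)..t, ex (a z) s *
        ex (gsol (K : C(I, 𝔸) →L[ℂ] _) 1 (a z)) s) =ᶠ[𝓝 (1/2:ℝ)]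
        fun t : ℝ => Y ((t:ℂ) • z) := by
      have : Icc (0:ℝ) 1 ∈ 𝓝 (1/2:ℝ) := Icc_mem_nhds (by norm_num) (by norm_num)
      filter_upwards [this] with t ht
      have h3 := gsol_eq (K : C(I, 𝔸) →L[ℂ] _) 1 (a z) (hball z hw).2.1
      have h4 := congrArg (fun f : C(I, 𝔸) => f ⟨t, ht⟩) h3
      simp only [ContinuousMap.add_apply, ContinuousMap.one_apply] at h4
      rw [K_apply_apply] at h4
      rw [← h4]
      have h5 := key z hw ⟨t, ht⟩ 1
      rw [mul_one] at h5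
      exact h5.symm
    have h3 : HasDerivAt (fun t : ℝ => Y ((t:ℂ) • z))
        (ex (a z) (1/2) * ex (gsol (K : C(I, 𝔸) →L[ℂ] _) 1 (a z)) (1/2)) (1/2) :=
      h1.congr_of_eventuallyEq h2.symm
    have h4 : HasDerivAt (fun t : ℝ => Y ((t:ℂ) • z)) (fderiv ℂ Y w z) (1/2) := by
      have h5 : HasFDerivAt Y (fderiv ℂ Y w) (((1/2:ℝ):ℂ) • z) := by
        rw [← hwz]
        exact (hball w hw').2.2.hasFDerivAt
      have h6 : HasDerivAt (fun t : ℝ => (t:ℂ) • z) ((1:ℂ) • z) (1/2) := by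
        have := (Complex.ofRealCLM.hasDerivAt (x := (1/2:ℝ))).smul_const z
        simpa using this
      have h7 := (h5.restrictScalars ℝ).comp_hasDerivAt (1/2:ℝ) h6
      rw [one_smul] at h7
      exact h7
    have h5 := h4.unique h3
    have hm : (1/2:ℝ) ∈ Icc (0:ℝ) 1 := ⟨by norm_num, by norm_num⟩
    rw [hex z hw _ hm, ex_of_mem _ hm] at h5
    have h6 := key z hw ⟨1/2, hm⟩ 1
    rw [mul_one] at h6
    change gsol (K : C(I, 𝔸) →L[ℂ] _) 1 (a (((1/2:ℝ):ℂ) • z)) 1 = _ at h6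
    rw [← h6, ← hwz] at h5
    have h7 : z = (2:ℂ) • w := hz
    rw [h7, map_smul, map_smul, smul_mul_assoc] at h5
    exact smul_right_injective 𝔸 (two_ne_zero (α := ℂ)) h5
  · filter_upwards [Metric.ball_mem_nhds (0 : V) hε] with z hz v hv
    apply eq_zero_of (K : C(I, 𝔸) →L[ℂ] _) (a z) v (hball z hz).2.1
    ext t
    rw [hv t, K_apply_apply]
    apply intervalIntegral.integral_congr
    intro s hs
    rw [uIcc_of_le t.2.1] at hs
    change A ((s:ℂ) • z) z * ex v s = ex (a z) s * ex v s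
    rw [hex z hz s ⟨hs.1, hs.2.trans t.2.2⟩]

end Radial

end Pool.Agent.LMT
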