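import Pool.Agent.LMT.V3

/-!
Flat linear systems are solvable near a point.
-/

set_option autoImplicit false

namespace Pool.Agent.LMT

open Set Filter Topology MeasureTheory unitInterval

section Flat

variable {V : Type*} [NormedAddCommGroup V] [NormedSpace ℂ V]
  {𝔸 : Type*} [NormedRing 𝔸] [NormedAlgebra ℂ 𝔸] [CompleteSpace 𝔸]

/-- Flatness of the system `dY = A Y` at `z`. -/
def FlatAt (A : V → V →L[ℂ] 𝔸) (z : V) : Prop :=
  ∀ u v : V, fderiv ℂ A z u v + A z v * A z u = fderiv ℂ A z v u + A z u * A z v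

/-- Flat linear systems are solvable near a point. -/
theorem exists_flat (A : V → V →L[ℂ] 𝔸) (hA : AnalyticAt ℂ A 0)
    (hflat : ∀ᶠ z in 𝓝 (0 : V), FlatAt A z) :
    ∃ Y : V → 𝔸, AnalyticAt ℂ Y 0 ∧ Y 0 = 1 ∧
      ∀ᶠ z in 𝓝 (0 : V), ∀ u, fderiv ℂ Y z u = A z u * Y z := by
  obtain ⟨Y, hY, hY0, hrad, huniq⟩ := exists_radial A hA
  refine ⟨Y, hY, hY0, ?_⟩
  obtain ⟨ε, hε, hball⟩ := Metric.eventually_nhds_iff_ball.mp
    (hrad.and (huniq.and (hflat.and (hY.eventually_analyticAt.and hA.eventually_analyticAt))))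
  -- the defect
  have hopen : IsOpen (Metric.ball (0 : V) ε) := Metric.isOpen_ball
  have hradd : ∀ w ∈ Metric.ball (0 : V) ε, fderiv ℂ Y w w = A w w * Y w :=
    fun w hw => (hball w hw).1
  let T : V → V → 𝔸 := fun u w => fderiv ℂ Y w u - A w u * Y w
  -- derivative facts at w
  have hDY : ∀ w ∈ Metric.ball (0 : V) ε, HasFDerivAt Y (fderiv ℂ Y w) w :=
    fun w hw => (hball w hw).2.2.2.1.differentiableAt.hasFDerivAt
  have hDDY : ∀ w ∈ Metric.ball (0 : V) ε,
      HasFDerivAt (fderiv ℂ Y) (fderiv ℂ (fderiv ℂ Y) w) w :=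
    fun w hw => (hball w hw).2.2.2.1.fderiv.differentiableAt.hasFDerivAt
  have hDA : ∀ w ∈ Metric.ball (0 : V) ε, HasFDerivAt A (fderiv ℂ A w) w :=
    fun w hw => (hball w hw).2.2.2.2.differentiableAt.hasFDerivAt
  have hsymm : ∀ w ∈ Metric.ball (0 : V) ε, ∀ u v,
      fderiv ℂ (fderiv ℂ Y) w u v = fderiv ℂ (fderiv ℂ Y) w v u := by
    intro w hw u v
    have h1 : ContDiffAt ℂ 2 Y w := (hball w hw).2.2.2.1.contDiffAt
    exact (h1.isSymmSndFDerivAt (by simp)).eq u v
  have hT : ∀ u, ∀ w ∈ Metric.ball (0 : V) ε, ∃ L : V →L[ℂ] 𝔸, HasFDerivAt (T u) L w ∧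
      ∀ v, L v = fderiv ℂ (fderiv ℂ Y) w v u -
        (fderiv ℂ A w v u * Y w + A w u * fderiv ℂ Y w v) := by
    intro u w hw
    have h1 : HasFDerivAt (fun w => fderiv ℂ Y w u)
        ((ContinuousLinearMap.apply ℂ 𝔸 u).comp (fderiv ℂ (fderiv ℂ Y) w)) w :=
      (ContinuousLinearMap.apply ℂ 𝔸 u).hasFDerivAt.comp w (hDDY w hw)
    have h2 : HasFDerivAt (fun w => A w u)
        ((ContinuousLinearMap.apply ℂ 𝔸 u).comp (fderiv ℂ A w)) w :=
      (ContinuousLinearMap.apply ℂ 𝔸 u).hasFDerivAt.comp w (hDA w hw)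
    have h3 := h2.mul' (hDY w hw)
    refine ⟨_, h1.sub h3, fun v => ?_⟩
    simp only [_root_.sub_apply, ContinuousLinearMap.comp_apply,
      ContinuousLinearMap.apply_apply, _root_.add_apply, _root_.smul_apply, smul_eq_mul,
      MulOpposite.smul_eq_mul_unop, MulOpposite.unop_op]
    rw [add_comm (A w u * fderiv ℂ Y w v)]
  -- the Euler identity differentiated
  have hE : ∀ u, ∀ w ∈ Metric.ball (0 : V) ε,
      fderiv ℂ (fderiv ℂ Y) w u w + fderiv ℂ Y w u =
        (fderiv ℂ A w u w + A w u) * Y w + A w w * fderiv ℂ Y w u := by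
    intro u w hw
    have h1 : HasFDerivAt (fun w => fderiv ℂ Y w w) _ w :=
      (hDDY w hw).clm_apply (hasFDerivAt_id w)
    have h2 : HasFDerivAt (fun w => A w w) _ w := (hDA w hw).clm_apply (hasFDerivAt_id w)
    have h3 := h2.mul' (hDY w hw)
    have h4 : (fun w => fderiv ℂ Y w w) =ᶠ[𝓝 w] fun w => A w w * Y w := by
      filter_upwards [hopen.mem_nhds hw] with x hx
      exact hradd x hx
    have h5 := h1.unique (h3.congr_of_eventuallyEq h4)
    have h6 := congrArg (fun L : V →L[ℂ] 𝔸 => L u) h5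
    simp only [_root_.add_apply, ContinuousLinearMap.comp_apply, ContinuousLinearMap.flip_apply,
      _root_.smul_apply, smul_eq_mul, MulOpposite.smul_eq_mul_unop, MulOpposite.unop_op,
      ContinuousLinearMap.id_apply] at h6
    rw [add_comm (fderiv ℂ (fderiv ℂ Y) w u w), h6]
    rw [add_comm (A w u), add_comm]
  have hid : ∀ u, ∀ w ∈ Metric.ball (0 : V) ε, ∃ L : V →L[ℂ] 𝔸, HasFDerivAt (T u) L w ∧
      T u w + L w = A w w * T u w := by
    intro u w hw
    obtain ⟨L, hL, hLv⟩ := hT u w hw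
    refine ⟨L, hL, ?_⟩
    rw [hLv w, hsymm w hw w u]
    have e1 := hE u w hw
    have e2 := (hball w hw).2.2.1 u w
    have e3 := hradd w hw
    have e4 : fderiv ℂ (fderiv ℂ Y) w u w = (fderiv ℂ A w u w + A w u) * Y w +
        A w w * fderiv ℂ Y w u - fderiv ℂ Y w u := by
      rw [← e1]; abel
    have e5 : fderiv ℂ A w u w = fderiv ℂ A w w u + A w u * A w w - A w w * A w u := by
      rw [← e2]; abel
    change fderiv ℂ Y w u - A w u * Y w + _ = A w w * (fderiv ℂ Y w u - A w u * Y w)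
    rw [e4, e5, e3]
    noncomm_ring
  filter_upwards [Metric.ball_mem_nhds (0 : V) hε] with z hz u
  -- the path
  have hsc : ∀ t ∈ Icc (0:ℝ) 1, ((t:ℂ) • z) ∈ Metric.ball (0 : V) ε := by
    intro t ht
    rw [mem_ball_zero_iff] at hz ⊢
    rw [norm_smul, Complex.norm_real, Real.norm_eq_abs, abs_of_nonneg ht.1]
    nlinarith [norm_nonneg z, ht.1, ht.2]
  let τ : ℝ → 𝔸 := fun t => (t:ℂ) • T u ((t:ℂ) • z)
  have hτ : ∀ t ∈ Icc (0:ℝ) 1, HasDerivAt τ (A ((t:ℂ) • z) z * τ t) t := by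
    intro t ht
    obtain ⟨L, hL, hLw⟩ := hid u _ (hsc t ht)
    have h6 : HasDerivAt (fun t : ℝ => (t:ℂ) • z) ((1:ℂ) • z) t := by
      have := (Complex.ofRealCLM.hasDerivAt (x := t)).smul_const z
      simpa using this
    have h7 := (hL.restrictScalars ℝ).comp_hasDerivAt t h6
    have h8 : HasDerivAt (fun t : ℝ => (t:ℂ)) (1:ℂ) t := by
      have := (Complex.ofRealCLM.hasDerivAt (x := t))
      rw [Complex.ofRealCLM_apply, Complex.ofReal_one] at this
      exact this
    have h9 := h8.smul h7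
    have h10 : A ((t:ℂ) • z) z * τ t =
        (t:ℂ) • ((L.restrictScalars ℝ) ((1:ℂ) • z)) + (1:ℂ) • (T u ∘ fun t : ℝ => (t:ℂ) • z) t := by
      simp only [ContinuousLinearMap.coe_restrictScalars', Function.comp_apply, one_smul]
      change _ * ((t:ℂ) • T u ((t:ℂ) • z)) = _
      rw [map_smul, map_smul, smul_mul_assoc] at hLw
      rw [mul_smul_comm, ← hLw, add_comm]
    rw [h10]
    exact h9
  have hτc : ContinuousOn τ (Icc (0:ℝ) 1) := fun t ht => (hτ t ht).continuousAt.continuousWithinAt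
  let v : C(I, 𝔸) := ⟨fun t => τ t, hτc.domRestrict⟩
  have hv : v = 0 := by
    apply (hball z hz).2.1 v
    intro t
    have hAc : ContinuousOn (fun s : ℝ => A ((s:ℂ) • z) z) (Icc (0:ℝ) 1) := by
      intro s hs
      have h1 : ContinuousAt A ((s:ℂ) • z) := (hDA _ (hsc s hs)).continuousAt
      have h2 : ContinuousAt (fun s : ℝ => (s:ℂ) • z) s := by fun_prop
      have h3 : ContinuousAt (fun s : ℝ => A ((s:ℂ) • z)) s :=
        ContinuousAt.comp (f := fun s : ℝ => (s:ℂ) • z) h1 h2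
      exact ((ContinuousLinearMap.apply ℂ 𝔸 z).continuous.continuousAt.comp h3).continuousWithinAt
    have hsub : uIcc (0:ℝ) t ⊆ Icc (0:ℝ) 1 := by
      rw [uIcc_of_le t.2.1]
      exact Icc_subset_Icc_right t.2.2
    have h1 : ∫ s in (0:ℝ)..(t:ℝ), A ((s:ℂ) • z) z * τ s = τ t - τ 0 := by
      apply intervalIntegral.integral_eq_sub_of_hasDerivAt
      · intro s hs
        exact hτ s (hsub hs)
      · apply ContinuousOn.intervalIntegrable
        exact (hAc.mul hτc).mono hsub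
    have h2 : τ 0 = 0 := by simp [τ]
    rw [h2, sub_zero] at h1
    change τ t = _
    rw [← h1]
    apply intervalIntegral.integral_congr
    intro s hs
    change A ((s:ℂ) • z) z * τ s = A ((s:ℂ) • z) z * ex v s
    rw [ex_of_mem v (hsub hs)]
    rfl
  have h1 := congrArg (fun f : C(I, 𝔸) => f 1) hv
  change τ ((1 : I) : ℝ) = 0 at h1
  have h2 : τ ((1 : I) : ℝ) = T u z := by simp [τ]
  rw [h2] at h1
  exact sub_eq_zero.mp h1

end Flat

end Pool.Agent.LMT
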