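import Pool.Agent.LMT.V4

/-!
Flat linear systems: coefficients given by a finite sum.
-/

set_option autoImplicit false

namespace Pool.Agent.LMT

open Set Filter Topology

section Sum

variable {V : Type*} [NormedAddCommGroup V] [NormedSpace ℂ V]
  {𝔸 : Type*} [NormedRing 𝔸] [NormedAlgebra ℂ 𝔸] [CompleteSpace 𝔸]

theorem exists_flat_sum {ι : Type*} [Fintype ι] (f : ι → V → ℂ) (E : ι → V →L[ℂ] 𝔸)
    (hf : ∀ k, AnalyticAt ℂ (f k) 0)
    (hflat : ∀ᶠ w in 𝓝 (0 : V), ∀ u v,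
      (∑ k, (fderiv ℂ (f k) w u) • E k v) + (∑ k, f k w • E k v) * (∑ k, f k w • E k u) =
      (∑ k, (fderiv ℂ (f k) w v) • E k u) + (∑ k, f k w • E k u) * (∑ k, f k w • E k v)) :
    ∃ Y : V → 𝔸, AnalyticAt ℂ Y 0 ∧ Y 0 = 1 ∧
      ∀ᶠ z in 𝓝 (0 : V), ∀ u, fderiv ℂ Y z u = (∑ k, f k z • E k u) * Y z := by
  classical
  let B : V → (V →L[ℂ] 𝔸) := fun w => ∑ k, f k w • E k
  have hBv : ∀ w u, B w u = ∑ k, f k w • E k u := by
    intro w u
    simp only [B, _root_.sum_apply, _root_.smul_apply]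
  have hB : AnalyticAt ℂ B 0 :=
    Finset.analyticAt_fun_sum _ (fun k _ => (hf k).fun_smul analyticAt_const)
  have hd : ∀ᶠ w in 𝓝 (0 : V), ∀ k, DifferentiableAt ℂ (f k) w := by
    rw [eventually_all]
    intro k
    exact (hf k).eventually_analyticAt.mono fun z hz => hz.differentiableAt
  have hBd : ∀ w, (∀ k, DifferentiableAt ℂ (f k) w) → ∀ u v,
      fderiv ℂ B w u v = ∑ k, (fderiv ℂ (f k) w u) • E k v := by
    intro w hw u v
    have h1 : HasFDerivAt B (∑ k, (fderiv ℂ (f k) w).smulRight (E k)) w :=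
      HasFDerivAt.fun_sum (fun k _ => (hw k).hasFDerivAt.smul_const (E k))
    rw [h1.fderiv]
    simp only [_root_.sum_apply, ContinuousLinearMap.smulRight_apply, _root_.smul_apply]
  have hfl : ∀ᶠ w in 𝓝 (0 : V), FlatAt B w := by
    filter_upwards [hflat, hd] with w hw hwd u v
    rw [hBd w hwd, hBd w hwd, hBv, hBv]
    exact hw u v
  obtain ⟨Y, hY, hY0, hYe⟩ := exists_flat B hB hfl
  refine ⟨Y, hY, hY0, ?_⟩
  filter_upwards [hYe] with z hz u
  rw [hz u, hBv]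

end Sum

end Pool.Agent.LMT
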