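import Pool.Agent.LMT.V4b

/-!
Flat linear systems with matrix coefficients, in coordinates.
-/

set_option autoImplicit false

namespace Pool.Agent.LMT

open Set Filter Topology

/-- The coordinate derivative. -/
noncomputable def pd {n : ℕ} (i : Fin n) (f : (Fin n → ℂ) → ℂ) (z : Fin n → ℂ) : ℂ :=
  fderiv ℂ f z (Pi.single i 1)

theorem fderiv_eq_sum {n : ℕ} (f : (Fin n → ℂ) → ℂ) (z u : Fin n → ℂ) :
    fderiv ℂ f z u = ∑ j, u j * pd j f z := by
  have h : u = ∑ j, u j • (Pi.single j 1 : Fin n → ℂ) := by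
    funext k
    rw [Finset.sum_apply]
    simp [Pi.single_apply]
  conv_lhs => rw [h]
  rw [map_sum]
  refine Finset.sum_congr rfl (fun j _ => ?_)
  rw [map_smul, smul_eq_mul]
  rfl

section

/-- The Banach algebra of endomorphisms. -/
abbrev En (N : ℕ) := (Fin N → ℂ) →L[ℂ] (Fin N → ℂ)

/-- The entry functional. -/
noncomputable def ent {N : ℕ} (a b : Fin N) : En N →L[ℂ] ℂ :=
  (ContinuousLinearMap.proj (R := ℂ) (φ := fun _ : Fin N => ℂ) a).comp
    (ContinuousLinearMap.apply ℂ (Fin N → ℂ) (Pi.single b (1:ℂ) : Fin N → ℂ))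

theorem ent_apply {N : ℕ} (a b : Fin N) (M : En N) : ent a b M = M (Pi.single b 1) a := rfl

/-- The elementary matrix. -/
noncomputable def sg {N : ℕ} (a b : Fin N) : En N :=
  (ContinuousLinearMap.proj (R := ℂ) (φ := fun _ : Fin N => ℂ) b).smulRight
    (Pi.single a (1:ℂ) : Fin N → ℂ)

theorem sg_entry {N : ℕ} (c d a b : Fin N) :
    ent c d (sg a b) = if a = c ∧ b = d then 1 else 0 := by
  rw [ent_apply]
  simp only [sg, ContinuousLinearMap.smulRight_apply, ContinuousLinearMap.proj_apply,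
    Pi.smul_apply, Pi.single_apply, smul_eq_mul]
  by_cases h1 : a = c <;> by_cases h2 : b = d <;> simp [h1, h2, eq_comm]
  · intro h; exact absurd h.symm h1

theorem ent_ext {N : ℕ} {S T : En N} (h : ∀ a b, ent a b S = ent a b T) : S = T := by
  apply ContinuousLinearMap.coe_injective
  apply LinearMap.pi_ext'
  intro b
  ext a
  exact h a b

theorem ent_mul {N : ℕ} (S T : En N) (a b : Fin N) :
    ent a b (S * T) = ∑ c, ent a c S * ent c b T := by
  have h : T (Pi.single b 1) = ∑ c, ent c b T • (Pi.single c 1 : Fin N → ℂ) := by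
    funext k
    rw [Finset.sum_apply]
    simp [Pi.single_apply, ent_apply]
  rw [ent_apply, mul_apply_eq_comp, h, map_sum, Finset.sum_apply]
  refine Finset.sum_congr rfl (fun c _ => ?_)
  rw [map_smul, Pi.smul_apply, smul_eq_mul, mul_comm]
  rfl

/-- The elementary forms. -/
noncomputable def Eab {n N : ℕ} (k : Fin n × Fin N × Fin N) : (Fin n → ℂ) →L[ℂ] En N :=
  (ContinuousLinearMap.proj (R := ℂ) (φ := fun _ : Fin n => ℂ) k.1).smulRight (sg k.2.1 k.2.2)

theorem ent_sum {n N : ℕ} (f : Fin n × Fin N × Fin N → ℂ) (u : Fin n → ℂ) (c d : Fin N) :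
    ent c d (∑ k, f k • Eab k u) = ∑ i, u i * f (i, c, d) := by
  rw [map_sum, Fintype.sum_prod_type]
  refine Finset.sum_congr rfl (fun i _ => ?_)
  rw [Fintype.sum_prod_type, Finset.sum_eq_single c, Finset.sum_eq_single d]
  · rw [map_smul]
    change f (i, c, d) • ent c d (u i • sg c d) = _
    rw [map_smul, sg_entry]
    simp [mul_comm]
  · intro b _ hb
    rw [map_smul]
    change f (i, c, b) • ent c d (u i • sg c b) = _
    rw [map_smul, sg_entry]
    simp [hb]
  · simp
  · intro a _ ha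
    apply Finset.sum_eq_zero
    intro b _
    rw [map_smul]
    change f (i, a, b) • ent c d (u i • sg a b) = _
    rw [map_smul, sg_entry]
    simp [ha]
  · simp

/-- Flat linear systems with matrix coefficients are solvable near a point. -/
theorem exists_frame {n N : ℕ} (A : Fin n → (Fin n → ℂ) → Matrix (Fin N) (Fin N) ℂ)
    (z0 : Fin n → ℂ) (hA : ∀ i a b, AnalyticAt ℂ (fun z => A i z a b) z0)
    (hflat : ∀ᶠ z in 𝓝 z0, ∀ i j a b, pd i (fun z => A j z a b) z + (A j z * A i z) a b =
      pd j (fun z => A i z a b) z + (A i z * A j z) a b) :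
    ∃ Y : (Fin n → ℂ) → Matrix (Fin N) (Fin N) ℂ, Y z0 = 1 ∧
      (∀ a b, AnalyticAt ℂ (fun z => Y z a b) z0) ∧
      ∀ᶠ z in 𝓝 z0, ∀ i a b, pd i (fun z => Y z a b) z = (A i z * Y z) a b := by
  classical
  let f : Fin n × Fin N × Fin N → (Fin n → ℂ) → ℂ := fun k w => A k.1 (z0 + w) k.2.1 k.2.2
  have hsh : ∀ w : Fin n → ℂ, AnalyticAt ℂ (fun w : Fin n → ℂ => z0 + w) w := fun w => by
    fun_prop
  have hev : ∀ {p : (Fin n → ℂ) → Prop}, (∀ᶠ z in 𝓝 z0, p z) → ∀ᶠ w in 𝓝 (0 : Fin n → ℂ),
      p (z0 + w) := by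
    intro p hp
    have h1 : Tendsto (fun w : Fin n → ℂ => z0 + w) (𝓝 0) (𝓝 z0) := by
      have := (hsh 0).continuousAt
      unfold ContinuousAt at this
      simpa only [add_zero] using this
    exact h1.eventually hp
  have hf : ∀ k, AnalyticAt ℂ (f k) 0 := by
    intro k
    have h2 := hA k.1 k.2.1 k.2.2
    have h3 : z0 = z0 + 0 := (add_zero z0).symm
    rw [h3] at h2
    exact AnalyticAt.comp (f := fun w : Fin n → ℂ => z0 + w) h2 (hsh 0)
  have hAd : ∀ᶠ z in 𝓝 z0, ∀ i a b, DifferentiableAt ℂ (fun z => A i z a b) z := by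
    rw [eventually_all]; intro i
    rw [eventually_all]; intro a
    rw [eventually_all]; intro b
    exact (hA i a b).eventually_analyticAt.mono fun z hz => hz.differentiableAt
  have hfd : ∀ w, (∀ i a b, DifferentiableAt ℂ (fun z => A i z a b) (z0 + w)) →
      ∀ k, fderiv ℂ (f k) w = fderiv ℂ (fun z => A k.1 z k.2.1 k.2.2) (z0 + w) := by
    intro w hw k
    have h3 := (hw k.1 k.2.1 k.2.2).hasFDerivAt
    have h4 : HasFDerivAt (fun w : Fin n → ℂ => z0 + w) (ContinuousLinearMap.id ℂ _) w :=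
      (hasFDerivAt_id w).const_add z0
    have h5 := h3.comp w h4
    rw [ContinuousLinearMap.comp_id] at h5
    exact h5.fderiv
  have hflatB : ∀ᶠ w in 𝓝 (0 : Fin n → ℂ), ∀ u v : Fin n → ℂ,
      (∑ k, (fderiv ℂ (f k) w u) • Eab k v) +
        (∑ k, f k w • Eab k v) * (∑ k, f k w • Eab k u) =
      (∑ k, (fderiv ℂ (f k) w v) • Eab k u) +
        (∑ k, f k w • Eab k u) * (∑ k, f k w • Eab k v) := by
    filter_upwards [hev hflat, hev hAd] with w hw hwd u v
    apply ent_ext
    intro c d
    have hmul : ∀ u v : Fin n → ℂ,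
        ent c d ((∑ k, f k w • Eab k v) * (∑ k, f k w • Eab k u)) =
        ∑ i, ∑ j, v i * u j * (A i (z0 + w) * A j (z0 + w)) c d := by
      intro u v
      rw [ent_mul]
      simp_rw [ent_sum, Matrix.mul_apply, Finset.sum_mul, Finset.mul_sum]
      rw [Finset.sum_comm]
      refine Finset.sum_congr rfl (fun i _ => ?_)
      rw [Finset.sum_comm]
      refine Finset.sum_congr rfl (fun j _ => Finset.sum_congr rfl (fun k _ => ?_))
      change v i * A i (z0 + w) c k * (u j * A j (z0 + w) k d) = _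
      ring
    have hder : ∀ u v : Fin n → ℂ, ent c d (∑ k, (fderiv ℂ (f k) w u) • Eab k v) =
        ∑ i, ∑ j, v i * u j * pd j (fun z => A i z c d) (z0 + w) := by
      intro u v
      rw [ent_sum (fun k => fderiv ℂ (f k) w u)]
      refine Finset.sum_congr rfl (fun i _ => ?_)
      rw [hfd w hwd, fderiv_eq_sum, Finset.mul_sum]
      refine Finset.sum_congr rfl (fun j _ => ?_)
      ring
    rw [map_add, map_add, hmul, hmul, hder, hder, ← Finset.sum_add_distrib,
      ← Finset.sum_add_distrib]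
    simp_rw [← Finset.sum_add_distrib, ← mul_add]
    rw [Finset.sum_comm]
    refine Finset.sum_congr rfl (fun j _ => Finset.sum_congr rfl (fun i _ => ?_))
    rw [hw j i c d]
    ring
  obtain ⟨Y, hY, hY0, hYe⟩ := exists_flat_sum f Eab hf hflatB
  have hsub : ∀ z : Fin n → ℂ, AnalyticAt ℂ (fun z : Fin n → ℂ => z - z0) z := fun z => by
    fun_prop
  have hev' : ∀ {p : (Fin n → ℂ) → Prop}, (∀ᶠ w in 𝓝 0, p w) → ∀ᶠ z in 𝓝 z0, p (z - z0) := by
    intro p hp
    have h1 : Tendsto (fun z : Fin n → ℂ => z - z0) (𝓝 z0) (𝓝 0) := by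
      have := (hsub z0).continuousAt
      unfold ContinuousAt at this
      simpa only [sub_self] using this
    exact h1.eventually hp
  refine ⟨fun z => Matrix.of fun a b => ent a b (Y (z - z0)), ?_, ?_, ?_⟩
  · ext a b
    change ent a b (Y (z0 - z0)) = _
    rw [sub_self, hY0, ent_apply, one_apply_eq_self, Matrix.one_apply, Pi.single_apply]
  · intro a b
    have h1 : AnalyticAt ℂ (fun z => Y (z - z0)) z0 := by
      have h2 := hY
      rw [← sub_self z0] at h2
      exact AnalyticAt.comp (f := fun z : Fin n → ℂ => z - z0) h2 (hsub z0)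
    exact AnalyticAt.comp (f := fun z => Y (z - z0)) ((ent a b).analyticAt _) h1
  · have hYd : ∀ᶠ w in 𝓝 (0 : Fin n → ℂ), DifferentiableAt ℂ Y w :=
      hY.eventually_analyticAt.mono fun z hz => hz.differentiableAt
    filter_upwards [hev' hYe, hev' hYd] with z hz hzd i a b
    have h1 := hz (Pi.single i 1)
    have h2 : ∀ c d, ent c d (∑ k, f k (z - z0) • Eab k (Pi.single i 1 : Fin n → ℂ)) =
        A i z c d := by
      intro c d
      rw [ent_sum (fun k => f k (z - z0)), Finset.sum_eq_single i]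
      · change (Pi.single i 1 : Fin n → ℂ) i * A i (z0 + (z - z0)) c d = _
        rw [add_sub_cancel]
        simp
      · intro j _ hj
        simp [hj]
      · simp
    have h5 : (A i z * (Matrix.of fun a b => ent a b (Y (z - z0)))) a b =
        ent a b (fderiv ℂ Y (z - z0) (Pi.single i 1)) := by
      rw [h1, ent_mul, Matrix.mul_apply]
      refine Finset.sum_congr rfl (fun c _ => ?_)
      rw [h2]
      rfl
    rw [h5]
    unfold pd
    have h3 : HasFDerivAt (fun z => Y (z - z0)) (fderiv ℂ Y (z - z0)) z := by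
      have h4 : HasFDerivAt (fun z : Fin n → ℂ => z - z0) (ContinuousLinearMap.id ℂ _) z :=
        (hasFDerivAt_id z).sub_const z0
      have h5 := hzd.hasFDerivAt.comp z h4
      rw [ContinuousLinearMap.comp_id] at h5
      exact h5
    have h4 : HasFDerivAt (fun z => ent a b (Y (z - z0))) ((ent a b).comp
        (fderiv ℂ Y (z - z0))) z :=
      (ent a b).hasFDerivAt.comp z h3
    change fderiv ℂ (fun z => ent a b (Y (z - z0))) z (Pi.single i 1) = _
    rw [h4.fderiv]
    rfl

end

end Pool.Agent.LMT
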